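import Pool.Agent.BCore.Defs

/-!
B-CORE: basic facts on the exponentials, on `W` and on `KL`.
-/

namespace Pool.Agent.BCore

open Complex

theorem eN_add (P : ℕ) (X Y : ℤ) : eN P (X + Y) = eN P X * eN P Y := by
  unfold eN
  rw [← Complex.exp_add]
  congr 1
  push_cast
  ring

theorem eN_zero (P : ℕ) : eN P 0 = 1 := by
  simp [eN]

theorem eN_norm (P : ℕ) (X : ℤ) : ‖eN P X‖ = 1 := by
  unfold eN
  have : (2 * (Real.pi : ℂ) * Complex.I * ((X : ℂ) / (P : ℂ)))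
      = ((2 * Real.pi * ((X : ℝ) / (P : ℝ)) : ℝ) : ℂ) * Complex.I := by
    push_cast
    ring
  rw [this, Complex.norm_exp_ofReal_mul_I]

theorem eN_neg (P : ℕ) (X : ℤ) : eN P (-X) = (starRingEnd ℂ) (eN P X) := by
  unfold eN
  rw [← Complex.exp_conj]
  congr 1
  have h2 : (starRingEnd ℂ) (2 : ℂ) = 2 := Complex.conj_ofNat 2
  simp only [map_mul, map_div₀, Complex.conj_ofReal, Complex.conj_I, map_intCast, map_natCast,
    h2, Int.cast_neg]
  ring

theorem eN_of_dvd {P : ℕ} {X : ℤ} (h : (P : ℤ) ∣ X) : eN P X = 1 := by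
  obtain ⟨k, rfl⟩ := h
  unfold eN
  rcases Nat.eq_zero_or_pos P with hP | hP
  · subst hP
    simp
  · have hP' : (P : ℂ) ≠ 0 := by exact_mod_cast hP.ne'
    have : (2 * (Real.pi : ℂ) * Complex.I * ((((P : ℤ) * k : ℤ) : ℂ) / (P : ℂ)))
        = (k : ℂ) * (2 * (Real.pi : ℂ) * Complex.I) := by
      push_cast
      field_simp
    rw [this, Complex.exp_int_mul_two_pi_mul_I]

theorem eN_congr {P : ℕ} {X Y : ℤ} (h : (P : ℤ) ∣ X - Y) : eN P X = eN P Y := by
  have : X = Y + (X - Y) := by ring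
  rw [this, eN_add, eN_of_dvd h, mul_one]

theorem eN_mul_left {k P : ℕ} (hk : k ≠ 0) (X : ℤ) : eN (k * P) ((k : ℤ) * X) = eN P X := by
  unfold eN
  congr 1
  have hk' : (k : ℂ) ≠ 0 := by exact_mod_cast hk
  rcases Nat.eq_zero_or_pos P with hP | hP
  · subst hP
    simp
  · have hP' : (P : ℂ) ≠ 0 := by exact_mod_cast hP.ne'
    push_cast
    field_simp

theorem eN_mul_conj (P : ℕ) (X : ℤ) : eN P X * (starRingEnd ℂ) (eN P X) = 1 := by
  rw [← eN_neg, ← eN_add, add_neg_cancel, eN_zero]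

/-- Divisibility by a squarefree number can be checked on its primes. -/
theorem dvd_of_primes {m : ℕ} (hm : Squarefree m) {z : ℤ}
    (h : ∀ p : ℕ, p.Prime → p ∣ m → (p : ℤ) ∣ z) : (m : ℤ) ∣ z := by
  have h0 : m = ∏ p ∈ m.primeFactors, p := (Nat.prod_primeFactors_of_squarefree hm).symm
  have h1 : (∏ p ∈ m.primeFactors, (p : ℤ)) ∣ z := by
    apply Finset.prod_dvd_of_coprime
    · intro p hp q hq hpq
      have hp' := Nat.prime_of_mem_primeFactors hp
      have hq' := Nat.prime_of_mem_primeFactors hq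
      exact Nat.isCoprime_iff_coprime.mpr ((Nat.coprime_primes hp' hq').mpr hpq)
    · intro p hp
      exact h p (Nat.prime_of_mem_primeFactors hp) (Nat.dvd_of_mem_primeFactors hp)
  rw [h0]
  push_cast
  exact h1

/-- The class is unique modulo `P`. -/
theorem cls_unique {a b1 b2 : ℤ} {r : ℕ} {l : ℤ} {d1 d2 : ℕ} {n c c' : ℤ}
    (hsq : Squarefree (Pm r d1 d2))
    (ha : IsCoprime (r : ℤ) a) (h1 : IsCoprime (d1 : ℤ) b1) (h2 : IsCoprime (d2 : ℤ) b2)
    (hc : Cls a b1 b2 r l d1 d2 n c) (hc' : Cls a b1 b2 r l d1 d2 n c') :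
    ((Pm r d1 d2 : ℕ) : ℤ) ∣ c - c' := by
  apply dvd_of_primes hsq
  intro p hp hpd
  have key : ∀ (m : ℕ) (s z : ℤ), p ∣ m → IsCoprime (m : ℤ) s → (m : ℤ) ∣ c * z - s →
      (m : ℤ) ∣ c' * z - s → (p : ℤ) ∣ c - c' := by
    intro m s z hpm hms e1 e2
    have hpm' : (p : ℤ) ∣ (m : ℤ) := by exact_mod_cast hpm
    have e3 : (p : ℤ) ∣ (c - c') * z := by
      have := dvd_sub (hpm'.trans e1) (hpm'.trans e2)
      have e : c * z - s - (c' * z - s) = (c - c') * z := by ring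
      rwa [e] at this
    have hpp : Prime (p : ℤ) := Nat.prime_iff_prime_int.mp hp
    rcases hpp.dvd_or_dvd e3 with h | h
    · exact h
    · exfalso
      have e4 : (p : ℤ) ∣ s := by
        have := dvd_sub (h.mul_left c) (hpm'.trans e1)
        have e : c * z - (c * z - s) = s := by ring
        rwa [e] at this
      exact hpp.not_isUnit (hms.isUnit_of_dvd' hpm' e4)
  unfold Pm at hpd
  rcases (hp.dvd_mul).mp hpd with h | h
  · exact key r a n h ha hc.1 hc'.1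
  · have h' : p ∣ d1 * d2 := h.trans (Nat.lcm_dvd_mul d1 d2)
    rcases (hp.dvd_mul).mp h' with h3 | h3
    · exact key d1 b1 n h3 h1 hc.2.1 hc'.2.1
    · exact key d2 b2 (n + l * r) h3 h2 hc.2.2 hc'.2.2

theorem cls_congr {a b1 b2 : ℤ} {r : ℕ} {l : ℤ} {d1 d2 : ℕ} {n c c' : ℤ}
    (hc : Cls a b1 b2 r l d1 d2 n c) (h : ((Pm r d1 d2 : ℕ) : ℤ) ∣ c' - c) :
    Cls a b1 b2 r l d1 d2 n c' := by
  have hr : (r : ℤ) ∣ c' - c := by
    refine dvd_trans ?_ h
    unfold Pm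
    push_cast
    exact dvd_mul_right _ _
  have h1 : (d1 : ℤ) ∣ c' - c := by
    refine dvd_trans ?_ h
    exact_mod_cast (Nat.dvd_lcm_left d1 d2).trans (Dvd.intro_left r rfl)
  have h2 : (d2 : ℤ) ∣ c' - c := by
    refine dvd_trans ?_ h
    exact_mod_cast (Nat.dvd_lcm_right d1 d2).trans (Dvd.intro_left r rfl)
  refine ⟨?_, ?_, ?_⟩
  · have := dvd_add (hr.mul_right n) hc.1
    have e : (c' - c) * n + (c * n - a) = c' * n - a := by ring
    rwa [e] at this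
  · have := dvd_add (h1.mul_right n) hc.2.1
    have e : (c' - c) * n + (c * n - b1) = c' * n - b1 := by ring
    rwa [e] at this
  · have := dvd_add (h2.mul_right (n + l * r)) hc.2.2
    have e : (c' - c) * (n + l * r) + (c * (n + l * r) - b2) = c' * (n + l * r) - b2 := by ring
    rwa [e] at this

open Classical in
theorem W_eq {a b1 b2 : ℤ} {r : ℕ} {l : ℤ} {d1 d2 : ℕ} {n c : ℤ}
    (hsq : Squarefree (Pm r d1 d2))
    (ha : IsCoprime (r : ℤ) a) (h1 : IsCoprime (d1 : ℤ) b1) (h2 : IsCoprime (d2 : ℤ) b2)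
    (hc : Cls a b1 b2 r l d1 d2 n c) (h : ℤ) :
    W a b1 b2 r l d1 d2 h n = eN (Pm r d1 d2) (h * c) := by
  have hP : 0 < Pm r d1 d2 := Nat.pos_of_ne_zero hsq.ne_zero
  have hPz : (0 : ℤ) < ((Pm r d1 d2 : ℕ) : ℤ) := by exact_mod_cast hP
  set c0 : ℕ := (c % ((Pm r d1 d2 : ℕ) : ℤ)).toNat with hc0
  have hmod : ((c0 : ℕ) : ℤ) = c % ((Pm r d1 d2 : ℕ) : ℤ) := by
    rw [hc0, Int.toNat_of_nonneg (Int.emod_nonneg _ hPz.ne')]
  have hdv : ((Pm r d1 d2 : ℕ) : ℤ) ∣ (c0 : ℤ) - c := by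
    rw [hmod]
    exact Int.ModEq.dvd (Int.mod_modEq c _).symm
  have hlt : c0 < Pm r d1 d2 := by
    have := Int.emod_lt_of_pos c hPz
    rw [← hmod] at this
    exact_mod_cast this
  unfold W
  rw [Finset.sum_eq_single c0]
  · rw [if_pos (cls_congr hc hdv)]
    apply eN_congr
    have := hdv.mul_left h
    have e : h * ((c0 : ℤ) - c) = h * (c0 : ℤ) - h * c := by ring
    rwa [e] at this
  · intro m hm hne
    rw [if_neg]
    intro hcm
    have hd := cls_unique hsq ha h1 h2 hcm (cls_congr hc hdv)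
    apply hne
    have hm' := Finset.mem_range.mp hm
    have hme : (m : ℤ) % ((Pm r d1 d2 : ℕ) : ℤ) = (c0 : ℤ) % ((Pm r d1 d2 : ℕ) : ℤ) :=
      Int.emod_eq_emod_iff_emod_sub_eq_zero.mpr (Int.emod_eq_zero_of_dvd hd)
    rw [Int.emod_eq_of_lt (by positivity) (by exact_mod_cast hm'),
      Int.emod_eq_of_lt (by positivity) (by exact_mod_cast hlt)] at hme
    exact_mod_cast hme
  · intro hn
    exact absurd (Finset.mem_range.mpr hlt) hn

open Classical in
theorem W_eq_zero {a b1 b2 : ℤ} {r : ℕ} {l : ℤ} {d1 d2 : ℕ} {n : ℤ}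
    (hn : ¬ ∃ c, Cls a b1 b2 r l d1 d2 n c) (h : ℤ) :
    W a b1 b2 r l d1 d2 h n = 0 := by
  unfold W
  apply Finset.sum_eq_zero
  intro c _
  rw [if_neg]
  intro hc
  exact hn ⟨_, hc⟩

theorem W_norm_le {a b1 b2 : ℤ} {r : ℕ} {l : ℤ} {d1 d2 : ℕ} {n : ℤ}
    (hsq : Squarefree (Pm r d1 d2))
    (ha : IsCoprime (r : ℤ) a) (h1 : IsCoprime (d1 : ℤ) b1) (h2 : IsCoprime (d2 : ℤ) b2)
    (h : ℤ) : ‖W a b1 b2 r l d1 d2 h n‖ ≤ 1 := by
  by_cases hn : ∃ c, Cls a b1 b2 r l d1 d2 n c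
  · obtain ⟨c, hc⟩ := hn
    rw [W_eq hsq ha h1 h2 hc, eN_norm]
  · rw [W_eq_zero hn, norm_zero]
    exact zero_le_one

open Classical in
theorem KL_eq {L : ℕ} (hL : 0 < L) {n m : ℤ} (h : (L : ℤ) ∣ m * n - 1) (c : ℤ) :
    KL L c n = eN L (c * m) := by
  have hPz : (0 : ℤ) < (L : ℤ) := by exact_mod_cast hL
  set c0 : ℕ := (m % (L : ℤ)).toNat with hc0
  have hmod : ((c0 : ℕ) : ℤ) = m % (L : ℤ) := by
    rw [hc0, Int.toNat_of_nonneg (Int.emod_nonneg _ hPz.ne')]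
  have hdv : (L : ℤ) ∣ (c0 : ℤ) - m := by
    rw [hmod]
    exact Int.ModEq.dvd (Int.mod_modEq m _).symm
  have hlt : c0 < L := by
    have := Int.emod_lt_of_pos m hPz
    rw [← hmod] at this
    exact_mod_cast this
  have hc0n : (L : ℤ) ∣ (c0 : ℤ) * n - 1 := by
    have := dvd_add (hdv.mul_right n) h
    have e : ((c0 : ℤ) - m) * n + (m * n - 1) = (c0 : ℤ) * n - 1 := by ring
    rwa [e] at this
  unfold KL
  rw [Finset.sum_eq_single c0]
  · rw [if_pos hc0n]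
    apply eN_congr
    have := hdv.mul_left c
    have e : c * ((c0 : ℤ) - m) = c * (c0 : ℤ) - c * m := by ring
    rwa [e] at this
  · intro j hj hne
    rw [if_neg]
    intro hjn
    apply hne
    have hj' := Finset.mem_range.mp hj
    have hd : (L : ℤ) ∣ (j : ℤ) - c0 := by
      have e1 : (L : ℤ) ∣ ((j : ℤ) - c0) * n := by
        have := dvd_sub hjn hc0n
        have e : (j : ℤ) * n - 1 - ((c0 : ℤ) * n - 1) = ((j : ℤ) - c0) * n := by ring
        rwa [e] at this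
      have e2 := dvd_sub (e1.mul_left m) ((h.mul_left ((j : ℤ) - c0)))
      have e : m * (((j : ℤ) - c0) * n) - ((j : ℤ) - c0) * (m * n - 1) = (j : ℤ) - c0 := by ring
      rwa [e] at e2
    have hme : (j : ℤ) % (L : ℤ) = (c0 : ℤ) % (L : ℤ) :=
      Int.emod_eq_emod_iff_emod_sub_eq_zero.mpr (Int.emod_eq_zero_of_dvd hd)
    rw [Int.emod_eq_of_lt (by positivity) (by exact_mod_cast hj'),
      Int.emod_eq_of_lt (by positivity) (by exact_mod_cast hlt)] at hme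
    exact_mod_cast hme
  · intro hn
    exact absurd (Finset.mem_range.mpr hlt) hn

open Classical in
theorem KL_eq_zero {L : ℕ} {n : ℤ} (h : ¬ ∃ m : ℤ, (L : ℤ) ∣ m * n - 1) (c : ℤ) :
    KL L c n = 0 := by
  unfold KL
  apply Finset.sum_eq_zero
  intro j _
  rw [if_neg]
  intro hj
  exact h ⟨_, hj⟩

theorem KL_norm_le {L : ℕ} (hL : 0 < L) (c n : ℤ) : ‖KL L c n‖ ≤ 1 := by
  by_cases h : ∃ m : ℤ, (L : ℤ) ∣ m * n - 1
  · obtain ⟨m, hm⟩ := h
    rw [KL_eq hL hm, eN_norm]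
  · rw [KL_eq_zero h, norm_zero]
    exact zero_le_one

end Pool.Agent.BCore
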