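import Pool.Agent.BCore.Basic

/-!
B-CORE module CNT: counting `n` and `l` with the condition modulo `g`.
Proof. If `g | c n - b1` and `g | c (n + l r) - b2` then (multiply the first by `n + l r`, the
second by `n`, subtract) `g | b2 n - b1 (n + l r)`, i.e. `g | (b2 - b1) n - b1 l r`. Let
`g' = gcd (b2 - b1, g)`: then `g' | b1 l r`, so `g' | l` (`b1`, `r` are prime to `g`); and for such
`l` the `n` lie in one class modulo `g / g'`, so there are at most `N g' / g + 1` of them. The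
number of `l` with `0 < |l| <= N / r`, `g' | l` is at most `2 N / (r g')`. Total
`2 (N/r) (N/g + 1) <= 4 N^2 / (r g)` since `g <= N`.
-/

namespace Pool.Agent.BCore

/-- The condition modulo `g`. -/
def Comp (b1 b2 : ℤ) (g r : ℕ) (l n : ℤ) : Prop :=
  ∃ c : ℤ, (g : ℤ) ∣ c * n - b1 ∧ (g : ℤ) ∣ c * (n + l * r) - b2

namespace Cnt

theorem comp_dvd {b1 b2 : ℤ} {g r : ℕ} {l n : ℤ} (h : Comp b1 b2 g r l n) :
    (g : ℤ) ∣ (b2 - b1) * n - b1 * (l * r) := by
  obtain ⟨c, hc1, hc2⟩ := h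
  have h1 := dvd_sub (Dvd.dvd.mul_left hc1 (n + l * r)) (Dvd.dvd.mul_left hc2 n)
  have h2 : (n + l * r) * (c * n - b1) - n * (c * (n + l * r) - b2) =
      (b2 - b1) * n - b1 * (l * r) := by ring
  rwa [h2] at h1

/-- The number of integers in `[1, N]` in one class modulo `k`. -/
theorem card_class {N k : ℕ} (hk : 1 ≤ k) (P : ℤ → Prop) [DecidablePred P]
    (hP : ∀ n n' : ℤ, P n → P n' → (k : ℤ) ∣ n - n') :
    (((Finset.Icc (1 : ℤ) N).filter P).card : ℝ) ≤ (N : ℝ) / k + 1 := by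
  have hk' : (0 : ℝ) < k := by exact_mod_cast hk
  have hkz : (0 : ℤ) < k := by exact_mod_cast hk
  have h1 : ((Finset.Icc (1 : ℤ) N).filter P).card ≤ N / k + 1 := by
    have h2 : ((Finset.Icc (1 : ℤ) N).filter P).card ≤ (Finset.range (N / k + 1)).card := by
      apply Finset.card_le_card_of_injOn (fun n => (n / (k : ℤ)).toNat)
      · intro n hn
        rw [Finset.mem_coe, Finset.mem_filter, Finset.mem_Icc] at hn
        rw [Finset.mem_coe, Finset.mem_range]
        have h3 : n / (k : ℤ) ≤ (N : ℤ) / k := Int.ediv_le_ediv hkz hn.1.2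
        have h4 : ((N / k : ℕ) : ℤ) = (N : ℤ) / k := by push_cast; rfl
        have h5 : 0 ≤ n / (k : ℤ) := Int.ediv_nonneg (by linarith [hn.1.1]) hkz.le
        change (n / (k : ℤ)).toNat < N / k + 1
        rw [← h4] at h3
        generalize n / (k : ℤ) = x at h3 h5 ⊢
        generalize N / k = y at h3 ⊢
        omega
      · intro n hn n' hn' heq
        rw [Finset.mem_coe, Finset.mem_filter, Finset.mem_Icc] at hn hn'
        have h5 : 0 ≤ n / (k : ℤ) := Int.ediv_nonneg (by linarith [hn.1.1]) hkz.le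
        have h5' : 0 ≤ n' / (k : ℤ) := Int.ediv_nonneg (by linarith [hn'.1.1]) hkz.le
        have heq' : n / (k : ℤ) = n' / (k : ℤ) := by
          have : (n / (k : ℤ)).toNat = (n' / (k : ℤ)).toNat := heq
          generalize n / (k : ℤ) = x at h5 this ⊢
          generalize n' / (k : ℤ) = y at h5' this ⊢
          omega
        have h6 : n % (k : ℤ) = n' % (k : ℤ) :=
          Int.ModEq.symm (Int.modEq_iff_dvd.2 (hP n n' hn.2 hn'.2))
        rw [← Int.mul_ediv_add_emod n k, ← Int.mul_ediv_add_emod n' k, heq', h6]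
    rwa [Finset.card_range] at h2
  have h2 : (((N / k : ℕ)) : ℝ) ≤ (N : ℝ) / k := Nat.cast_div_le
  have h3 : ((((Finset.Icc (1 : ℤ) N).filter P).card : ℕ) : ℝ) ≤ ((N / k + 1 : ℕ) : ℝ) := by
    exact_mod_cast h1
  push_cast at h3
  push_cast at h2
  linarith

/-- The number of `l` in the range divisible by `e`. -/
theorem card_l {N r e : ℕ} (he : 1 ≤ e) (hr : 1 ≤ r) :
    (((Lr N r).filter (fun l => (e : ℤ) ∣ l)).card : ℝ) ≤ 2 * (N : ℝ) / (r * e) := by
  have he' : (0 : ℝ) < e := by exact_mod_cast he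
  have hr' : (0 : ℝ) < r := by exact_mod_cast hr
  have hez : (0 : ℤ) < e := by exact_mod_cast he
  have h1 : ((Lr N r).filter (fun l => (e : ℤ) ∣ l)).card ≤ 2 * (N / (r * e)) := by
    have h2 : ((Lr N r).filter (fun l => (e : ℤ) ∣ l)).card ≤
        ((Finset.Icc (-((N / (r * e) : ℕ) : ℤ)) ((N / (r * e) : ℕ) : ℤ)).erase 0).card := by
      apply Finset.card_le_card_of_injOn (fun l => l / (e : ℤ))
      · intro l hl
        rw [Finset.mem_coe, Finset.mem_filter, Lr, Finset.mem_filter] at hl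
        obtain ⟨⟨_, hl0, hle⟩, t, ht⟩ := hl
        have hdiv : l / (e : ℤ) = t := by
          rw [ht]
          exact Int.mul_ediv_cancel_left t hez.ne'
        rw [Finset.mem_coe]
        change l / (e : ℤ) ∈ _
        rw [hdiv, Finset.mem_erase, Finset.mem_Icc, ← abs_le]
        refine ⟨?_, ?_⟩
        · rintro rfl
          rw [mul_zero] at ht
          exact hl0 ht
        · have h3 : t.natAbs * (r * e) ≤ N := by
            have h4 : ((t.natAbs * (r * e) : ℕ) : ℤ) ≤ (N : ℤ) := by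
              push_cast
              calc |t| * (r * e) = |l| * r := by
                    rw [ht, abs_mul, abs_of_pos hez]
                    ring
                _ ≤ N := hle
            exact_mod_cast h4
          have h5 : t.natAbs ≤ N / (r * e) :=
            (Nat.le_div_iff_mul_le (Nat.mul_pos (by omega) (by omega))).2 h3
          rw [Int.abs_eq_natAbs]
          exact_mod_cast h5
      · intro l hl l' hl' heq
        rw [Finset.mem_coe, Finset.mem_filter] at hl hl'
        have heq' : l / (e : ℤ) = l' / (e : ℤ) := heq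
        rw [← Int.ediv_mul_cancel hl.2, ← Int.ediv_mul_cancel hl'.2, heq']
    refine h2.trans ?_
    generalize N / (r * e) = k
    have hk : (0 : ℤ) ≤ (k : ℤ) := Int.natCast_nonneg _
    have hm : (0 : ℤ) ∈ Finset.Icc (-(k : ℤ)) (k : ℤ) := by
      rw [Finset.mem_Icc]
      constructor <;> omega
    rw [Finset.card_erase_of_mem hm, Int.card_Icc]
    omega
  have h2 : (((N / (r * e) : ℕ)) : ℝ) ≤ (N : ℝ) / ((r * e : ℕ) : ℝ) := Nat.cast_div_le
  rw [Nat.cast_mul] at h2
  calc (((Lr N r).filter (fun l => (e : ℤ) ∣ l)).card : ℝ) ≤ ((2 * (N / (r * e)) : ℕ) : ℝ) := by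
        exact_mod_cast h1
    _ = 2 * ((N / (r * e) : ℕ) : ℝ) := by push_cast; ring
    _ ≤ 2 * ((N : ℝ) / (r * e)) := by linarith
    _ = 2 * (N : ℝ) / (r * e) := by ring

end Cnt

open Classical in
theorem cnt {b1 b2 : ℤ} {g r N : ℕ} (hg : 1 ≤ g) (hr : 1 ≤ r) (hgN : g ≤ N)
    (h1 : IsCoprime (g : ℤ) b1) (h2 : IsCoprime (g : ℤ) b2) (hrg : Nat.Coprime r g) :
    (∑ l ∈ Lr N r, (((Finset.Icc (1 : ℤ) N).filter (fun n => Comp b1 b2 g r l n)).card : ℝ)) ≤
      4 * (N : ℝ) ^ 2 / (r * g) := by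
  set e : ℕ := Int.gcd (b2 - b1) g with he
  have hgz : (g : ℤ) ≠ 0 := by exact_mod_cast (by omega : g ≠ 0)
  have he0 : 0 < e := Int.gcd_pos_of_ne_zero_right _ hgz
  have heg : e ∣ g := by
    have := Int.gcd_dvd_right (b2 - b1) (g : ℤ)
    rw [← he] at this
    exact_mod_cast this
  obtain ⟨k, hk⟩ := heg
  have hk0 : 0 < k := by
    rcases Nat.eq_zero_or_pos k with h | h
    · subst h
      omega
    · exact h
  have hegz : (e : ℤ) ∣ (g : ℤ) := by
    rw [hk]
    push_cast
    exact Dvd.intro _ rfl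
  have hebz : (e : ℤ) ∣ b2 - b1 := by
    rw [he]
    exact Int.gcd_dvd_left _ _
  -- the two consequences of `Comp`
  have hl : ∀ l n : ℤ, Comp b1 b2 g r l n → (e : ℤ) ∣ l := by
    intro l n hc
    have h3 := hegz.trans (Cnt.comp_dvd hc)
    have h4 : (e : ℤ) ∣ b1 * (l * r) := by
      have h5 := dvd_sub (Dvd.dvd.mul_right hebz n) h3
      have h6 : (b2 - b1) * n - ((b2 - b1) * n - b1 * (l * r)) = b1 * (l * r) := by ring
      rwa [h6] at h5
    have h5 : IsCoprime (e : ℤ) b1 := IsCoprime.of_isCoprime_of_dvd_left h1 hegz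
    have h6 : (e : ℤ) ∣ l * r := h5.dvd_of_dvd_mul_left h4
    have h7 : IsCoprime (e : ℤ) (r : ℤ) := by
      have : IsCoprime (g : ℤ) (r : ℤ) := Nat.isCoprime_iff_coprime.2 hrg.symm
      exact IsCoprime.of_isCoprime_of_dvd_left this hegz
    exact h7.dvd_of_dvd_mul_right h6
  have hn : ∀ l n n' : ℤ, Comp b1 b2 g r l n → Comp b1 b2 g r l n' → (k : ℤ) ∣ n - n' := by
    intro l n n' hc hc'
    have h3 := dvd_sub (Cnt.comp_dvd hc) (Cnt.comp_dvd hc')
    have h4 : (b2 - b1) * n - b1 * (l * r) - ((b2 - b1) * n' - b1 * (l * r)) =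
        (b2 - b1) * (n - n') := by ring
    rw [h4] at h3
    obtain ⟨m, hm⟩ := hebz
    have hez : (e : ℤ) ≠ 0 := by exact_mod_cast he0.ne'
    have h5 : (k : ℤ) ∣ m * (n - n') := by
      rw [hk, hm] at h3
      push_cast at h3
      rw [mul_assoc] at h3
      exact (mul_dvd_mul_iff_left hez).1 h3
    have h6 : IsCoprime (k : ℤ) m := by
      have h7 : Int.gcd (b2 - b1) (g : ℤ) = e * Int.gcd m k := by
        rw [hm, hk]
        push_cast
        rw [Int.gcd_mul_left, Int.natAbs_natCast]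
      rw [← he] at h7
      have h8 : Int.gcd m k = 1 := by
        have := Nat.eq_of_mul_eq_mul_left he0 ((mul_one e).trans h7)
        exact this.symm
      exact (Int.isCoprime_iff_gcd_eq_one.2 h8).symm
    exact h6.dvd_of_dvd_mul_left h5
  have hN0 : (0 : ℝ) ≤ N := Nat.cast_nonneg _
  have he' : (0 : ℝ) < e := by exact_mod_cast he0
  have hk' : (0 : ℝ) < k := by exact_mod_cast hk0
  have hr' : (0 : ℝ) < r := by exact_mod_cast hr
  have hterm : ∀ l ∈ Lr N r,
      (((Finset.Icc (1 : ℤ) N).filter (fun n => Comp b1 b2 g r l n)).card : ℝ) ≤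
        if (e : ℤ) ∣ l then (N : ℝ) / k + 1 else 0 := by
    intro l _
    split_ifs with hdvd
    · exact Cnt.card_class hk0 _ (fun n n' hc hc' => hn l n n' hc hc')
    · have : (Finset.Icc (1 : ℤ) N).filter (fun n => Comp b1 b2 g r l n) = ∅ := by
        rw [Finset.filter_eq_empty_iff]
        intro n _ hc
        exact hdvd (hl l n hc)
      rw [this]
      simp
  refine (Finset.sum_le_sum hterm).trans ?_
  rw [← Finset.sum_filter, Finset.sum_const, nsmul_eq_mul]
  have hcl := Cnt.card_l (N := N) (r := r) (e := e) he0 hr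
  have hNk : (0 : ℝ) ≤ (N : ℝ) / k + 1 := by positivity
  have hgr : (g : ℝ) = (e : ℝ) * k := by
    rw [hk]
    push_cast
    rfl
  have hgN' : (e : ℝ) * k ≤ N := by
    rw [← hgr]
    exact_mod_cast hgN
  have hkN : (k : ℝ) ≤ N := by
    have : (1 : ℝ) ≤ e := by exact_mod_cast he0
    nlinarith
  calc (((Lr N r).filter (fun l => (e : ℤ) ∣ l)).card : ℝ) * ((N : ℝ) / k + 1)
      ≤ (2 * (N : ℝ) / (r * e)) * ((N : ℝ) / k + 1) := mul_le_mul_of_nonneg_right hcl hNk
    _ ≤ (2 * (N : ℝ) / (r * e)) * (2 * (N : ℝ) / k) := by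
        apply mul_le_mul_of_nonneg_left _ (by positivity)
        have : (1 : ℝ) ≤ (N : ℝ) / k := (one_le_div hk').2 hkN
        have h3 : 2 * (N : ℝ) / k = (N : ℝ) / k + (N : ℝ) / k := by ring
        rw [h3]
        linarith
    _ = 4 * (N : ℝ) ^ 2 / (r * g) := by
        rw [hgr]
        field_simp
        ring

/-- `W` vanishes unless the condition modulo the gcd holds. -/
theorem comp_of_W {a b1 b2 : ℤ} {r d1 d2 g : ℕ} {l h n : ℤ} (hg : Nat.gcd d1 d2 = g)
    (hW : W a b1 b2 r l d1 d2 h n ≠ 0) : Comp b1 b2 g r l n := by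
  classical
  rw [W] at hW
  obtain ⟨c, _, hc⟩ := Finset.exists_ne_zero_of_sum_ne_zero hW
  have hcls : Cls a b1 b2 r l d1 d2 n c := by
    by_contra hno
    exact hc (if_neg hno)
  obtain ⟨_, hd1, hd2⟩ := hcls
  have hg1 : (g : ℤ) ∣ (d1 : ℤ) := by
    rw [← hg]
    exact_mod_cast Nat.gcd_dvd_left d1 d2
  have hg2 : (g : ℤ) ∣ (d2 : ℤ) := by
    rw [← hg]
    exact_mod_cast Nat.gcd_dvd_right d1 d2
  exact ⟨c, hg1.trans hd1, hg2.trans hd2⟩

end Pool.Agent.BCore
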