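import Pool.Agent.BCore.Basic

/-!
B-CORE module CS: the abstract second Cauchy step.
-/

namespace Pool.Agent.BCore

theorem CS_sq {I : Type*} (sI : Finset I) (sN : Finset ℤ) (y : I → ℤ → ℂ) :
    ∑ n ∈ sN, ‖∑ i ∈ sI, y i n‖ ^ 2 ≤
      ∑ i ∈ sI, ∑ j ∈ sI, ‖∑ n ∈ sN, y i n * (starRingEnd ℂ) (y j n)‖ := by
  have h1 : ((∑ n ∈ sN, ‖∑ i ∈ sI, y i n‖ ^ 2 : ℝ) : ℂ) =
      ∑ i ∈ sI, ∑ j ∈ sI, ∑ n ∈ sN, y i n * (starRingEnd ℂ) (y j n) := by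
    push_cast
    have h2 : ∀ n ∈ sN, ((‖∑ i ∈ sI, y i n‖ : ℝ) : ℂ) ^ 2 =
        ∑ i ∈ sI, ∑ j ∈ sI, y i n * (starRingEnd ℂ) (y j n) := by
      intro n _
      rw [← Complex.mul_conj', map_sum, Finset.sum_mul_sum]
    rw [Finset.sum_congr rfl h2, Finset.sum_comm]
    refine Finset.sum_congr rfl (fun i _ => ?_)
    rw [Finset.sum_comm]
  have h3 : 0 ≤ ∑ n ∈ sN, ‖∑ i ∈ sI, y i n‖ ^ 2 := Finset.sum_nonneg (fun n _ => sq_nonneg _)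
  calc ∑ n ∈ sN, ‖∑ i ∈ sI, y i n‖ ^ 2
      = ‖((∑ n ∈ sN, ‖∑ i ∈ sI, y i n‖ ^ 2 : ℝ) : ℂ)‖ := by
        rw [Complex.norm_real, Real.norm_of_nonneg h3]
    _ = ‖∑ i ∈ sI, ∑ j ∈ sI, ∑ n ∈ sN, y i n * (starRingEnd ℂ) (y j n)‖ := by rw [h1]
    _ ≤ ∑ i ∈ sI, ‖∑ j ∈ sI, ∑ n ∈ sN, y i n * (starRingEnd ℂ) (y j n)‖ := norm_sum_le _ _
    _ ≤ ∑ i ∈ sI, ∑ j ∈ sI, ‖∑ n ∈ sN, y i n * (starRingEnd ℂ) (y j n)‖ :=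
        Finset.sum_le_sum (fun i _ => norm_sum_le _ _)

/-- `z o n` bounded by 1, `y o i n` supported where `ind o n = 1`. -/
theorem cs_abs {O I : Type*} (sO : Finset O) (sI : Finset I) (sN : Finset ℤ)
    (z : O → ℤ → ℂ) (ind : O → ℤ → ℝ) (y : O → I → ℤ → ℂ)
    (hz : ∀ o ∈ sO, ∀ n ∈ sN, ‖z o n‖ ≤ 1) (hi : ∀ o n, ind o n = 0 ∨ ind o n = 1)
    (hy : ∀ o ∈ sO, ∀ i ∈ sI, ∀ n ∈ sN, y o i n ≠ 0 → ind o n = 1) :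
    ‖∑ o ∈ sO, ∑ i ∈ sI, ∑ n ∈ sN, z o n * y o i n‖ ^ 2 ≤
      (∑ o ∈ sO, ∑ n ∈ sN, ind o n) *
        ∑ o ∈ sO, ∑ i ∈ sI, ∑ j ∈ sI, ‖∑ n ∈ sN, y o i n * (starRingEnd ℂ) (y o j n)‖ := by
  have hind0 : ∀ o n, 0 ≤ ind o n := by
    intro o n
    rcases hi o n with h | h <;> rw [h]
    exact zero_le_one
  have h1 : ‖∑ o ∈ sO, ∑ i ∈ sI, ∑ n ∈ sN, z o n * y o i n‖ ≤
      ∑ o ∈ sO, ∑ n ∈ sN, ind o n * ‖∑ i ∈ sI, y o i n‖ := by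
    refine (norm_sum_le _ _).trans (Finset.sum_le_sum (fun o ho => ?_))
    rw [Finset.sum_comm]
    refine (norm_sum_le _ _).trans (Finset.sum_le_sum (fun n hn => ?_))
    rw [← Finset.mul_sum, norm_mul]
    rcases hi o n with h | h
    · have h2 : ∑ i ∈ sI, y o i n = 0 := by
        apply Finset.sum_eq_zero
        intro i hi'
        by_contra hne
        have := hy o ho i hi' n hn hne
        rw [h] at this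
        exact zero_ne_one this
      rw [h2, norm_zero, mul_zero, mul_zero]
    · rw [h, one_mul]
      exact mul_le_of_le_one_left (norm_nonneg _) (hz o ho n hn)
  have h2 : (∑ o ∈ sO, ∑ n ∈ sN, ind o n * ‖∑ i ∈ sI, y o i n‖) ^ 2 ≤
      (∑ o ∈ sO, ∑ n ∈ sN, ind o n ^ 2) * (∑ o ∈ sO, ∑ n ∈ sN, ‖∑ i ∈ sI, y o i n‖ ^ 2) := by
    have := Finset.sum_mul_sq_le_sq_mul_sq (sO ×ˢ sN) (fun p => ind p.1 p.2)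
      (fun p => ‖∑ i ∈ sI, y p.1 i p.2‖)
    simpa only [Finset.sum_product] using this
  have h3 : ∑ o ∈ sO, ∑ n ∈ sN, ind o n ^ 2 = ∑ o ∈ sO, ∑ n ∈ sN, ind o n := by
    refine Finset.sum_congr rfl (fun o _ => Finset.sum_congr rfl (fun n _ => ?_))
    rcases hi o n with h | h <;> rw [h] <;> norm_num
  have h4 : ∑ o ∈ sO, ∑ n ∈ sN, ‖∑ i ∈ sI, y o i n‖ ^ 2 ≤
      ∑ o ∈ sO, ∑ i ∈ sI, ∑ j ∈ sI, ‖∑ n ∈ sN, y o i n * (starRingEnd ℂ) (y o j n)‖ :=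
    Finset.sum_le_sum (fun o _ => CS_sq sI sN (y o))
  calc ‖∑ o ∈ sO, ∑ i ∈ sI, ∑ n ∈ sN, z o n * y o i n‖ ^ 2
      ≤ (∑ o ∈ sO, ∑ n ∈ sN, ind o n * ‖∑ i ∈ sI, y o i n‖) ^ 2 :=
        pow_le_pow_left₀ (norm_nonneg _) h1 2
    _ ≤ (∑ o ∈ sO, ∑ n ∈ sN, ind o n ^ 2) * (∑ o ∈ sO, ∑ n ∈ sN, ‖∑ i ∈ sI, y o i n‖ ^ 2) := h2
    _ = (∑ o ∈ sO, ∑ n ∈ sN, ind o n) * (∑ o ∈ sO, ∑ n ∈ sN, ‖∑ i ∈ sI, y o i n‖ ^ 2) := by rw [h3]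
    _ ≤ _ := mul_le_mul_of_nonneg_left h4
        (Finset.sum_nonneg (fun o _ => Finset.sum_nonneg (fun n _ => hind0 o n)))

end Pool.Agent.BCore
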