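import Mathlib

/-!
B-CORE (MP_3509fd_nt): definitions.
Everything is stated with explicit finite sums and divisibility, no inverses modulo anything.
-/

namespace Pool.Agent.BCore

/-- `eN P X = exp (2 pi i X / P)`. -/
noncomputable def eN (P : ℕ) (X : ℤ) : ℂ :=
  Complex.exp (2 * Real.pi * Complex.I * ((X : ℂ) / (P : ℂ)))

/-- The modulus of a pair `d1, d2` together with `r`. -/
def Pm (r d1 d2 : ℕ) : ℕ := r * Nat.lcm d1 d2

/-- `c` is the class attached to `n` (modulo `Pm r d1 d2`). -/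
def Cls (a b1 b2 : ℤ) (r : ℕ) (l : ℤ) (d1 d2 : ℕ) (n c : ℤ) : Prop :=
  (r : ℤ) ∣ c * n - a ∧ (d1 : ℤ) ∣ c * n - b1 ∧ (d2 : ℤ) ∣ c * (n + l * r) - b2

open Classical in
/-- The phase function: `e(h c / P)` for the (unique) class `c` modulo `P` with
`c n = a (r)`, `c n = b1 (d1)`, `c (n + l r) = b2 (d2)`, and `0` if there is none. -/
noncomputable def W (a b1 b2 : ℤ) (r : ℕ) (l : ℤ) (d1 d2 : ℕ) (h n : ℤ) : ℂ :=
  ∑ c ∈ Finset.range (Pm r d1 d2),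
    if Cls a b1 b2 r l d1 d2 n c then eN (Pm r d1 d2) (h * c) else 0

open Classical in
/-- The Kloosterman phase: `e(c m / L)` for the inverse `m` of `n` modulo `L`, and `0` if there
is none. -/
noncomputable def KL (L : ℕ) (c n : ℤ) : ℂ :=
  ∑ m ∈ Finset.range L, if (L : ℤ) ∣ (m : ℤ) * n - 1 then eN L (c * m) else 0

/-- Number of divisors. -/
def tau (n : ℕ) : ℕ := n.divisors.card

/-- The pairs (r, l, u1, v1, u2, v2) that occur: `r` is prime to `a`, the `u_i v_i` are prime to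
`b1` and `b2`, and `r u_i v_i` is squarefree. -/
def Good (a b1 b2 : ℤ) (r u1 v1 u2 v2 : ℕ) : Prop :=
  Squarefree (r * (u1 * v1)) ∧ Squarefree (r * (u2 * v2)) ∧
    IsCoprime (r : ℤ) a ∧ IsCoprime ((u1 * v1 : ℕ) : ℤ) b1 ∧ IsCoprime ((u1 * v1 : ℕ) : ℤ) b2 ∧
    IsCoprime ((u2 * v2 : ℕ) : ℤ) b1 ∧ IsCoprime ((u2 * v2 : ℕ) : ℤ) b2

/-- The sum over `n`: `beta(n) conj(beta(n + l r)) W_h(n)`, for `1 <= n <= N`. -/
noncomputable def SN (N : ℕ) (β : ℤ → ℂ) (a b1 b2 : ℤ) (r : ℕ) (l : ℤ) (d1 d2 : ℕ) (h : ℤ) : ℂ :=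
  ∑ n ∈ Finset.Icc (1 : ℤ) N, β n * (starRingEnd ℂ) (β (n + l * r)) * W a b1 b2 r l d1 d2 h n

/-- The range of `l`: `0 < |l| r <= N`. -/
noncomputable def Lr (N r : ℕ) : Finset ℤ := (Finset.Icc (-(N : ℤ)) N).filter (fun l => l ≠ 0 ∧ |l| * r ≤ N)

/-- The range of `h`: `0 < |h| g <= H`. -/
noncomputable def Hr (H g : ℕ) : Finset ℤ := (Finset.Icc (-(H : ℤ)) H).filter (fun h => h ≠ 0 ∧ |h| * g ≤ H)

/-- The sum bounded by B-CORE, with arbitrary weights `w` of modulus at most 1. -/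
noncomputable def Tot (N R U V H : ℕ) (β : ℤ → ℂ) (a b1 b2 : ℤ)
    (w : ℕ → ℤ → ℕ → ℕ → ℕ → ℕ → ℤ → ℂ) : ℂ :=
  ∑ r ∈ Finset.Ioc R (2 * R), ∑ l ∈ Lr N r,
    ∑ u1 ∈ Finset.Icc U (2 * U), ∑ v1 ∈ Finset.Ioc V (2 * V),
    ∑ u2 ∈ Finset.Icc U (2 * U), ∑ v2 ∈ Finset.Ioc V (2 * V),
    ∑ h ∈ Hr H (Nat.gcd (u1 * v1) (u2 * v2)),
      w r l u1 v1 u2 v2 h * ((Nat.gcd (u1 * v1) (u2 * v2) : ℕ) : ℂ) *
        SN N β a b1 b2 r l (u1 * v1) (u2 * v2) h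

end Pool.Agent.BCore
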