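import Pool.Agent.BCore.Basic

/-!
B-CORE module GAVG: averages of gcds and the diagonal count.
Proof of gavg. `gcd (D, u/e) <= sum of the d | D with d | u / e` (or: gcd = one of them); the
`u` in `(U, 2U]` with `e d | u` number at most `U / (e d) + 1` and there are none unless
`e d <= 2 U`, so at most `3 U / (e d)`; sum over the `tau D` divisors d of D of `d * 3 U / (e d)`.
-/

namespace Pool.Agent.BCore

/-- The number of multiples of `e` in `(U, 2U]`. -/
theorem card_mult {U e : ℕ} (he : 1 ≤ e) :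
    (((Finset.Ioc U (2 * U)).filter (fun u => e ∣ u)).card : ℝ) ≤ 3 * (U : ℝ) / e := by
  have h1 : ((Finset.Ioc U (2 * U)).filter (fun u => e ∣ u)).card ≤ 2 * U / e := by
    rw [← Nat.Ioc_filter_dvd_card_eq_div]
    apply Finset.card_le_card
    intro u hu
    rw [Finset.mem_filter, Finset.mem_Ioc] at hu ⊢
    exact ⟨⟨by omega, hu.1.2⟩, hu.2⟩
  have h2 : (((2 * U / e : ℕ)) : ℝ) ≤ ((2 * U : ℕ) : ℝ) / e := Nat.cast_div_le
  have he' : (0 : ℝ) < e := by exact_mod_cast he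
  have h3 : ((2 * U : ℕ) : ℝ) / e ≤ 3 * (U : ℝ) / e := by
    apply div_le_div_of_nonneg_right _ he'.le
    push_cast
    have : (0 : ℝ) ≤ U := Nat.cast_nonneg _
    linarith
  have h4 : ((((Finset.Ioc U (2 * U)).filter (fun u => e ∣ u)).card : ℕ) : ℝ) ≤
      ((2 * U / e : ℕ) : ℝ) := by exact_mod_cast h1
  exact h4.trans (h2.trans h3)

theorem gavg {D : ℤ} (hD : D ≠ 0) {U e : ℕ} (he : 1 ≤ e) :
    (∑ u ∈ (Finset.Ioc U (2 * U)).filter (fun u => e ∣ u), (Int.gcd D ((u / e : ℕ) : ℤ) : ℝ)) ≤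
      3 * (U : ℝ) / e * tau D.natAbs := by
  have hD' : D.natAbs ≠ 0 := Int.natAbs_ne_zero.2 hD
  have he' : (0 : ℝ) < e := by exact_mod_cast he
  have h1 : ∀ u ∈ (Finset.Ioc U (2 * U)).filter (fun u => e ∣ u),
      (Int.gcd D ((u / e : ℕ) : ℤ) : ℝ) ≤
        ∑ d ∈ D.natAbs.divisors, if e * d ∣ u then (d : ℝ) else 0 := by
    intro u hu
    rw [Finset.mem_filter] at hu
    obtain ⟨k, hk⟩ := hu.2
    have hdiv : u / e = k := by
      rw [hk]
      exact Nat.mul_div_cancel_left k (by omega)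
    rw [hdiv]
    have hg : Int.gcd D (k : ℤ) = Nat.gcd D.natAbs k := by
      rw [Int.gcd_def, Int.natAbs_natCast]
    rw [hg]
    have hmem : Nat.gcd D.natAbs k ∈ D.natAbs.divisors := by
      rw [Nat.mem_divisors]
      exact ⟨Nat.gcd_dvd_left _ _, hD'⟩
    have h2 : ((Nat.gcd D.natAbs k : ℕ) : ℝ) =
        if e * Nat.gcd D.natAbs k ∣ u then ((Nat.gcd D.natAbs k : ℕ) : ℝ) else 0 := by
      rw [if_pos]
      rw [hk]
      exact Nat.mul_dvd_mul_left e (Nat.gcd_dvd_right _ _)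
    rw [h2]
    exact Finset.single_le_sum (f := fun d : ℕ => if e * d ∣ u then (d : ℝ) else 0)
      (fun d _ => by split_ifs <;> positivity) hmem
  refine (Finset.sum_le_sum h1).trans ?_
  rw [Finset.sum_comm]
  have h2 : ∀ d ∈ D.natAbs.divisors,
      (∑ u ∈ (Finset.Ioc U (2 * U)).filter (fun u => e ∣ u), if e * d ∣ u then (d : ℝ) else 0) ≤
        3 * (U : ℝ) / e := by
    intro d hd
    have hd0 : 0 < d := Nat.pos_of_mem_divisors hd
    have hd0' : (0 : ℝ) < d := by exact_mod_cast hd0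
    rw [← Finset.sum_filter, Finset.sum_const, nsmul_eq_mul, Finset.filter_filter]
    have h3 : (((Finset.Ioc U (2 * U)).filter (fun u => e ∣ u ∧ e * d ∣ u)).card : ℝ) ≤
        (((Finset.Ioc U (2 * U)).filter (fun u => e * d ∣ u)).card : ℝ) := by
      have : ((Finset.Ioc U (2 * U)).filter (fun u => e ∣ u ∧ e * d ∣ u)).card ≤
          ((Finset.Ioc U (2 * U)).filter (fun u => e * d ∣ u)).card := by
        apply Finset.card_le_card
        intro u hu
        rw [Finset.mem_filter] at hu ⊢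
        exact ⟨hu.1, hu.2.2⟩
      exact_mod_cast this
    have h4 := card_mult (U := U) (e := e * d) (Nat.mul_pos he hd0)
    calc (((Finset.Ioc U (2 * U)).filter (fun u => e ∣ u ∧ e * d ∣ u)).card : ℝ) * d
        ≤ (3 * (U : ℝ) / ((e * d : ℕ) : ℝ)) * d :=
          mul_le_mul_of_nonneg_right (h3.trans h4) hd0'.le
      _ = 3 * (U : ℝ) / e := by
          push_cast
          field_simp
  refine (Finset.sum_le_sum h2).trans ?_
  rw [Finset.sum_const, nsmul_eq_mul, mul_comm]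
  rfl

/-- The number of multiples of `e` in `[U, 2U]`. -/
theorem card_multI {U e : ℕ} (hU : 1 ≤ U) (he : 1 ≤ e) :
    (((Finset.Icc U (2 * U)).filter (fun u => e ∣ u)).card : ℝ) ≤ 3 * (U : ℝ) / e := by
  have h1 : ((Finset.Icc U (2 * U)).filter (fun u => e ∣ u)).card ≤ 2 * U / e := by
    rw [← Nat.Ioc_filter_dvd_card_eq_div]
    apply Finset.card_le_card
    intro u hu
    rw [Finset.mem_filter, Finset.mem_Icc] at hu
    rw [Finset.mem_filter, Finset.mem_Ioc]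
    exact ⟨⟨by omega, hu.1.2⟩, hu.2⟩
  have h2 : (((2 * U / e : ℕ)) : ℝ) ≤ ((2 * U : ℕ) : ℝ) / e := Nat.cast_div_le
  have he' : (0 : ℝ) < e := by exact_mod_cast he
  have h3 : ((2 * U : ℕ) : ℝ) / e ≤ 3 * (U : ℝ) / e := by
    apply div_le_div_of_nonneg_right _ he'.le
    push_cast
    have : (0 : ℝ) ≤ U := Nat.cast_nonneg _
    linarith
  have h4 : ((((Finset.Icc U (2 * U)).filter (fun u => e ∣ u)).card : ℕ) : ℝ) ≤
      ((2 * U / e : ℕ) : ℝ) := by exact_mod_cast h1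
  exact h4.trans (h2.trans h3)

theorem gavgI {D : ℤ} (hD : D ≠ 0) {U e : ℕ} (hU : 1 ≤ U) (he : 1 ≤ e) :
    (∑ u ∈ (Finset.Icc U (2 * U)).filter (fun u => e ∣ u), (Int.gcd D ((u / e : ℕ) : ℤ) : ℝ)) ≤
      3 * (U : ℝ) / e * tau D.natAbs := by
  have hD' : D.natAbs ≠ 0 := Int.natAbs_ne_zero.2 hD
  have he' : (0 : ℝ) < e := by exact_mod_cast he
  have h1 : ∀ u ∈ (Finset.Icc U (2 * U)).filter (fun u => e ∣ u),
      (Int.gcd D ((u / e : ℕ) : ℤ) : ℝ) ≤
        ∑ d ∈ D.natAbs.divisors, if e * d ∣ u then (d : ℝ) else 0 := by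
    intro u hu
    rw [Finset.mem_filter] at hu
    obtain ⟨k, hk⟩ := hu.2
    have hdiv : u / e = k := by
      rw [hk]
      exact Nat.mul_div_cancel_left k (by omega)
    rw [hdiv]
    have hg : Int.gcd D (k : ℤ) = Nat.gcd D.natAbs k := by
      rw [Int.gcd_def, Int.natAbs_natCast]
    rw [hg]
    have hmem : Nat.gcd D.natAbs k ∈ D.natAbs.divisors := by
      rw [Nat.mem_divisors]
      exact ⟨Nat.gcd_dvd_left _ _, hD'⟩
    have h2 : ((Nat.gcd D.natAbs k : ℕ) : ℝ) =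
        if e * Nat.gcd D.natAbs k ∣ u then ((Nat.gcd D.natAbs k : ℕ) : ℝ) else 0 := by
      rw [if_pos]
      rw [hk]
      exact Nat.mul_dvd_mul_left e (Nat.gcd_dvd_right _ _)
    rw [h2]
    exact Finset.single_le_sum (f := fun d : ℕ => if e * d ∣ u then (d : ℝ) else 0)
      (fun d _ => by split_ifs <;> positivity) hmem
  refine (Finset.sum_le_sum h1).trans ?_
  rw [Finset.sum_comm]
  have h2 : ∀ d ∈ D.natAbs.divisors,
      (∑ u ∈ (Finset.Icc U (2 * U)).filter (fun u => e ∣ u), if e * d ∣ u then (d : ℝ) else 0) ≤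
        3 * (U : ℝ) / e := by
    intro d hd
    have hd0 : 0 < d := Nat.pos_of_mem_divisors hd
    have hd0' : (0 : ℝ) < d := by exact_mod_cast hd0
    rw [← Finset.sum_filter, Finset.sum_const, nsmul_eq_mul, Finset.filter_filter]
    have h3 : (((Finset.Icc U (2 * U)).filter (fun u => e ∣ u ∧ e * d ∣ u)).card : ℝ) ≤
        (((Finset.Icc U (2 * U)).filter (fun u => e * d ∣ u)).card : ℝ) := by
      have : ((Finset.Icc U (2 * U)).filter (fun u => e ∣ u ∧ e * d ∣ u)).card ≤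
          ((Finset.Icc U (2 * U)).filter (fun u => e * d ∣ u)).card := by
        apply Finset.card_le_card
        intro u hu
        rw [Finset.mem_filter] at hu ⊢
        exact ⟨hu.1, hu.2.2⟩
      exact_mod_cast this
    have h4 := card_multI (U := U) (e := e * d) hU (Nat.mul_pos he hd0)
    calc (((Finset.Icc U (2 * U)).filter (fun u => e ∣ u ∧ e * d ∣ u)).card : ℝ) * d
        ≤ (3 * (U : ℝ) / ((e * d : ℕ) : ℝ)) * d :=
          mul_le_mul_of_nonneg_right (h3.trans h4) hd0'.le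
      _ = 3 * (U : ℝ) / e := by
          push_cast
          field_simp
  refine (Finset.sum_le_sum h2).trans ?_
  rw [Finset.sum_const, nsmul_eq_mul, mul_comm]
  rfl

/-- The number of `h`. -/
theorem card_Hr {H g : ℕ} (hg : 1 ≤ g) : ((Hr H g).card : ℝ) ≤ 2 * (H : ℝ) / g := by
  have hg' : (0 : ℝ) < g := by exact_mod_cast hg
  have h1 : (Hr H g).card ≤ 2 * (H / g) := by
    have h2 : Hr H g ⊆ (Finset.Icc (-((H / g : ℕ) : ℤ)) ((H / g : ℕ) : ℤ)).erase 0 := by
      intro h hh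
      rw [Hr, Finset.mem_filter] at hh
      obtain ⟨_, h0, hle⟩ := hh
      rw [Finset.mem_erase, Finset.mem_Icc, ← abs_le]
      refine ⟨h0, ?_⟩
      have h3 : h.natAbs * g ≤ H := by
        have h4 : ((h.natAbs * g : ℕ) : ℤ) ≤ (H : ℤ) := by
          push_cast
          exact hle
        exact_mod_cast h4
      have h5 : h.natAbs ≤ H / g := (Nat.le_div_iff_mul_le (by omega)).2 h3
      rw [Int.abs_eq_natAbs]
      exact_mod_cast h5
    refine (Finset.card_le_card h2).trans ?_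
    generalize H / g = k
    have hk : (0 : ℤ) ≤ (k : ℤ) := Int.natCast_nonneg _
    have hm : (0 : ℤ) ∈ Finset.Icc (-(k : ℤ)) (k : ℤ) := by
      rw [Finset.mem_Icc]
      constructor <;> omega
    rw [Finset.card_erase_of_mem hm, Int.card_Icc]
    omega
  have h2 : (((H / g : ℕ)) : ℝ) ≤ (H : ℝ) / g := Nat.cast_div_le
  calc ((Hr H g).card : ℝ) ≤ ((2 * (H / g) : ℕ) : ℝ) := by exact_mod_cast h1
    _ = 2 * ((H / g : ℕ) : ℝ) := by push_cast; ring
    _ ≤ 2 * ((H : ℝ) / g) := by linarith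
    _ = 2 * (H : ℝ) / g := by ring

/-- The diagonal: the number of `(v1, v2, h, w1, w2, h')` with `h w1 w2 = h' v1 v2`.
Proof: choose `v1, v2, h'` (`<= 3V/f1 * 3V/f2 * 2H/g`); then `h w1 w2 = m` is a given non-zero
number of absolute value at most `4 H V^2`, `w1` and `w2` are divisors of `|m|` and determine
`h`: at most `T^2` possibilities. -/
theorem diag {V H g f1 f2 Z : ℕ} {T : ℝ} (hg : 1 ≤ g) (h1 : 1 ≤ f1) (h2 : 1 ≤ f2)
    (hT : ∀ m : ℕ, 1 ≤ m → m ≤ Z → (tau m : ℝ) ≤ T) (hZ : 4 * H * V ^ 2 ≤ Z) :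
    ((((((Finset.Ioc V (2 * V)).filter (fun v => f1 ∣ v)) ×ˢ
        ((Finset.Ioc V (2 * V)).filter (fun v => f2 ∣ v)) ×ˢ Hr H g) ×ˢ
      (((Finset.Ioc V (2 * V)).filter (fun v => f1 ∣ v)) ×ˢ
        ((Finset.Ioc V (2 * V)).filter (fun v => f2 ∣ v)) ×ˢ Hr H g)).filter
      (fun q => q.1.2.2 * ((q.2.1 : ℤ) * (q.2.2.1 : ℤ)) = q.2.2.2 * ((q.1.1 : ℤ) * (q.1.2.1 : ℤ)))).card : ℝ) ≤
      18 * T ^ 2 * ((V : ℝ) / f1) * ((V : ℝ) / f2) * ((H : ℝ) / g) := by
  classical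
  set A := (Finset.Ioc V (2 * V)).filter (fun v => f1 ∣ v) with hA
  set B := (Finset.Ioc V (2 * V)).filter (fun v => f2 ∣ v) with hB
  set S := ((A ×ˢ B ×ˢ Hr H g) ×ˢ (A ×ˢ B ×ˢ Hr H g)).filter
      (fun q => q.1.2.2 * ((q.2.1 : ℤ) * (q.2.2.1 : ℤ)) = q.2.2.2 * ((q.1.1 : ℤ) * (q.1.2.1 : ℤ)))
      with hS
  let f : (ℕ × ℕ × ℤ) × (ℕ × ℕ × ℤ) → ℕ × ℕ × ℤ := fun q => (q.1.1, q.1.2.1, q.2.2.2)
  have hmaps : ∀ q ∈ S, f q ∈ A ×ˢ B ×ˢ Hr H g := by
    intro q hq
    rw [hS, Finset.mem_filter, Finset.mem_product, Finset.mem_product, Finset.mem_product,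
      Finset.mem_product, Finset.mem_product] at hq
    rw [Finset.mem_product, Finset.mem_product]
    exact ⟨hq.1.1.1, hq.1.1.2.1, hq.1.2.2.2⟩
  have hfib : ∀ b ∈ A ×ˢ B ×ˢ Hr H g, (((S.filter fun q => f q = b).card : ℕ) : ℝ) ≤ T ^ 2 := by
    rintro ⟨v1, v2, h'⟩ hb
    rw [Finset.mem_product, Finset.mem_product] at hb
    obtain ⟨hv1, hv2, hh'⟩ := hb
    simp only [] at hv1 hv2 hh'
    have hv1' := (Finset.mem_filter.1 hv1).1
    have hv2' := (Finset.mem_filter.1 hv2).1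
    rw [Finset.mem_Ioc] at hv1' hv2'
    have hh'' := hh'
    rw [Hr, Finset.mem_filter] at hh''
    obtain ⟨hI, hh0, hhle⟩ := hh''
    set m : ℤ := h' * ((v1 : ℤ) * (v2 : ℤ)) with hm
    have hm0 : m ≠ 0 := by
      rw [hm]
      refine mul_ne_zero hh0 (mul_ne_zero ?_ ?_)
      · exact_mod_cast (by omega : v1 ≠ 0)
      · exact_mod_cast (by omega : v2 ≠ 0)
    have hmZ : m.natAbs ≤ Z := by
      rw [hm, Int.natAbs_mul, Int.natAbs_mul, Int.natAbs_natCast, Int.natAbs_natCast]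
      have h3 : h'.natAbs ≤ H := by
        rw [Finset.mem_Icc] at hI
        omega
      calc h'.natAbs * (v1 * v2) ≤ H * ((2 * V) * (2 * V)) :=
            Nat.mul_le_mul h3 (Nat.mul_le_mul hv1'.2 hv2'.2)
        _ = 4 * H * V ^ 2 := by ring
        _ ≤ Z := hZ
    have hm1 : 1 ≤ m.natAbs := Nat.one_le_iff_ne_zero.2 (Int.natAbs_ne_zero.2 hm0)
    have hTm := hT m.natAbs hm1 hmZ
    have hT0 : (0 : ℝ) ≤ tau m.natAbs := Nat.cast_nonneg _
    have hcard : (S.filter fun q => f q = (v1, v2, h')).card ≤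
        (m.natAbs.divisors ×ˢ m.natAbs.divisors).card := by
      apply Finset.card_le_card_of_injOn (fun q => (q.2.1, q.2.2.1))
      · intro q hq
        rw [Finset.mem_coe, Finset.mem_filter, hS, Finset.mem_filter] at hq
        obtain ⟨⟨_, heq⟩, hfq⟩ := hq
        simp only [f, Prod.mk.injEq] at hfq
        obtain ⟨e1, e2, e3⟩ := hfq
        rw [e1, e2, e3, ← hm] at heq
        rw [Finset.mem_coe, Finset.mem_product, Nat.mem_divisors, Nat.mem_divisors]
        have hn : m.natAbs ≠ 0 := by omega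
        refine ⟨⟨?_, hn⟩, ⟨?_, hn⟩⟩
        · have : ((q.2.1 : ℕ) : ℤ) ∣ m := by
            rw [← heq]
            exact Dvd.dvd.mul_left (Dvd.intro _ rfl) _
          exact Int.natCast_dvd.1 this
        · have : ((q.2.2.1 : ℕ) : ℤ) ∣ m := by
            rw [← heq]
            exact Dvd.dvd.mul_left (Dvd.intro_left _ rfl) _
          exact Int.natCast_dvd.1 this
      · intro q hq q' hq' heq
        rw [Finset.mem_coe, Finset.mem_filter, hS, Finset.mem_filter] at hq hq'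
        obtain ⟨⟨hq1, hq2⟩, hq3⟩ := hq
        obtain ⟨⟨hq1', hq2'⟩, hq3'⟩ := hq'
        simp only [f, Prod.mk.injEq] at hq3 hq3' heq
        obtain ⟨e1, e2, e3⟩ := hq3
        obtain ⟨e1', e2', e3'⟩ := hq3'
        obtain ⟨e4, e5⟩ := heq
        rw [e1, e2, e3, ← hm] at hq2
        rw [e1', e2', e3', ← hm, ← e4, ← e5] at hq2'
        have hne : ((q.2.1 : ℤ) * (q.2.2.1 : ℤ)) ≠ 0 := by
          intro h0
          rw [h0, mul_zero] at hq2
          exact hm0 hq2.symm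
        have e6 : q.1.2.2 = q'.1.2.2 := mul_right_cancel₀ hne (hq2.trans hq2'.symm)
        obtain ⟨⟨a1, a2, a3⟩, ⟨b1, b2, b3⟩⟩ := q
        obtain ⟨⟨a1', a2', a3'⟩, ⟨b1', b2', b3'⟩⟩ := q'
        simp only at e1 e2 e3 e1' e2' e3' e4 e5 e6
        subst e1 e2 e3 e4 e5 e6
        rw [e1', e2', e3']
    rw [Finset.card_product] at hcard
    calc (((S.filter fun q => f q = (v1, v2, h')).card : ℕ) : ℝ) ≤
          ((m.natAbs.divisors.card * m.natAbs.divisors.card : ℕ) : ℝ) := by exact_mod_cast hcard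
      _ = (tau m.natAbs : ℝ) * (tau m.natAbs : ℝ) := by
          push_cast
          rfl
      _ ≤ T * T := mul_le_mul hTm hTm hT0 (hT0.trans hTm)
      _ = T ^ 2 := by ring
  have hsum : S.card = ∑ b ∈ A ×ˢ B ×ˢ Hr H g, (S.filter fun q => f q = b).card :=
    Finset.card_eq_sum_card_fiberwise hmaps
  have hA' := card_mult (U := V) (e := f1) h1
  have hB' := card_mult (U := V) (e := f2) h2
  have hH' := card_Hr (H := H) (g := g) hg
  rw [← hA] at hA'
  rw [← hB] at hB'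
  have hcardS : (S.card : ℝ) ≤ ((A ×ˢ B ×ˢ Hr H g).card : ℝ) * T ^ 2 := by
    rw [hsum]
    push_cast
    refine (Finset.sum_le_sum hfib).trans ?_
    rw [Finset.sum_const, nsmul_eq_mul]
  refine hcardS.trans ?_
  rw [Finset.card_product, Finset.card_product]
  push_cast
  have hT2 : 0 ≤ T ^ 2 := sq_nonneg _
  have hf1 : (0 : ℝ) < f1 := by exact_mod_cast h1
  have hf2 : (0 : ℝ) < f2 := by exact_mod_cast h2
  have hgp : (0 : ℝ) < g := by exact_mod_cast hg
  have hV0 : (0 : ℝ) ≤ V := Nat.cast_nonneg _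
  have hH0 : (0 : ℝ) ≤ H := Nat.cast_nonneg _
  have h5 : (B.card : ℝ) * ((Hr H g).card : ℝ) ≤ (3 * (V : ℝ) / f2) * (2 * (H : ℝ) / g) :=
    mul_le_mul hB' hH' (Nat.cast_nonneg _) (by positivity)
  have h6 : (A.card : ℝ) * ((B.card : ℝ) * ((Hr H g).card : ℝ)) ≤
      (3 * (V : ℝ) / f1) * ((3 * (V : ℝ) / f2) * (2 * (H : ℝ) / g)) :=
    mul_le_mul hA' h5 (by positivity) (by positivity)
  calc (A.card : ℝ) * ((B.card : ℝ) * ((Hr H g).card : ℝ)) * T ^ 2 ≤
        (3 * (V : ℝ) / f1) * ((3 * (V : ℝ) / f2) * (2 * (H : ℝ) / g)) * T ^ 2 :=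
        mul_le_mul_of_nonneg_right h6 hT2
    _ = 18 * T ^ 2 * ((V : ℝ) / f1) * ((V : ℝ) / f2) * ((H : ℝ) / g) := by ring

end Pool.Agent.BCore
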