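import Pool.Agent.BCore.Ss
import Pool.Agent.BCore.Cnt
import Pool.Agent.BCore.Gavg
import Pool.Agent.BCore.Cs

/-!
B-CORE module FIX: the bound for fixed `g, e1, e2`.
-/

namespace Pool.Agent.BCore

/-- The divisor window property of `r`. -/
def Win (H V : ℕ) (K B : ℝ) (r : ℕ) : Prop :=
  ∀ t : ℝ, K ≤ 16 * H * V ^ 4 * t → t ≤ K → ∃ r1 : ℕ, r1 ∣ r ∧ (r1 : ℝ) ≤ t ∧ t ≤ B ^ 2 * r1

open Classical in
/-- The part of the sum with gcd `g` and `gcd (g, u_i) = e_i`. -/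
noncomputable def TotG (N R U V H : ℕ) (β : ℤ → ℂ) (a b1 b2 : ℤ)
    (w : ℕ → ℤ → ℕ → ℕ → ℕ → ℕ → ℤ → ℂ) (g e1 e2 : ℕ) : ℂ :=
  ∑ r ∈ Finset.Ioc R (2 * R), ∑ l ∈ Lr N r,
    ∑ u1 ∈ Finset.Icc U (2 * U), ∑ v1 ∈ Finset.Ioc V (2 * V),
    ∑ u2 ∈ Finset.Icc U (2 * U), ∑ v2 ∈ Finset.Ioc V (2 * V),
    ∑ h ∈ Hr H g,
      if (Nat.gcd (u1 * v1) (u2 * v2) = g ∧ Nat.gcd g u1 = e1 ∧ Nat.gcd g u2 = e2) then
        w r l u1 v1 u2 v2 h * SN N β a b1 b2 r l (u1 * v1) (u2 * v2) h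
      else 0

/-! ### arithmetic facts -/

theorem FIX_sq {a b1 b2 : ℤ} {r u1 v1 u2 v2 : ℕ} (hG : Good a b1 b2 r u1 v1 u2 v2) :
    Squarefree (Pm r (u1 * v1) (u2 * v2)) := by
  have h1 := hG.1
  have h2 := hG.2.1
  unfold Pm
  rw [← Nat.lcm_mul_left]
  have h3 : (r * (u1 * v1)).lcm (r * (u2 * v2)) ≠ 0 := Nat.lcm_ne_zero h1.ne_zero h2.ne_zero
  rw [Nat.squarefree_iff_factorization_le_one h3]
  intro p
  rw [Nat.factorization_lcm h1.ne_zero h2.ne_zero, Finsupp.sup_apply]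
  exact sup_le ((Nat.squarefree_iff_factorization_le_one h1.ne_zero).1 h1 p)
    ((Nat.squarefree_iff_factorization_le_one h2.ne_zero).1 h2 p)

/-- `g / gcd (g, u)` divides `v` if `g` divides `u v`. -/
theorem FIX_dvd {g u v e : ℕ} (hg : 1 ≤ g) (h : g ∣ u * v) (he : Nat.gcd g u = e) :
    g / e ∣ v := by
  subst he
  have h0 : 0 < Nat.gcd g u := Nat.gcd_pos_of_pos_left _ hg
  have h1 : Nat.Coprime (g / Nat.gcd g u) (u / Nat.gcd g u) := Nat.coprime_div_gcd_div_gcd h0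
  have h2 : g / Nat.gcd g u ∣ (u / Nat.gcd g u) * v := by
    have h3 : g = Nat.gcd g u * (g / Nat.gcd g u) := (Nat.mul_div_cancel' (Nat.gcd_dvd_left g u)).symm
    have h4 : u = Nat.gcd g u * (u / Nat.gcd g u) := (Nat.mul_div_cancel' (Nat.gcd_dvd_right g u)).symm
    have h5 : Nat.gcd g u * (g / Nat.gcd g u) ∣ Nat.gcd g u * ((u / Nat.gcd g u) * v) := by
      rw [← h3, ← mul_assoc, ← h4]
      exact h
    exact Nat.dvd_of_mul_dvd_mul_left h0 h5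
  exact h1.dvd_of_dvd_mul_left h2

theorem FIX_card_Lr {N r : ℕ} (hr : 1 ≤ r) : ((Lr N r).card : ℝ) ≤ 2 * (N : ℝ) / r := by
  have hr' : (0 : ℝ) < r := by exact_mod_cast hr
  have h1 : Lr N r ⊆ (Finset.Icc (-((N / r : ℕ) : ℤ)) ((N / r : ℕ) : ℤ)).erase 0 := by
    intro l hl
    unfold Lr at hl
    rw [Finset.mem_filter, Finset.mem_Icc] at hl
    obtain ⟨_, hl0, hlr⟩ := hl
    rw [Finset.mem_erase, Finset.mem_Icc]
    have h2 : |l| ≤ ((N / r : ℕ) : ℤ) := by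
      push_cast
      rw [Int.le_ediv_iff_mul_le (by exact_mod_cast hr)]
      exact hlr
    exact ⟨hl0, (abs_le.1 h2)⟩
  have h3 := Finset.card_le_card h1
  rw [Finset.card_erase_of_mem (by
    rw [Finset.mem_Icc]
    exact ⟨by have := Int.natCast_nonneg (N / r); linarith, Int.natCast_nonneg _⟩),
    Int.card_Icc] at h3
  have h4 : (Lr N r).card ≤ 2 * (N / r) := by omega
  have h5 : ((Lr N r).card : ℝ) ≤ 2 * ((N / r : ℕ) : ℝ) := by exact_mod_cast h4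
  have h6 : ((N / r : ℕ) : ℝ) ≤ (N : ℝ) / r := Nat.cast_div_le
  calc ((Lr N r).card : ℝ) ≤ 2 * ((N / r : ℕ) : ℝ) := h5
    _ ≤ 2 * ((N : ℝ) / r) := by linarith
    _ = 2 * (N : ℝ) / r := by ring

/-! ### restriction and reordering of the sum -/

theorem FIX_restrict (sU sV : Finset ℕ) (X : ℕ → ℕ → ℕ → ℕ → ℂ) (p1 p2 q1 q2 : ℕ → Prop)
    [DecidablePred p1] [DecidablePred p2] [DecidablePred q1] [DecidablePred q2]
    (h : ∀ u1 v1 u2 v2, X u1 v1 u2 v2 ≠ 0 → p1 u1 ∧ q1 v1 ∧ p2 u2 ∧ q2 v2) :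
    ∑ u1 ∈ sU, ∑ v1 ∈ sV, ∑ u2 ∈ sU, ∑ v2 ∈ sV, X u1 v1 u2 v2 =
      ∑ u1 ∈ sU.filter p1, ∑ u2 ∈ sU.filter p2, ∑ v1 ∈ sV.filter q1, ∑ v2 ∈ sV.filter q2,
        X u1 v1 u2 v2 := by
  have h0 : ∀ u1 v1 u2 v2, ¬ (p1 u1 ∧ q1 v1 ∧ p2 u2 ∧ q2 v2) → X u1 v1 u2 v2 = 0 := by
    intro u1 v1 u2 v2 h1
    by_contra h2
    exact h1 (h _ _ _ _ h2)
  have e1 : ∀ u1 v1 u2, ∑ v2 ∈ sV.filter q2, X u1 v1 u2 v2 = ∑ v2 ∈ sV, X u1 v1 u2 v2 := by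
    intro u1 v1 u2
    exact Finset.sum_filter_of_ne (fun v2 _ hx => (h _ _ _ _ hx).2.2.2)
  have e2 : ∀ u1 u2, ∑ v1 ∈ sV.filter q1, ∑ v2 ∈ sV.filter q2, X u1 v1 u2 v2 =
      ∑ v1 ∈ sV, ∑ v2 ∈ sV, X u1 v1 u2 v2 := by
    intro u1 u2
    simp_rw [e1]
    refine Finset.sum_filter_of_ne (fun v1 _ hx => ?_)
    obtain ⟨v2, _, h2⟩ := Finset.exists_ne_zero_of_sum_ne_zero hx
    exact (h _ _ _ _ h2).2.1
  have e3 : ∀ u1, ∑ u2 ∈ sU.filter p2, ∑ v1 ∈ sV.filter q1, ∑ v2 ∈ sV.filter q2, X u1 v1 u2 v2 =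
      ∑ u2 ∈ sU, ∑ v1 ∈ sV, ∑ v2 ∈ sV, X u1 v1 u2 v2 := by
    intro u1
    simp_rw [e2]
    refine Finset.sum_filter_of_ne (fun u2 _ hx => ?_)
    obtain ⟨v1, _, h2⟩ := Finset.exists_ne_zero_of_sum_ne_zero hx
    obtain ⟨v2, _, h3⟩ := Finset.exists_ne_zero_of_sum_ne_zero h2
    exact (h _ _ _ _ h3).2.2.1
  simp_rw [e3]
  rw [Finset.sum_filter_of_ne]
  · exact Finset.sum_congr rfl (fun u1 _ => Finset.sum_comm)
  · intro u1 _ hx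
    obtain ⟨u2, _, h2⟩ := Finset.exists_ne_zero_of_sum_ne_zero hx
    obtain ⟨v1, _, h3⟩ := Finset.exists_ne_zero_of_sum_ne_zero h2
    obtain ⟨v2, _, h4⟩ := Finset.exists_ne_zero_of_sum_ne_zero h3
    exact (h _ _ _ _ h4).1

/-- summand of the Cauchy step -/
noncomputable def FIXy (N : ℕ) (a b1 b2 : ℤ) (w : ℕ → ℤ → ℕ → ℕ → ℕ → ℕ → ℤ → ℂ) (g e1 e2 : ℕ)
    (o : ℕ × ℤ × ℕ × ℕ) (i : ℕ × ℕ × ℤ) (n : ℤ) : ℂ :=
  if o.2.1 ∈ Lr N o.1 ∧ Nat.gcd (o.2.2.1 * i.1) (o.2.2.2 * i.2.1) = g ∧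
      Nat.gcd g o.2.2.1 = e1 ∧ Nat.gcd g o.2.2.2 = e2 then
    w o.1 o.2.1 o.2.2.1 i.1 o.2.2.2 i.2.1 i.2.2 *
      W a b1 b2 o.1 o.2.1 (o.2.2.1 * i.1) (o.2.2.2 * i.2.1) i.2.2 n
  else 0

open Classical in
/-- the indicator of the outer variables -/
noncomputable def FIXi (N : ℕ) (b1 b2 : ℤ) (g r : ℕ) (l n : ℤ) : ℝ :=
  if l ∈ Lr N r ∧ Nat.Coprime r g ∧ IsCoprime (g : ℤ) b1 ∧ IsCoprime (g : ℤ) b2 ∧
    Comp b1 b2 g r l n then 1 else 0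

/-- outer index set -/
noncomputable def FIXO (N R U : ℕ) (e1 e2 : ℕ) : Finset (ℕ × ℤ × ℕ × ℕ) :=
  Finset.Ioc R (2 * R) ×ˢ Finset.Icc (-(N : ℤ)) N ×ˢ
    ((Finset.Icc U (2 * U)).filter (fun u => e1 ∣ u)) ×ˢ
      ((Finset.Icc U (2 * U)).filter (fun u => e2 ∣ u))

/-- inner index set -/
noncomputable def FIXI (V H g f1 f2 : ℕ) : Finset (ℕ × ℕ × ℤ) :=
  ((Finset.Ioc V (2 * V)).filter (fun v => f1 ∣ v)) ×ˢ
    ((Finset.Ioc V (2 * V)).filter (fun v => f2 ∣ v)) ×ˢ Hr H g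

theorem FIX_tot (N R U V H : ℕ) (β : ℤ → ℂ) (a b1 b2 : ℤ)
    (w : ℕ → ℤ → ℕ → ℕ → ℕ → ℕ → ℤ → ℂ) (g e1 e2 : ℕ) (hg : 1 ≤ g) :
    TotG N R U V H β a b1 b2 w g e1 e2 =
      ∑ o ∈ FIXO N R U e1 e2, ∑ i ∈ FIXI V H g (g / e1) (g / e2), ∑ n ∈ Finset.Icc (1 : ℤ) N,
        (β n * (starRingEnd ℂ) (β (n + o.2.1 * o.1))) * FIXy N a b1 b2 w g e1 e2 o i n := by
  classical
  unfold TotG FIXO FIXI
  simp_rw [Finset.sum_product]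
  refine Finset.sum_congr rfl (fun r _ => ?_)
  have hsub : Lr N r ⊆ Finset.Icc (-(N : ℤ)) N := by
    unfold Lr
    exact Finset.filter_subset _ _
  have hterm : ∀ l ∈ Lr N r, (∑ u1 ∈ Finset.Icc U (2 * U), ∑ v1 ∈ Finset.Ioc V (2 * V),
      ∑ u2 ∈ Finset.Icc U (2 * U), ∑ v2 ∈ Finset.Ioc V (2 * V), ∑ h ∈ Hr H g,
      if (Nat.gcd (u1 * v1) (u2 * v2) = g ∧ Nat.gcd g u1 = e1 ∧ Nat.gcd g u2 = e2) then
        w r l u1 v1 u2 v2 h * SN N β a b1 b2 r l (u1 * v1) (u2 * v2) h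
      else 0) =
      ∑ u1 ∈ (Finset.Icc U (2 * U)).filter (fun u => e1 ∣ u),
        ∑ u2 ∈ (Finset.Icc U (2 * U)).filter (fun u => e2 ∣ u),
        ∑ v1 ∈ (Finset.Ioc V (2 * V)).filter (fun v => g / e1 ∣ v),
        ∑ v2 ∈ (Finset.Ioc V (2 * V)).filter (fun v => g / e2 ∣ v), ∑ h ∈ Hr H g,
        ∑ n ∈ Finset.Icc (1 : ℤ) N, (β n * (starRingEnd ℂ) (β (n + l * r))) *
          FIXy N a b1 b2 w g e1 e2 (r, l, u1, u2) (v1, v2, h) n := by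
    intro l hl
    rw [FIX_restrict (Finset.Icc U (2 * U)) (Finset.Ioc V (2 * V))
      (fun u1 v1 u2 v2 => ∑ h ∈ Hr H g,
        if (Nat.gcd (u1 * v1) (u2 * v2) = g ∧ Nat.gcd g u1 = e1 ∧ Nat.gcd g u2 = e2) then
          w r l u1 v1 u2 v2 h * SN N β a b1 b2 r l (u1 * v1) (u2 * v2) h
        else 0) (fun u => e1 ∣ u) (fun u => e2 ∣ u) (fun v => g / e1 ∣ v) (fun v => g / e2 ∣ v)]
    · refine Finset.sum_congr rfl (fun u1 _ => Finset.sum_congr rfl (fun u2 _ =>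
        Finset.sum_congr rfl (fun v1 _ => Finset.sum_congr rfl (fun v2 _ =>
        Finset.sum_congr rfl (fun h _ => ?_)))))
      unfold FIXy
      by_cases hc : Nat.gcd (u1 * v1) (u2 * v2) = g ∧ Nat.gcd g u1 = e1 ∧ Nat.gcd g u2 = e2
      · rw [if_pos hc]
        unfold SN
        rw [Finset.mul_sum]
        refine Finset.sum_congr rfl (fun n _ => ?_)
        rw [if_pos ⟨hl, hc⟩]
        ring
      · rw [if_neg hc]
        symm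
        refine Finset.sum_eq_zero (fun n _ => ?_)
        rw [if_neg (fun h1 => hc h1.2), mul_zero]
    · intro u1 v1 u2 v2 hx
      obtain ⟨h, _, h2⟩ := Finset.exists_ne_zero_of_sum_ne_zero hx
      have hc : Nat.gcd (u1 * v1) (u2 * v2) = g ∧ Nat.gcd g u1 = e1 ∧ Nat.gcd g u2 = e2 := by
        by_contra hc
        rw [if_neg hc] at h2
        exact h2 rfl
      obtain ⟨c1, c2, c3⟩ := hc
      refine ⟨?_, ?_, ?_, ?_⟩
      · rw [← c2]; exact Nat.gcd_dvd_right _ _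
      · exact FIX_dvd hg (by rw [← c1]; exact Nat.gcd_dvd_left _ _) c2
      · rw [← c3]; exact Nat.gcd_dvd_right _ _
      · exact FIX_dvd hg (by rw [← c1]; exact Nat.gcd_dvd_right _ _) c3
  rw [Finset.sum_congr rfl hterm]
  refine Finset.sum_subset hsub (fun l _ hl => ?_)
  refine Finset.sum_eq_zero (fun u1 _ => Finset.sum_eq_zero (fun u2 _ =>
    Finset.sum_eq_zero (fun v1 _ => Finset.sum_eq_zero (fun v2 _ =>
    Finset.sum_eq_zero (fun h _ => Finset.sum_eq_zero (fun n _ => ?_))))))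
  unfold FIXy
  rw [if_neg (fun h1 => hl h1.1), mul_zero]

theorem FIX_Lr_sub (N r : ℕ) : Lr N r ⊆ Finset.Icc (-(N : ℤ)) N := by
  unfold Lr
  exact Finset.filter_subset _ _

theorem FIX_i_nonneg (N : ℕ) (b1 b2 : ℤ) (g r : ℕ) (l n : ℤ) : 0 ≤ FIXi N b1 b2 g r l n := by
  unfold FIXi
  split_ifs
  · exact zero_le_one
  · exact le_rfl

theorem FIX_sum_r {N R g r : ℕ} {b1 b2 : ℤ} (hR : 1 ≤ R) (hg : 1 ≤ g) (hgN : g ≤ N)
    (hr : r ∈ Finset.Ioc R (2 * R)) :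
    ∑ l ∈ Finset.Icc (-(N : ℤ)) N, ∑ n ∈ Finset.Icc (1 : ℤ) N, FIXi N b1 b2 g r l n ≤
      4 * (N : ℝ) ^ 2 / (R * g) := by
  classical
  rw [Finset.mem_Ioc] at hr
  have hR' : (0 : ℝ) < R := by exact_mod_cast hR
  have hg' : (0 : ℝ) < g := by exact_mod_cast hg
  have hr1 : 1 ≤ r := by omega
  have hr' : (0 : ℝ) < r := by exact_mod_cast hr1
  by_cases hok : Nat.Coprime r g ∧ IsCoprime (g : ℤ) b1 ∧ IsCoprime (g : ℤ) b2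
  · obtain ⟨k1, k2, k3⟩ := hok
    have h1 : ∀ l ∈ Finset.Icc (-(N : ℤ)) N, ∑ n ∈ Finset.Icc (1 : ℤ) N, FIXi N b1 b2 g r l n =
        if l ∈ Lr N r then
          (((Finset.Icc (1 : ℤ) N).filter (fun n => Comp b1 b2 g r l n)).card : ℝ) else 0 := by
      intro l _
      by_cases hl : l ∈ Lr N r
      · rw [if_pos hl, Finset.card_filter]
        push_cast
        refine Finset.sum_congr rfl (fun n _ => ?_)
        unfold FIXi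
        by_cases hc : Comp b1 b2 g r l n
        · rw [if_pos ⟨hl, k1, k2, k3, hc⟩, if_pos hc]
        · rw [if_neg (fun h => hc h.2.2.2.2), if_neg hc]
      · rw [if_neg hl]
        refine Finset.sum_eq_zero (fun n _ => ?_)
        unfold FIXi
        rw [if_neg (fun h => hl h.1)]
    rw [Finset.sum_congr rfl h1, Finset.sum_ite_mem, Finset.inter_eq_right.2 (FIX_Lr_sub N r)]
    refine (cnt hg hr1 hgN k2 k3 k1).trans ?_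
    gcongr
    exact hr.1.le
  · have h1 : ∑ l ∈ Finset.Icc (-(N : ℤ)) N, ∑ n ∈ Finset.Icc (1 : ℤ) N,
        FIXi N b1 b2 g r l n = 0 := by
      refine Finset.sum_eq_zero (fun l _ => Finset.sum_eq_zero (fun n _ => ?_))
      unfold FIXi
      rw [if_neg (fun h => hok ⟨h.2.1, h.2.2.1, h.2.2.2.1⟩)]
    rw [h1]
    positivity

theorem FIX_F1 {N R U g e1 e2 : ℕ} {b1 b2 : ℤ} (hR : 1 ≤ R) (hU : 1 ≤ U) (hg : 1 ≤ g) (hgN : g ≤ N)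
    (he1 : 1 ≤ e1) (he2 : 1 ≤ e2) :
    ∑ o ∈ FIXO N R U e1 e2, ∑ n ∈ Finset.Icc (1 : ℤ) N, FIXi N b1 b2 g o.1 o.2.1 n ≤
      36 * (N : ℝ) ^ 2 * (U : ℝ) ^ 2 / (g * e1 * e2) := by
  classical
  have hR' : (0 : ℝ) < R := by exact_mod_cast hR
  have hg' : (0 : ℝ) < g := by exact_mod_cast hg
  have he1' : (0 : ℝ) < e1 := by exact_mod_cast he1
  have he2' : (0 : ℝ) < e2 := by exact_mod_cast he2
  unfold FIXO
  simp_rw [Finset.sum_product, Finset.sum_const, nsmul_eq_mul]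
  have hA := card_multI (U := U) hU he1
  have hB := card_multI (U := U) hU he2
  obtain ⟨cA, hcA⟩ : ∃ c : ℝ, c = (((Finset.Icc U (2 * U)).filter (fun u => e1 ∣ u)).card : ℝ) :=
    ⟨_, rfl⟩
  obtain ⟨cB, hcB⟩ : ∃ c : ℝ, c = (((Finset.Icc U (2 * U)).filter (fun u => e2 ∣ u)).card : ℝ) :=
    ⟨_, rfl⟩
  rw [← hcA] at hA
  rw [← hcB] at hB
  have hA0 : 0 ≤ cA := by rw [hcA]; exact Nat.cast_nonneg _
  have hB0 : 0 ≤ cB := by rw [hcB]; exact Nat.cast_nonneg _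
  rw [← hcA, ← hcB]
  calc ∑ r ∈ Finset.Ioc R (2 * R), ∑ l ∈ Finset.Icc (-(N : ℤ)) N,
        cA * (cB * ∑ n ∈ Finset.Icc (1 : ℤ) N, FIXi N b1 b2 g r l n)
      = (cA * cB) * ∑ r ∈ Finset.Ioc R (2 * R), ∑ l ∈ Finset.Icc (-(N : ℤ)) N,
          ∑ n ∈ Finset.Icc (1 : ℤ) N, FIXi N b1 b2 g r l n := by
        rw [Finset.mul_sum]
        refine Finset.sum_congr rfl (fun r _ => ?_)
        rw [Finset.mul_sum]
        refine Finset.sum_congr rfl (fun l _ => ?_)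
        ring
    _ ≤ (cA * cB) * ∑ _r ∈ Finset.Ioc R (2 * R), 4 * (N : ℝ) ^ 2 / (R * g) := by
        refine mul_le_mul_of_nonneg_left ?_ (mul_nonneg hA0 hB0)
        exact Finset.sum_le_sum (fun r hr => FIX_sum_r hR hg hgN hr)
    _ = (cA * cB) * (4 * (N : ℝ) ^ 2 / g) := by
        rw [Finset.sum_const, Nat.card_Ioc, nsmul_eq_mul]
        have : ((2 * R - R : ℕ) : ℝ) = R := by
          have h2 : 2 * R - R = R := by omega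
          rw [h2]
        rw [this]
        field_simp
    _ ≤ ((3 * (U : ℝ) / e1) * (3 * (U : ℝ) / e2)) * (4 * (N : ℝ) ^ 2 / g) := by
        refine mul_le_mul_of_nonneg_right ?_ (by positivity)
        exact mul_le_mul hA hB hB0 (by positivity)
    _ = 36 * (N : ℝ) ^ 2 * (U : ℝ) ^ 2 / (g * e1 * e2) := by
        field_simp
        ring

theorem FIX_F2 {N R U e1 e2 : ℕ} {D : ℤ} (hD : D ≠ 0) (hR : 1 ≤ R) (hU : 1 ≤ U)
    (he1 : 1 ≤ e1) (he2 : 1 ≤ e2) :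
    ∑ o ∈ FIXO N R U e1 e2, (if o.2.1 ∈ Lr N o.1 then
      ((Int.gcd D (o.1 : ℤ) : ℝ) * (Int.gcd D ((o.2.2.1 / e1 : ℕ) : ℤ) : ℝ) *
        (Int.gcd D ((o.2.2.2 / e2 : ℕ) : ℤ) : ℝ)) else 0) ≤
      54 * (N : ℝ) * (U : ℝ) ^ 2 / (e1 * e2) * (tau D.natAbs : ℝ) ^ 3 := by
  classical
  have hR' : (0 : ℝ) < R := by exact_mod_cast hR
  have he1' : (0 : ℝ) < e1 := by exact_mod_cast he1
  have he2' : (0 : ℝ) < e2 := by exact_mod_cast he2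
  have hA := gavgI hD (U := U) hU he1
  have hB := gavgI hD (U := U) hU he2
  have hC := gavg hD (U := R) (le_refl 1)
  obtain ⟨cA, hcA⟩ : ∃ c : ℝ, c = ∑ u ∈ (Finset.Icc U (2 * U)).filter (fun u => e1 ∣ u),
    (Int.gcd D ((u / e1 : ℕ) : ℤ) : ℝ) := ⟨_, rfl⟩
  obtain ⟨cB, hcB⟩ : ∃ c : ℝ, c = ∑ u ∈ (Finset.Icc U (2 * U)).filter (fun u => e2 ∣ u),
    (Int.gcd D ((u / e2 : ℕ) : ℤ) : ℝ) := ⟨_, rfl⟩
  rw [← hcA] at hA
  rw [← hcB] at hB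
  have hA0 : 0 ≤ cA := by rw [hcA]; exact Finset.sum_nonneg (fun _ _ => Nat.cast_nonneg _)
  have hB0 : 0 ≤ cB := by rw [hcB]; exact Finset.sum_nonneg (fun _ _ => Nat.cast_nonneg _)
  have hC' : ∑ r ∈ Finset.Ioc R (2 * R), (Int.gcd D (r : ℤ) : ℝ) ≤
      3 * (R : ℝ) * tau D.natAbs := by
    have h1 : (Finset.Ioc R (2 * R)).filter (fun u => 1 ∣ u) = Finset.Ioc R (2 * R) :=
      Finset.filter_true_of_mem (fun u _ => one_dvd u)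
    rw [h1] at hC
    simpa using hC
  unfold FIXO
  simp_rw [Finset.sum_product]
  have h1 : ∀ r ∈ Finset.Ioc R (2 * R), (∑ l ∈ Finset.Icc (-(N : ℤ)) N,
      ∑ u1 ∈ (Finset.Icc U (2 * U)).filter (fun u => e1 ∣ u),
      ∑ u2 ∈ (Finset.Icc U (2 * U)).filter (fun u => e2 ∣ u),
      (if l ∈ Lr N r then ((Int.gcd D (r : ℤ) : ℝ) * (Int.gcd D ((u1 / e1 : ℕ) : ℤ) : ℝ) *
        (Int.gcd D ((u2 / e2 : ℕ) : ℤ) : ℝ)) else 0)) ≤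
      (2 * (N : ℝ) / R) * (cA * cB) * (Int.gcd D (r : ℤ) : ℝ) := by
    intro r hr
    rw [Finset.mem_Ioc] at hr
    have hr1 : 1 ≤ r := by omega
    have h2 : ∀ l ∈ Finset.Icc (-(N : ℤ)) N,
        (∑ u1 ∈ (Finset.Icc U (2 * U)).filter (fun u => e1 ∣ u),
        ∑ u2 ∈ (Finset.Icc U (2 * U)).filter (fun u => e2 ∣ u),
        (if l ∈ Lr N r then ((Int.gcd D (r : ℤ) : ℝ) * (Int.gcd D ((u1 / e1 : ℕ) : ℤ) : ℝ) *
          (Int.gcd D ((u2 / e2 : ℕ) : ℤ) : ℝ)) else 0)) =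
        if l ∈ Lr N r then (Int.gcd D (r : ℤ) : ℝ) * (cA * cB) else 0 := by
      intro l _
      by_cases hl : l ∈ Lr N r
      · simp_rw [if_pos hl]
        rw [hcA, hcB, Finset.sum_mul_sum, Finset.mul_sum]
        refine Finset.sum_congr rfl (fun u1 _ => ?_)
        rw [Finset.mul_sum]
        refine Finset.sum_congr rfl (fun u2 _ => ?_)
        ring
      · simp_rw [if_neg hl]
        simp
    rw [Finset.sum_congr rfl h2, Finset.sum_ite_mem, Finset.inter_eq_right.2 (FIX_Lr_sub N r),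
      Finset.sum_const, nsmul_eq_mul]
    have h3 : ((Lr N r).card : ℝ) ≤ 2 * (N : ℝ) / R := by
      refine (FIX_card_Lr hr1).trans ?_
      gcongr
      exact hr.1.le
    have h4 : 0 ≤ (Int.gcd D (r : ℤ) : ℝ) * (cA * cB) :=
      mul_nonneg (Nat.cast_nonneg _) (mul_nonneg hA0 hB0)
    calc ((Lr N r).card : ℝ) * ((Int.gcd D (r : ℤ) : ℝ) * (cA * cB))
        ≤ (2 * (N : ℝ) / R) * ((Int.gcd D (r : ℤ) : ℝ) * (cA * cB)) :=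
          mul_le_mul_of_nonneg_right h3 h4
      _ = (2 * (N : ℝ) / R) * (cA * cB) * (Int.gcd D (r : ℤ) : ℝ) := by ring
  refine (Finset.sum_le_sum h1).trans ?_
  rw [← Finset.mul_sum]
  have ht : (0 : ℝ) ≤ tau D.natAbs := Nat.cast_nonneg _
  calc (2 * (N : ℝ) / R) * (cA * cB) * ∑ r ∈ Finset.Ioc R (2 * R), (Int.gcd D (r : ℤ) : ℝ)
      ≤ (2 * (N : ℝ) / R) * ((3 * (U : ℝ) / e1 * tau D.natAbs) * (3 * (U : ℝ) / e2 * tau D.natAbs)) *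
          (3 * (R : ℝ) * tau D.natAbs) := by
        refine mul_le_mul ?_ hC' (Finset.sum_nonneg (fun _ _ => Nat.cast_nonneg _)) (by positivity)
        refine mul_le_mul_of_nonneg_left ?_ (by positivity)
        exact mul_le_mul hA hB hB0 (by positivity)
    _ = 54 * (N : ℝ) * (U : ℝ) ^ 2 / (e1 * e2) * (tau D.natAbs : ℝ) ^ 3 := by
        field_simp
        ring

/-! ### bounds for the summand -/

section
variable {N : ℕ} {a b1 b2 : ℤ} {w : ℕ → ℤ → ℕ → ℕ → ℕ → ℕ → ℤ → ℂ} {g e1 e2 : ℕ}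

theorem FIX_y_ne {o : ℕ × ℤ × ℕ × ℕ} {i : ℕ × ℕ × ℤ} {n : ℤ}
    (hG : ∀ r l u1 v1 u2 v2 h, w r l u1 v1 u2 v2 h ≠ 0 → Good a b1 b2 r u1 v1 u2 v2)
    (h : FIXy N a b1 b2 w g e1 e2 o i n ≠ 0) : FIXi N b1 b2 g o.1 o.2.1 n = 1 := by
  unfold FIXy at h
  have hc : o.2.1 ∈ Lr N o.1 ∧ Nat.gcd (o.2.2.1 * i.1) (o.2.2.2 * i.2.1) = g ∧
      Nat.gcd g o.2.2.1 = e1 ∧ Nat.gcd g o.2.2.2 = e2 := by
    by_contra hc
    rw [if_neg hc] at h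
    exact h rfl
  rw [if_pos hc] at h
  have hw := left_ne_zero_of_mul h
  have hW := right_ne_zero_of_mul h
  have hgood := hG _ _ _ _ _ _ _ hw
  obtain ⟨g1, g2, g3, g4, g5, g6, g7⟩ := hgood
  have hdv : g ∣ o.2.2.1 * i.1 := by
    rw [← hc.2.1]; exact Nat.gcd_dvd_left _ _
  have hdvz : (g : ℤ) ∣ ((o.2.2.1 * i.1 : ℕ) : ℤ) := by exact_mod_cast hdv
  unfold FIXi
  rw [if_pos]
  refine ⟨hc.1, ?_, ?_, ?_, comp_of_W hc.2.1 hW⟩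
  · exact Nat.Coprime.coprime_dvd_right hdv (Nat.coprime_of_squarefree_mul g1)
  · exact IsCoprime.of_isCoprime_of_dvd_left g4 hdvz
  · exact IsCoprime.of_isCoprime_of_dvd_left g5 hdvz

theorem FIX_y_norm {o : ℕ × ℤ × ℕ × ℕ} {i : ℕ × ℕ × ℤ} {n : ℤ}
    (hw1 : ∀ r l u1 v1 u2 v2 h, ‖w r l u1 v1 u2 v2 h‖ ≤ 1)
    (hG : ∀ r l u1 v1 u2 v2 h, w r l u1 v1 u2 v2 h ≠ 0 → Good a b1 b2 r u1 v1 u2 v2) :
    ‖FIXy N a b1 b2 w g e1 e2 o i n‖ ≤ 1 := by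
  unfold FIXy
  split_ifs with hc
  · by_cases hw : w o.1 o.2.1 o.2.2.1 i.1 o.2.2.2 i.2.1 i.2.2 = 0
    · rw [hw, zero_mul, norm_zero]
      exact zero_le_one
    · have hgood := hG _ _ _ _ _ _ _ hw
      obtain ⟨g1, g2, g3, g4, g5, g6, g7⟩ := hgood
      rw [norm_mul]
      have h1 := hw1 o.1 o.2.1 o.2.2.1 i.1 o.2.2.2 i.2.1 i.2.2
      have h2 : ‖W a b1 b2 o.1 o.2.1 (o.2.2.1 * i.1) (o.2.2.2 * i.2.1) i.2.2 n‖ ≤ 1 :=
        W_norm_le (FIX_sq ⟨g1, g2, g3, g4, g5, g6, g7⟩) g3 g4 g7 _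
      exact mul_le_one₀ h1 (norm_nonneg _) h2
  · rw [norm_zero]
    exact zero_le_one

theorem FIX_diag_o {o : ℕ × ℤ × ℕ × ℕ} {i j : ℕ × ℕ × ℤ}
    (hw1 : ∀ r l u1 v1 u2 v2 h, ‖w r l u1 v1 u2 v2 h‖ ≤ 1)
    (hG : ∀ r l u1 v1 u2 v2 h, w r l u1 v1 u2 v2 h ≠ 0 → Good a b1 b2 r u1 v1 u2 v2) :
    ‖∑ n ∈ Finset.Icc (1 : ℤ) N, FIXy N a b1 b2 w g e1 e2 o i n *
      (starRingEnd ℂ) (FIXy N a b1 b2 w g e1 e2 o j n)‖ ≤
      ∑ n ∈ Finset.Icc (1 : ℤ) N, FIXi N b1 b2 g o.1 o.2.1 n := by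
  refine (norm_sum_le _ _).trans (Finset.sum_le_sum (fun n _ => ?_))
  by_cases h0 : FIXy N a b1 b2 w g e1 e2 o i n = 0
  · rw [h0, zero_mul, norm_zero]
    exact FIX_i_nonneg _ _ _ _ _ _ _
  · rw [FIX_y_ne hG h0, norm_mul, RCLike.norm_conj]
    exact mul_le_one₀ (FIX_y_norm hw1 hG) (norm_nonneg _) (FIX_y_norm hw1 hG)

theorem FIX_off_o {o : ℕ × ℤ × ℕ × ℕ} {i j : ℕ × ℕ × ℤ} {Bd : ℝ} (hBd : 0 ≤ Bd)
    (hw1 : ∀ r l u1 v1 u2 v2 h, ‖w r l u1 v1 u2 v2 h‖ ≤ 1)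
    (hss : Nat.gcd (o.2.2.1 * i.1) (o.2.2.2 * i.2.1) = g →
      Nat.gcd (o.2.2.1 * j.1) (o.2.2.2 * j.2.1) = g → Nat.gcd g o.2.2.1 = e1 →
      Nat.gcd g o.2.2.2 = e2 →
      w o.1 o.2.1 o.2.2.1 i.1 o.2.2.2 i.2.1 i.2.2 ≠ 0 →
      w o.1 o.2.1 o.2.2.1 j.1 o.2.2.2 j.2.1 j.2.2 ≠ 0 →
      ‖∑ n ∈ Finset.Icc (1 : ℤ) N,
        W a b1 b2 o.1 o.2.1 (o.2.2.1 * i.1) (o.2.2.2 * i.2.1) i.2.2 n *
        (starRingEnd ℂ) (W a b1 b2 o.1 o.2.1 (o.2.2.1 * j.1) (o.2.2.2 * j.2.1) j.2.2 n)‖ ≤ Bd) :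
    ‖∑ n ∈ Finset.Icc (1 : ℤ) N, FIXy N a b1 b2 w g e1 e2 o i n *
      (starRingEnd ℂ) (FIXy N a b1 b2 w g e1 e2 o j n)‖ ≤
      if o.2.1 ∈ Lr N o.1 then Bd else 0 := by
  by_cases hl : o.2.1 ∈ Lr N o.1
  · rw [if_pos hl]
    by_cases hi : Nat.gcd (o.2.2.1 * i.1) (o.2.2.2 * i.2.1) = g ∧
      Nat.gcd g o.2.2.1 = e1 ∧ Nat.gcd g o.2.2.2 = e2
    · by_cases hj : Nat.gcd (o.2.2.1 * j.1) (o.2.2.2 * j.2.1) = g
      · have h1 : ∀ n, FIXy N a b1 b2 w g e1 e2 o i n =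
            w o.1 o.2.1 o.2.2.1 i.1 o.2.2.2 i.2.1 i.2.2 *
              W a b1 b2 o.1 o.2.1 (o.2.2.1 * i.1) (o.2.2.2 * i.2.1) i.2.2 n := by
          intro n
          unfold FIXy
          rw [if_pos ⟨hl, hi⟩]
        have h2 : ∀ n, FIXy N a b1 b2 w g e1 e2 o j n =
            w o.1 o.2.1 o.2.2.1 j.1 o.2.2.2 j.2.1 j.2.2 *
              W a b1 b2 o.1 o.2.1 (o.2.2.1 * j.1) (o.2.2.2 * j.2.1) j.2.2 n := by
          intro n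
          unfold FIXy
          rw [if_pos ⟨hl, hj, hi.2⟩]
        simp_rw [h1, h2]
        by_cases hwi : w o.1 o.2.1 o.2.2.1 i.1 o.2.2.2 i.2.1 i.2.2 = 0
        · simp_rw [hwi]
          simpa using hBd
        by_cases hwj : w o.1 o.2.1 o.2.2.1 j.1 o.2.2.2 j.2.1 j.2.2 = 0
        · simp_rw [hwj]
          simpa using hBd
        have h3 := hss hi.1 hj hi.2.1 hi.2.2 hwi hwj
        have h4 : ∑ n ∈ Finset.Icc (1 : ℤ) N,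
            (w o.1 o.2.1 o.2.2.1 i.1 o.2.2.2 i.2.1 i.2.2 *
              W a b1 b2 o.1 o.2.1 (o.2.2.1 * i.1) (o.2.2.2 * i.2.1) i.2.2 n) *
            (starRingEnd ℂ) (w o.1 o.2.1 o.2.2.1 j.1 o.2.2.2 j.2.1 j.2.2 *
              W a b1 b2 o.1 o.2.1 (o.2.2.1 * j.1) (o.2.2.2 * j.2.1) j.2.2 n) =
            (w o.1 o.2.1 o.2.2.1 i.1 o.2.2.2 i.2.1 i.2.2 *
              (starRingEnd ℂ) (w o.1 o.2.1 o.2.2.1 j.1 o.2.2.2 j.2.1 j.2.2)) *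
            ∑ n ∈ Finset.Icc (1 : ℤ) N,
              W a b1 b2 o.1 o.2.1 (o.2.2.1 * i.1) (o.2.2.2 * i.2.1) i.2.2 n *
              (starRingEnd ℂ) (W a b1 b2 o.1 o.2.1 (o.2.2.1 * j.1) (o.2.2.2 * j.2.1) j.2.2 n) := by
          rw [Finset.mul_sum]
          refine Finset.sum_congr rfl (fun n _ => ?_)
          rw [map_mul]
          ring
        rw [h4, norm_mul, norm_mul, RCLike.norm_conj]
        have h5 := hw1 o.1 o.2.1 o.2.2.1 i.1 o.2.2.2 i.2.1 i.2.2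
        have h6 := hw1 o.1 o.2.1 o.2.2.1 j.1 o.2.2.2 j.2.1 j.2.2
        have h7 := mul_le_one₀ h5 (norm_nonneg _) h6
        calc _ ≤ 1 * Bd := mul_le_mul h7 h3 (norm_nonneg _) zero_le_one
          _ = Bd := one_mul _
      · have h2 : ∀ n, FIXy N a b1 b2 w g e1 e2 o j n = 0 := by
          intro n
          unfold FIXy
          rw [if_neg (fun h => hj h.2.1)]
        simp_rw [h2]
        simpa using hBd
    · have h2 : ∀ n, FIXy N a b1 b2 w g e1 e2 o i n = 0 := by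
        intro n
        unfold FIXy
        rw [if_neg (fun h => hi h.2)]
      simp_rw [h2]
      simpa using hBd
  · rw [if_neg hl]
    have h2 : ∀ n, FIXy N a b1 b2 w g e1 e2 o i n = 0 := by
      intro n
      unfold FIXy
      rw [if_neg (fun h => hl h.1)]
    simp_rw [h2]
    simp

end

/-! ### the final inequality in real numbers -/

theorem FIX_real {n u v h g e1 e2 T C1 Y E t : ℝ} (hn : 0 < n) (hu : 0 < u) (hv : 0 < v)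
    (hh : 0 < h) (hg : 1 ≤ g) (he1 : 1 ≤ e1) (he2 : 1 ≤ e2) (hT : 1 ≤ T) (hC1 : 0 < C1)
    (hY : 0 ≤ Y) (hE : 0 ≤ E) (h1 : h ≤ E ^ 2 * v ^ 2) (h2 : h ^ 2 * Y ≤ E ^ 2) (ht : 0 ≤ t)
    (h3 : t ^ 2 ≤ (36 * n ^ 2 * u ^ 2 / (g * e1 * e2)) *
      ((18 * T ^ 2 * (v / (g / e1)) * (v / (g / e2)) * (h / g)) *
          (36 * n ^ 2 * u ^ 2 / (g * e1 * e2)) +
        ((3 * v / (g / e1)) * ((3 * v / (g / e2)) * (2 * h / g))) ^ 2 *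
          (C1 * T ^ 3 * n * Y * (54 * n * u ^ 2 / (e1 * e2) * T ^ 3)))) :
    t * g ^ 2 ≤ (23329 + 629856 * C1) * T ^ 3 * n ^ 2 * u ^ 2 * v ^ 2 * E := by
  have hg0 : 0 < g := by linarith
  have he10 : 0 < e1 := by linarith
  have he20 : 0 < e2 := by linarith
  have hT0 : 0 < T := by linarith
  have e : (36 * n ^ 2 * u ^ 2 / (g * e1 * e2)) *
      ((18 * T ^ 2 * (v / (g / e1)) * (v / (g / e2)) * (h / g)) *
          (36 * n ^ 2 * u ^ 2 / (g * e1 * e2)) +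
        ((3 * v / (g / e1)) * ((3 * v / (g / e2)) * (2 * h / g))) ^ 2 *
          (C1 * T ^ 3 * n * Y * (54 * n * u ^ 2 / (e1 * e2) * T ^ 3))) =
      (23328 * T ^ 2 * n ^ 4 * u ^ 4 * v ^ 2 * h * (1 / (g * e1 * e2)) +
        629856 * C1 * T ^ 6 * n ^ 4 * u ^ 4 * v ^ 4 * (h ^ 2 * Y) * (1 / g ^ 3)) / g ^ 4 := by
    field_simp
    ring
  rw [e, le_div_iff₀ (by positivity)] at h3
  have b1 : 1 / (g * e1 * e2) ≤ 1 := by
    rw [div_le_one (by positivity)]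
    have : 1 ≤ g * e1 := by nlinarith
    nlinarith
  have b2 : 1 / g ^ 3 ≤ 1 := by
    rw [div_le_one (by positivity)]
    exact one_le_pow₀ hg
  have c1 : 23328 * T ^ 2 * n ^ 4 * u ^ 4 * v ^ 2 * h * (1 / (g * e1 * e2)) ≤
      23328 * T ^ 6 * (n ^ 2 * u ^ 2 * v ^ 2 * E) ^ 2 := by
    calc 23328 * T ^ 2 * n ^ 4 * u ^ 4 * v ^ 2 * h * (1 / (g * e1 * e2))
        ≤ 23328 * T ^ 2 * n ^ 4 * u ^ 4 * v ^ 2 * h * 1 := by
          apply mul_le_mul_of_nonneg_left b1; positivity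
      _ ≤ 23328 * T ^ 2 * n ^ 4 * u ^ 4 * v ^ 2 * (E ^ 2 * v ^ 2) * 1 := by gcongr
      _ ≤ 23328 * T ^ 6 * n ^ 4 * u ^ 4 * v ^ 2 * (E ^ 2 * v ^ 2) * 1 := by
          gcongr
          norm_num
      _ = 23328 * T ^ 6 * (n ^ 2 * u ^ 2 * v ^ 2 * E) ^ 2 := by ring
  have c2 : 629856 * C1 * T ^ 6 * n ^ 4 * u ^ 4 * v ^ 4 * (h ^ 2 * Y) * (1 / g ^ 3) ≤
      629856 * C1 * T ^ 6 * (n ^ 2 * u ^ 2 * v ^ 2 * E) ^ 2 := by
    calc 629856 * C1 * T ^ 6 * n ^ 4 * u ^ 4 * v ^ 4 * (h ^ 2 * Y) * (1 / g ^ 3)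
        ≤ 629856 * C1 * T ^ 6 * n ^ 4 * u ^ 4 * v ^ 4 * (h ^ 2 * Y) * 1 := by
          apply mul_le_mul_of_nonneg_left b2; positivity
      _ ≤ 629856 * C1 * T ^ 6 * n ^ 4 * u ^ 4 * v ^ 4 * E ^ 2 * 1 := by gcongr
      _ = 629856 * C1 * T ^ 6 * (n ^ 2 * u ^ 2 * v ^ 2 * E) ^ 2 := by ring
  have hsq : (t * g ^ 2) ^ 2 ≤ ((23329 + 629856 * C1) * T ^ 3 * n ^ 2 * u ^ 2 * v ^ 2 * E) ^ 2 := by
    have hX : 0 ≤ T ^ 6 * (n ^ 2 * u ^ 2 * v ^ 2 * E) ^ 2 := by positivity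
    have hC : 23328 + 629856 * C1 ≤ (23329 + 629856 * C1) ^ 2 := by nlinarith
    calc (t * g ^ 2) ^ 2 = t ^ 2 * g ^ 4 := by ring
      _ ≤ 23328 * T ^ 6 * (n ^ 2 * u ^ 2 * v ^ 2 * E) ^ 2 +
          629856 * C1 * T ^ 6 * (n ^ 2 * u ^ 2 * v ^ 2 * E) ^ 2 := by linarith
      _ = (23328 + 629856 * C1) * (T ^ 6 * (n ^ 2 * u ^ 2 * v ^ 2 * E) ^ 2) := by ring
      _ ≤ (23329 + 629856 * C1) ^ 2 * (T ^ 6 * (n ^ 2 * u ^ 2 * v ^ 2 * E) ^ 2) :=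
          mul_le_mul_of_nonneg_right hC hX
      _ = ((23329 + 629856 * C1) * T ^ 3 * n ^ 2 * u ^ 2 * v ^ 2 * E) ^ 2 := by ring
  exact le_of_sq_le_sq hsq (by positivity)

theorem fix_bound : ∃ (C : ℝ) (c0 : ℕ), 0 < C ∧ ∀ (N R U V H Z : ℕ) (K B Y E T : ℝ) (a b1 b2 : ℤ)
    (β : ℤ → ℂ) (w : ℕ → ℤ → ℕ → ℕ → ℕ → ℕ → ℤ → ℂ) (g e1 e2 : ℕ),
    1 ≤ R → 1 ≤ U → 1 ≤ V → 1 ≤ H → H ≤ N → 0 < K → K ≤ N → K ^ 3 = R * U ^ 2 * V ^ 4 →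
    1 ≤ B → 0 ≤ Y → K * B ≤ Y ^ 2 * N → K ≤ Y ^ 4 * (R * U * V) →
    0 ≤ E → (H : ℝ) ≤ E ^ 2 * V ^ 2 → (H : ℝ) ^ 2 * Y ≤ E ^ 2 →
    2 ^ 10 * R * U ^ 2 * V ^ 4 * H * N ≤ Z → (∀ m : ℕ, 1 ≤ m → m ≤ Z → (tau m : ℝ) ≤ T) →
    1 + Real.log Z ≤ T → (∀ n, ‖β n‖ ≤ 1) → (∀ r l u1 v1 u2 v2 h, ‖w r l u1 v1 u2 v2 h‖ ≤ 1) →
    (∀ r l u1 v1 u2 v2 h, w r l u1 v1 u2 v2 h ≠ 0 → Good a b1 b2 r u1 v1 u2 v2 ∧ Win H V K B r) →
    1 ≤ g → g ≤ H → e1 ∣ g → e2 ∣ g →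
    ‖TotG N R U V H β a b1 b2 w g e1 e2‖ * g ^ 2 ≤
      C * T ^ c0 * (N : ℝ) ^ 2 * (U : ℝ) ^ 2 * (V : ℝ) ^ 2 * E := by
  classical
  obtain ⟨C1, hC1, hss⟩ := ss_bound
  refine ⟨23329 + 629856 * C1, 3, by positivity, ?_⟩
  intro N R U V H Z K B Y E T a b1 b2 β w g e1 e2 hR hU hV hH hHN hK hKN hK3 hB hY hKB hKY hE hHE
    hHY hZ hT hlog hβ hw1 hwG hg hgH he1 he2
  have hG : ∀ r l u1 v1 u2 v2 h, w r l u1 v1 u2 v2 h ≠ 0 → Good a b1 b2 r u1 v1 u2 v2 :=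
    fun r l u1 v1 u2 v2 h hw => (hwG r l u1 v1 u2 v2 h hw).1
  have hgN : g ≤ N := hgH.trans hHN
  have hN : 1 ≤ N := hg.trans hgN
  have he1p : 1 ≤ e1 := Nat.pos_of_dvd_of_pos he1 hg
  have he2p : 1 ≤ e2 := Nat.pos_of_dvd_of_pos he2 hg
  have hZ8 : 8 * H * V ^ 2 ≤ Z := by
    have h1 : V ^ 2 ≤ V ^ 4 := Nat.pow_le_pow_right hV (by norm_num)
    have h2 : 1 ≤ R * U ^ 2 * N := Nat.mul_pos (Nat.mul_pos hR (Nat.pow_pos hU)) hN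
    calc 8 * H * V ^ 2 ≤ 8 * H * V ^ 4 := Nat.mul_le_mul_left _ h1
      _ = 8 * (H * V ^ 4) * 1 := by ring
      _ ≤ 2 ^ 10 * (H * V ^ 4) * (R * U ^ 2 * N) :=
          Nat.mul_le_mul (Nat.mul_le_mul_right _ (by norm_num)) h2
      _ = 2 ^ 10 * R * U ^ 2 * V ^ 4 * H * N := by ring
      _ ≤ Z := hZ
  have hZ1 : 1 ≤ Z := by
    have h1 : 1 ≤ 8 * H * V ^ 2 := Nat.mul_pos (Nat.mul_pos (by norm_num) hH) (Nat.pow_pos hV)
    exact h1.trans hZ8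
  have hT1 : 1 ≤ T := by
    have h1 : 0 ≤ Real.log Z := Real.log_nonneg (by exact_mod_cast hZ1)
    linarith
  have hT0 : 0 < T := by linarith
  have hf1 : ((g / e1 : ℕ) : ℝ) = (g : ℝ) / e1 :=
    Nat.cast_div he1 (by exact_mod_cast (show e1 ≠ 0 by omega))
  have hf2 : ((g / e2 : ℕ) : ℝ) = (g : ℝ) / e2 :=
    Nat.cast_div he2 (by exact_mod_cast (show e2 ≠ 0 by omega))
  have hf1p : 1 ≤ g / e1 := Nat.div_pos (Nat.le_of_dvd hg he1) he1p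
  have hf2p : 1 ≤ g / e2 := Nat.div_pos (Nat.le_of_dvd hg he2) he2p
  obtain ⟨O, hO⟩ : ∃ O, O = FIXO N R U e1 e2 := ⟨_, rfl⟩
  obtain ⟨S, hS⟩ : ∃ S, S = FIXI V H g (g / e1) (g / e2) := ⟨_, rfl⟩
  -- Cauchy
  have hCS := cs_abs O S (Finset.Icc (1 : ℤ) N)
    (fun o n => β n * (starRingEnd ℂ) (β (n + o.2.1 * o.1)))
    (fun o n => FIXi N b1 b2 g o.1 o.2.1 n)
    (fun o i n => FIXy N a b1 b2 w g e1 e2 o i n)
    (fun o _ n _ => by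
      rw [norm_mul, RCLike.norm_conj]
      exact mul_le_one₀ (hβ _) (norm_nonneg _) (hβ _))
    (fun o n => by
      unfold FIXi
      split_ifs
      · exact Or.inr rfl
      · exact Or.inl rfl)
    (fun o _ i _ n _ h => FIX_y_ne hG h)
  rw [hO, hS, ← FIX_tot N R U V H β a b1 b2 w g e1 e2 hg, ← hO, ← hS] at hCS
  have hF1 := FIX_F1 (N := N) (R := R) (U := U) (g := g) (e1 := e1) (e2 := e2) (b1 := b1)
    (b2 := b2) hR hU hg hgN he1p he2p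
  rw [← hO] at hF1
  obtain ⟨F1b, hF1b⟩ : ∃ x : ℝ, x = 36 * (N : ℝ) ^ 2 * (U : ℝ) ^ 2 / (g * e1 * e2) := ⟨_, rfl⟩
  rw [← hF1b] at hF1
  have hF1b0 : 0 ≤ F1b := by rw [hF1b]; positivity
  -- the sum over pairs
  have hswap : ∑ o ∈ O, ∑ i ∈ S, ∑ j ∈ S, ‖∑ n ∈ Finset.Icc (1 : ℤ) N,
      FIXy N a b1 b2 w g e1 e2 o i n * (starRingEnd ℂ) (FIXy N a b1 b2 w g e1 e2 o j n)‖ =
      ∑ q ∈ S ×ˢ S, ∑ o ∈ O, ‖∑ n ∈ Finset.Icc (1 : ℤ) N,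
      FIXy N a b1 b2 w g e1 e2 o q.1 n * (starRingEnd ℂ) (FIXy N a b1 b2 w g e1 e2 o q.2 n)‖ := by
    rw [Finset.sum_comm]
    rw [Finset.sum_product]
    refine Finset.sum_congr rfl (fun i _ => ?_)
    rw [Finset.sum_comm]
  obtain ⟨Ob, hOb⟩ : ∃ x : ℝ, x = C1 * T ^ 3 * N * Y * (54 * (N : ℝ) * (U : ℝ) ^ 2 / (e1 * e2) *
    T ^ 3) := ⟨_, rfl⟩
  have hOb0 : 0 ≤ Ob := by rw [hOb]; positivity
  have hdg : ∀ q ∈ S ×ˢ S, ∑ o ∈ O, ‖∑ n ∈ Finset.Icc (1 : ℤ) N,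
      FIXy N a b1 b2 w g e1 e2 o q.1 n *
        (starRingEnd ℂ) (FIXy N a b1 b2 w g e1 e2 o q.2 n)‖ ≤ F1b := fun q _ =>
    (Finset.sum_le_sum (fun o _ => FIX_diag_o hw1 hG)).trans hF1
  have hoff : ∀ q ∈ S ×ˢ S, ¬ (q.1.2.2 * ((q.2.1 : ℤ) * (q.2.2.1 : ℤ)) =
      q.2.2.2 * ((q.1.1 : ℤ) * (q.1.2.1 : ℤ))) → ∑ o ∈ O, ‖∑ n ∈ Finset.Icc (1 : ℤ) N,
      FIXy N a b1 b2 w g e1 e2 o q.1 n *
        (starRingEnd ℂ) (FIXy N a b1 b2 w g e1 e2 o q.2 n)‖ ≤ Ob := by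
    intro q hq hne
    obtain ⟨⟨v1, v2, h⟩, ⟨w1, w2, h'⟩⟩ := q
    rw [Finset.mem_product, hS] at hq
    unfold FIXI at hq
    simp only [Finset.mem_product, Finset.mem_filter] at hq
    obtain ⟨⟨⟨hv1, _⟩, ⟨hv2, _⟩, hh⟩, ⟨hw1', _⟩, ⟨hw2', _⟩, hh'⟩ := hq
    simp only at hne
    obtain ⟨D, hD⟩ : ∃ D : ℤ, D = h * ((w1 : ℤ) * (w2 : ℤ)) - h' * ((v1 : ℤ) * (v2 : ℤ)) :=
      ⟨_, rfl⟩
    have hD0 : D ≠ 0 := by
      rw [hD]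
      intro h0
      exact hne (by linarith)
    have habs : ∀ x ∈ Hr H g, |x| ≤ H := by
      intro x hx
      unfold Hr at hx
      rw [Finset.mem_filter, Finset.mem_Icc] at hx
      exact abs_le.2 ⟨hx.1.1, hx.1.2⟩
    have hprod : ∀ x y z : ℤ, ∀ s t : ℕ, |x| ≤ H → s ∈ Finset.Ioc V (2 * V) →
        t ∈ Finset.Ioc V (2 * V) → |x * ((s : ℤ) * (t : ℤ))| ≤ H * (2 * V * (2 * V)) := by
      intro x y z s t hx hs ht
      rw [Finset.mem_Ioc] at hs ht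
      rw [abs_mul]
      have h1 : |(s : ℤ) * (t : ℤ)| ≤ 2 * V * (2 * V) := by
        rw [abs_of_nonneg (by positivity)]
        have h2 : (s : ℤ) ≤ 2 * V := by exact_mod_cast hs.2
        have h3 : (t : ℤ) ≤ 2 * V := by exact_mod_cast ht.2
        exact mul_le_mul h2 h3 (by positivity) (by positivity)
      exact mul_le_mul hx h1 (abs_nonneg _) (by positivity)
    have hDn : D.natAbs ≤ Z := by
      have h1 := hprod h 0 0 w1 w2 (habs h hh) hw1' hw2'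
      have h2 := hprod h' 0 0 v1 v2 (habs h' hh') hv1 hv2
      have h3 : |D| ≤ 8 * H * V ^ 2 := by
        rw [hD]
        refine (abs_sub _ _).trans ?_
        calc |h * ((w1 : ℤ) * (w2 : ℤ))| + |h' * ((v1 : ℤ) * (v2 : ℤ))|
            ≤ H * (2 * V * (2 * V)) + H * (2 * V * (2 * V)) := add_le_add h1 h2
          _ = 8 * H * V ^ 2 := by ring
      have h4 : (D.natAbs : ℤ) ≤ ((8 * H * V ^ 2 : ℕ) : ℤ) := by
        rw [Int.natCast_natAbs]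
        push_cast
        exact h3
      have h5 : D.natAbs ≤ 8 * H * V ^ 2 := by exact_mod_cast h4
      exact h5.trans hZ8
    have htau : (tau D.natAbs : ℝ) ≤ T := hT _ (Int.natAbs_pos.2 hD0) hDn
    have hF2 := FIX_F2 (N := N) (R := R) (U := U) (e1 := e1) (e2 := e2) hD0 hR hU he1p he2p
    rw [← hO] at hF2
    have hpt : ∀ o ∈ O, ‖∑ n ∈ Finset.Icc (1 : ℤ) N,
        FIXy N a b1 b2 w g e1 e2 o (v1, v2, h) n *
          (starRingEnd ℂ) (FIXy N a b1 b2 w g e1 e2 o (w1, w2, h') n)‖ ≤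
        C1 * T ^ 3 * N * Y * (if o.2.1 ∈ Lr N o.1 then
          ((Int.gcd D (o.1 : ℤ) : ℝ) * (Int.gcd D ((o.2.2.1 / e1 : ℕ) : ℤ) : ℝ) *
            (Int.gcd D ((o.2.2.2 / e2 : ℕ) : ℤ) : ℝ)) else 0) := by
      intro o ho
      rw [hO] at ho
      unfold FIXO at ho
      simp only [Finset.mem_product, Finset.mem_filter] at ho
      obtain ⟨ho1, _, ⟨ho2, _⟩, ho3, _⟩ := ho
      rw [mul_ite, mul_zero]
      refine FIX_off_o (by positivity) hw1 ?_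
      intro k1 k2 k3 k4 k5 k6
      rw [hD]
      exact hss N R U V H Z K B Y T a b1 b2 o.1 o.2.2.1 o.2.2.2 v1 v2 w1 w2 g e1 e2 o.2.1 h h'
        hR hU hV hH hHN hK hKN hK3 hB hY hKB hKY hZ hT hlog ho1 ho2 ho3 hv1 hv2 hw1' hw2'
        (hG _ _ _ _ _ _ _ k5) (hG _ _ _ _ _ _ _ k6) k1 k2 hgH k3.symm k4.symm
        (hwG _ _ _ _ _ _ _ k5).2 (by rw [← hD]; exact hD0)
    refine (Finset.sum_le_sum hpt).trans ?_
    rw [← Finset.mul_sum, hOb]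
    refine mul_le_mul_of_nonneg_left (hF2.trans ?_) (by positivity)
    gcongr
  -- cardinalities
  have hdiag := diag (V := V) (H := H) (g := g) (f1 := g / e1) (f2 := g / e2) (Z := Z) (T := T)
    hg hf1p hf2p hT (by
      refine le_trans ?_ hZ8
      gcongr
      norm_num)
  have hSdef : ((Finset.Ioc V (2 * V)).filter (fun v => g / e1 ∣ v)) ×ˢ
        ((Finset.Ioc V (2 * V)).filter (fun v => g / e2 ∣ v)) ×ˢ Hr H g = S := by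
    rw [hS]; rfl
  rw [hSdef, hf1, hf2] at hdiag
  have hcard : (S.card : ℝ) ≤ (3 * (V : ℝ) / ((g : ℝ) / e1)) *
      ((3 * (V : ℝ) / ((g : ℝ) / e2)) * (2 * (H : ℝ) / g)) := by
    rw [hS]
    unfold FIXI
    rw [Finset.card_product, Finset.card_product]
    push_cast
    have c1 := card_mult (U := V) hf1p
    have c2 := card_mult (U := V) hf2p
    have c3 := card_Hr (H := H) hg
    rw [hf1] at c1
    rw [hf2] at c2
    have p2 : 0 ≤ 3 * (V : ℝ) / ((g : ℝ) / e2) := (Nat.cast_nonneg _).trans c2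
    have p1 : 0 ≤ 3 * (V : ℝ) / ((g : ℝ) / e1) := (Nat.cast_nonneg _).trans c1
    exact mul_le_mul c1 (mul_le_mul c2 c3 (Nat.cast_nonneg _) p2)
      (mul_nonneg (Nat.cast_nonneg _) (Nat.cast_nonneg _)) p1
  have hF2 : ∑ q ∈ S ×ˢ S, ∑ o ∈ O, ‖∑ n ∈ Finset.Icc (1 : ℤ) N,
      FIXy N a b1 b2 w g e1 e2 o q.1 n * (starRingEnd ℂ) (FIXy N a b1 b2 w g e1 e2 o q.2 n)‖ ≤
      (18 * T ^ 2 * ((V : ℝ) / ((g : ℝ) / e1)) * ((V : ℝ) / ((g : ℝ) / e2)) * ((H : ℝ) / g)) * F1b +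
      ((3 * (V : ℝ) / ((g : ℝ) / e1)) *
        ((3 * (V : ℝ) / ((g : ℝ) / e2)) * (2 * (H : ℝ) / g))) ^ 2 * Ob := by
    rw [← Finset.sum_filter_add_sum_filter_not (S ×ˢ S)
      (fun q => q.1.2.2 * ((q.2.1 : ℤ) * (q.2.2.1 : ℤ)) =
        q.2.2.2 * ((q.1.1 : ℤ) * (q.1.2.1 : ℤ)))]
    refine add_le_add ?_ ?_
    · refine (Finset.sum_le_card_nsmul _ _ F1b (fun q hq => ?_)).trans ?_
      · rw [Finset.mem_filter] at hq
        exact hdg q hq.1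
      · rw [nsmul_eq_mul]
        exact mul_le_mul_of_nonneg_right hdiag hF1b0
    · refine (Finset.sum_le_card_nsmul _ _ Ob (fun q hq => ?_)).trans ?_
      · rw [Finset.mem_filter] at hq
        exact hoff q hq.1 hq.2
      · rw [nsmul_eq_mul]
        refine mul_le_mul_of_nonneg_right ?_ hOb0
        have h1 : (((S ×ˢ S).filter (fun q => ¬ (q.1.2.2 * ((q.2.1 : ℤ) * (q.2.2.1 : ℤ)) =
            q.2.2.2 * ((q.1.1 : ℤ) * (q.1.2.1 : ℤ))))).card : ℝ) ≤ ((S ×ˢ S).card : ℝ) := by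
          exact_mod_cast Finset.card_filter_le _ _
        refine h1.trans ?_
        rw [Finset.card_product]
        push_cast
        rw [← sq]
        exact pow_le_pow_left₀ (Nat.cast_nonneg _) hcard 2
  rw [hswap] at hCS
  have hfin : ‖TotG N R U V H β a b1 b2 w g e1 e2‖ ^ 2 ≤ F1b *
      ((18 * T ^ 2 * ((V : ℝ) / ((g : ℝ) / e1)) * ((V : ℝ) / ((g : ℝ) / e2)) * ((H : ℝ) / g)) * F1b +
      ((3 * (V : ℝ) / ((g : ℝ) / e1)) *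
        ((3 * (V : ℝ) / ((g : ℝ) / e2)) * (2 * (H : ℝ) / g))) ^ 2 * Ob) := by
    refine hCS.trans ?_
    refine mul_le_mul hF1 hF2 ?_ hF1b0
    exact Finset.sum_nonneg (fun _ _ => Finset.sum_nonneg (fun _ _ => norm_nonneg _))
  rw [hF1b, hOb] at hfin
  exact FIX_real (by exact_mod_cast hN) (by exact_mod_cast hU) (by exact_mod_cast hV)
    (by exact_mod_cast hH) (by exact_mod_cast hg) (by exact_mod_cast he1p)
    (by exact_mod_cast he2p) hT1 hC1 hY hE hHE hHY (norm_nonneg _) hfin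

end Pool.Agent.BCore
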