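import Pool.Agent.BCore.Fix

/-!
B-CORE: the final statement.
-/

namespace Pool.Agent.BCore

/-- The index set of the `(g, e1, e2)`. -/
def Sg (H : ℕ) : Finset (Σ _ : ℕ, ℕ × ℕ) :=
  (Finset.Icc 1 H).sigma (fun g => g.divisors ×ˢ g.divisors)

open Classical in
theorem point_sum {H : ℕ} {d1 d2 u1 u2 : ℕ} (hd1 : 0 < d1)
    (f : ℤ → ℂ) :
    (∑ h ∈ Hr H (Nat.gcd d1 d2), f h * ((Nat.gcd d1 d2 : ℕ) : ℂ)) =
      ∑ q ∈ Sg H, (q.1 : ℂ) * ∑ h ∈ Hr H q.1,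
        if (Nat.gcd d1 d2 = q.1 ∧ Nat.gcd q.1 u1 = q.2.1 ∧ Nat.gcd q.1 u2 = q.2.2) then f h
        else 0 := by
  set G := Nat.gcd d1 d2 with hG
  have hG0 : 0 < G := Nat.gcd_pos_of_pos_left _ hd1
  by_cases hGH : G ≤ H
  · rw [Finset.sum_eq_single (⟨G, (Nat.gcd G u1, Nat.gcd G u2)⟩ : Σ _ : ℕ, ℕ × ℕ)]
    · simp only [and_self, if_true]
      rw [Finset.mul_sum]
      apply Finset.sum_congr rfl
      intro h _
      ring
    · intro q _ hq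
      have : ∀ h ∈ Hr H q.1, (if (G = q.1 ∧ Nat.gcd q.1 u1 = q.2.1 ∧ Nat.gcd q.1 u2 = q.2.2)
          then f h else 0) = 0 := by
        intro h _
        rw [if_neg]
        rintro ⟨e1, e2, e3⟩
        apply hq
        obtain ⟨g, e, e'⟩ := q
        simp only at e1 e2 e3
        subst e1
        rw [e2, e3]
      rw [Finset.sum_eq_zero this, mul_zero]
    · intro hn
      exfalso
      apply hn
      unfold Sg
      rw [Finset.mem_sigma]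
      refine ⟨Finset.mem_Icc.mpr ⟨hG0, hGH⟩, ?_⟩
      rw [Finset.mem_product]
      exact ⟨Nat.mem_divisors.mpr ⟨Nat.gcd_dvd_left _ _, hG0.ne'⟩,
        Nat.mem_divisors.mpr ⟨Nat.gcd_dvd_left _ _, hG0.ne'⟩⟩
  · have h1 : Hr H G = ∅ := by
      unfold Hr
      rw [Finset.filter_eq_empty_iff]
      rintro h - ⟨h0, hle⟩
      have h2 : 1 ≤ |h| := Int.one_le_abs h0
      have h3 : (G : ℤ) ≤ |h| * G := le_mul_of_one_le_left (by positivity) h2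
      have h4 : (G : ℤ) ≤ H := h3.trans hle
      exact hGH (by exact_mod_cast h4)
    rw [h1, Finset.sum_empty]
    symm
    apply Finset.sum_eq_zero
    intro q hq
    have hqH : q.1 ≤ H := by
      unfold Sg at hq
      exact (Finset.mem_Icc.mp (Finset.mem_sigma.mp hq).1).2
    have : ∀ h ∈ Hr H q.1, (if (G = q.1 ∧ Nat.gcd q.1 u1 = q.2.1 ∧ Nat.gcd q.1 u2 = q.2.2)
        then f h else 0) = 0 := by
      intro h _
      rw [if_neg]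
      rintro ⟨e1, -, -⟩
      exact hGH (e1 ▸ hqH)
    rw [Finset.sum_eq_zero this, mul_zero]

theorem tot_eq (N R U V H : ℕ) (β : ℤ → ℂ) (a b1 b2 : ℤ)
    (w : ℕ → ℤ → ℕ → ℕ → ℕ → ℕ → ℤ → ℂ) (hU : 1 ≤ U) :
    Tot N R U V H β a b1 b2 w =
      ∑ q ∈ Sg H, (q.1 : ℂ) * TotG N R U V H β a b1 b2 w q.1 q.2.1 q.2.2 := by
  classical
  unfold TotG
  simp only [Finset.mul_sum]
  symm
  refine Finset.sum_comm.trans ?_
  unfold Tot
  refine Finset.sum_congr rfl fun r _ => ?_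
  refine Finset.sum_comm.trans ?_
  refine Finset.sum_congr rfl fun l _ => ?_
  refine Finset.sum_comm.trans ?_
  refine Finset.sum_congr rfl fun u1 hu1 => ?_
  refine Finset.sum_comm.trans ?_
  refine Finset.sum_congr rfl fun v1 hv1 => ?_
  refine Finset.sum_comm.trans ?_
  refine Finset.sum_congr rfl fun u2 _ => ?_
  refine Finset.sum_comm.trans ?_
  refine Finset.sum_congr rfl fun v2 _ => ?_
  have hu : 0 < u1 := lt_of_lt_of_le hU (Finset.mem_Icc.mp hu1).1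
  have hv : 0 < v1 := lt_of_le_of_lt (Nat.zero_le _) (Finset.mem_Ioc.mp hv1).1
  have key := point_sum (H := H) (d1 := u1 * v1) (d2 := u2 * v2) (u1 := u1) (u2 := u2)
    (Nat.mul_pos hu hv)
    (fun h => w r l u1 v1 u2 v2 h * SN N β a b1 b2 r l (u1 * v1) (u2 * v2) h)
  simp only [Finset.mul_sum] at key
  refine key.symm.trans ?_
  refine Finset.sum_congr rfl fun h _ => ?_
  ring

/-- `B-CORE`. `beta` bounded by 1; arbitrary weights `w` of modulus at most 1, supported on good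
tuples whose `r` has divisors in all windows. -/
theorem bcore : ∃ (C : ℝ) (c0 : ℕ), 0 < C ∧ ∀ (N R U V H Z : ℕ) (K B Y E T : ℝ) (a b1 b2 : ℤ)
    (β : ℤ → ℂ) (w : ℕ → ℤ → ℕ → ℕ → ℕ → ℕ → ℤ → ℂ),
    1 ≤ R → 1 ≤ U → 1 ≤ V → 1 ≤ H → H ≤ N → 0 < K → K ≤ N → K ^ 3 = R * U ^ 2 * V ^ 4 →
    1 ≤ B → 0 ≤ Y → K * B ≤ Y ^ 2 * N → K ≤ Y ^ 4 * (R * U * V) →
    0 ≤ E → (H : ℝ) ≤ E ^ 2 * V ^ 2 → (H : ℝ) ^ 2 * Y ≤ E ^ 2 →
    2 ^ 10 * R * U ^ 2 * V ^ 4 * H * N ≤ Z → (∀ m : ℕ, 1 ≤ m → m ≤ Z → (tau m : ℝ) ≤ T) →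
    1 + Real.log Z ≤ T → (∀ n, ‖β n‖ ≤ 1) → (∀ r l u1 v1 u2 v2 h, ‖w r l u1 v1 u2 v2 h‖ ≤ 1) →
    (∀ r l u1 v1 u2 v2 h, w r l u1 v1 u2 v2 h ≠ 0 → Good a b1 b2 r u1 v1 u2 v2 ∧ Win H V K B r) →
    ‖Tot N R U V H β a b1 b2 w‖ ≤ C * T ^ c0 * (N : ℝ) ^ 2 * (U : ℝ) ^ 2 * (V : ℝ) ^ 2 * E := by
  obtain ⟨C, c0, hC, hfix⟩ := fix_bound
  refine ⟨C, c0 + 3, hC, ?_⟩
  intro N R U V H Z K B Y E T a b1 b2 β w hR hU hV hH hHN hK hKN hK3 hB hY hY1 hY2 hE hE1 hE2 hZ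
    hT hTl hβ hw hwG
  have hHZ : H ≤ Z := by
    refine le_trans ?_ hZ
    have h1 : 1 ≤ N := hH.trans hHN
    have : 1 * H * 1 ≤ 2 ^ 10 * R * U ^ 2 * V ^ 4 * H * N := by
      gcongr
      calc 1 = 1 * 1 * 1 ^ 2 * 1 ^ 4 := by norm_num
        _ ≤ 2 ^ 10 * R * U ^ 2 * V ^ 4 := by gcongr; norm_num
    simpa using this
  have hT1 : 1 ≤ T := by
    have := hT 1 le_rfl (hH.trans hHZ)
    simpa [tau] using this
  set Bd : ℝ := C * T ^ c0 * (N : ℝ) ^ 2 * (U : ℝ) ^ 2 * (V : ℝ) ^ 2 * E with hBd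
  have hBd0 : 0 ≤ Bd := by positivity
  rw [tot_eq _ _ _ _ _ _ _ _ _ _ hU]
  have hone : ∀ q ∈ Sg H, ‖(q.1 : ℂ) * TotG N R U V H β a b1 b2 w q.1 q.2.1 q.2.2‖ ≤
      Bd * (1 / (q.1 : ℝ)) := by
    intro q hq
    unfold Sg at hq
    rw [Finset.mem_sigma, Finset.mem_Icc, Finset.mem_product, Nat.mem_divisors,
      Nat.mem_divisors] at hq
    obtain ⟨⟨hg1, hgH⟩, ⟨he1, -⟩, ⟨he2, -⟩⟩ := hq
    have h := hfix N R U V H Z K B Y E T a b1 b2 β w q.1 q.2.1 q.2.2 hR hU hV hH hHN hK hKN hK3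
      hB hY hY1 hY2 hE hE1 hE2 hZ hT hTl hβ hw hwG hg1 hgH he1 he2
    have hg0 : (0 : ℝ) < q.1 := by exact_mod_cast hg1
    rw [norm_mul, Complex.norm_natCast]
    rw [mul_one_div, le_div_iff₀ hg0]
    calc (q.1 : ℝ) * ‖TotG N R U V H β a b1 b2 w q.1 q.2.1 q.2.2‖ * q.1
        = ‖TotG N R U V H β a b1 b2 w q.1 q.2.1 q.2.2‖ * (q.1 : ℝ) ^ 2 := by ring
      _ ≤ Bd := h
  refine (norm_sum_le_of_le _ hone).trans ?_
  rw [← Finset.mul_sum]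
  have hsum : (∑ q ∈ Sg H, (1 : ℝ) / (q.1 : ℝ)) ≤ T ^ 3 := by
    unfold Sg
    rw [Finset.sum_sigma]
    have h1 : ∀ g ∈ Finset.Icc 1 H, (∑ _e ∈ g.divisors ×ˢ g.divisors, (1 : ℝ) / (g : ℝ)) ≤
        T ^ 2 * (1 / (g : ℝ)) := by
      intro g hg
      obtain ⟨hg1, hgH⟩ := Finset.mem_Icc.mp hg
      rw [Finset.sum_const, Finset.card_product, nsmul_eq_mul]
      have ht := hT g hg1 (hgH.trans hHZ)
      unfold tau at ht
      push_cast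
      apply mul_le_mul_of_nonneg_right _ (by positivity)
      rw [sq]
      exact mul_le_mul ht ht (by positivity) (by linarith)
    refine (Finset.sum_le_sum h1).trans ?_
    rw [← Finset.mul_sum]
    have h2 : (∑ g ∈ Finset.Icc 1 H, (1 : ℝ) / (g : ℝ)) ≤ T := by
      have h3 := harmonic_le_one_add_log H
      have h4 : ((harmonic H : ℚ) : ℝ) = ∑ g ∈ Finset.Icc 1 H, (1 : ℝ) / (g : ℝ) := by
        rw [harmonic_eq_sum_Icc]
        push_cast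
        apply Finset.sum_congr rfl
        intro g _
        rw [one_div]
      rw [← h4]
      refine h3.trans (le_trans ?_ hTl)
      have : Real.log H ≤ Real.log Z := by
        apply Real.log_le_log
        · exact_mod_cast hH
        · exact_mod_cast hHZ
      linarith
    calc T ^ 2 * ∑ g ∈ Finset.Icc 1 H, (1 : ℝ) / (g : ℝ) ≤ T ^ 2 * T := by gcongr
      _ = T ^ 3 := by ring
  calc Bd * ∑ q ∈ Sg H, (1 : ℝ) / (q.1 : ℝ) ≤ Bd * T ^ 3 := by gcongr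
    _ = C * T ^ (c0 + 3) * (N : ℝ) ^ 2 * (U : ℝ) ^ 2 * (V : ℝ) ^ 2 * E := by
      rw [hBd, pow_add]
      ring

end Pool.Agent.BCore
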