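import Pool.Agent.BCore.PhaseA

/-!
B-CORE module PHASE: the product of two phase functions with the same `r`,
`l`, `u1`, `u2` is a `k`-periodic function times a shifted Kloosterman phase modulo `L`.
-/

namespace Pool.Agent.BCore

/-- The part `kap` of the modulus that is put into the period. -/
def kap (g v1 v2 w1 w2 : ℕ) : ℕ := Nat.lcm g (Nat.lcm (Nat.lcm v1 v2) (Nat.lcm w1 w2))

/-- The full modulus. -/
def Pi6 (r u1 u2 v1 v2 w1 w2 : ℕ) : ℕ :=
  r * Nat.lcm (Nat.lcm u1 u2) (Nat.lcm (Nat.lcm v1 v2) (Nat.lcm w1 w2))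

theorem squarefree_lcm {m n : ℕ} (hm : Squarefree m) (hn : Squarefree n) :
    Squarefree (Nat.lcm m n) := by
  have h0 : Nat.lcm m n ≠ 0 := Nat.lcm_ne_zero hm.ne_zero hn.ne_zero
  rw [Nat.squarefree_iff_factorization_le_one h0]
  intro p
  rw [Nat.factorization_lcm hm.ne_zero hn.ne_zero]
  have h1 := (Nat.squarefree_iff_factorization_le_one hm.ne_zero).mp hm p
  have h2 := (Nat.squarefree_iff_factorization_le_one hn.ne_zero).mp hn p
  simpa using ⟨h1, h2⟩

theorem prime_dvd_lcm {p m n : ℕ} (hp : p.Prime) (h : p ∣ Nat.lcm m n) : p ∣ m ∨ p ∣ n :=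
  (hp.dvd_mul).mp (h.trans (Nat.lcm_dvd_mul m n))

/-- Arithmetic facts on the moduli. -/
theorem moduli {r u1 u2 v1 v2 w1 w2 g r1 : ℕ}
    (s1 : Squarefree (r * (u1 * v1))) (s2 : Squarefree (r * (u2 * v2)))
    (s3 : Squarefree (r * (u1 * w1))) (s4 : Squarefree (r * (u2 * w2)))
    (hg : Nat.gcd (u1 * v1) (u2 * v2) = g) (hg' : Nat.gcd (u1 * w1) (u2 * w2) = g)
    (hr1 : r1 ∣ r) :
    Squarefree (Pi6 r u1 u2 v1 v2 w1 w2) ∧
    r1 * kap g v1 v2 w1 w2 ∣ Pi6 r u1 u2 v1 v2 w1 w2 ∧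
    Pm r (u1 * v1) (u2 * v2) ∣ Pi6 r u1 u2 v1 v2 w1 w2 ∧
    Pm r (u1 * w1) (u2 * w2) ∣ Pi6 r u1 u2 v1 v2 w1 w2 ∧
    Pm r (u1 * v1) (u2 * v2) * (w1 * w2) = Pm r (u1 * w1) (u2 * w2) * (v1 * v2) := by
  obtain ⟨c1, hr, s1'⟩ := (Nat.squarefree_mul_iff).mp s1
  obtain ⟨c2, -, s2'⟩ := (Nat.squarefree_mul_iff).mp s2
  obtain ⟨c3, -, s3'⟩ := (Nat.squarefree_mul_iff).mp s3
  obtain ⟨c4, -, s4'⟩ := (Nat.squarefree_mul_iff).mp s4
  obtain ⟨k1, su1, sv1⟩ := (Nat.squarefree_mul_iff).mp s1'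
  obtain ⟨k2, su2, sv2⟩ := (Nat.squarefree_mul_iff).mp s2'
  obtain ⟨k3, -, sw1⟩ := (Nat.squarefree_mul_iff).mp s3'
  obtain ⟨k4, -, sw2⟩ := (Nat.squarefree_mul_iff).mp s4'
  set M := Nat.lcm (Nat.lcm u1 u2) (Nat.lcm (Nat.lcm v1 v2) (Nat.lcm w1 w2)) with hM
  have hu1M : u1 ∣ M := (Nat.dvd_lcm_left u1 u2).trans (Nat.dvd_lcm_left _ _)
  have hu2M : u2 ∣ M := (Nat.dvd_lcm_right u1 u2).trans (Nat.dvd_lcm_left _ _)
  have hv1M : v1 ∣ M := ((Nat.dvd_lcm_left v1 v2).trans (Nat.dvd_lcm_left _ _)).trans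
    (Nat.dvd_lcm_right _ _)
  have hv2M : v2 ∣ M := ((Nat.dvd_lcm_right v1 v2).trans (Nat.dvd_lcm_left _ _)).trans
    (Nat.dvd_lcm_right _ _)
  have hw1M : w1 ∣ M := ((Nat.dvd_lcm_left w1 w2).trans (Nat.dvd_lcm_right _ _)).trans
    (Nat.dvd_lcm_right _ _)
  have hw2M : w2 ∣ M := ((Nat.dvd_lcm_right w1 w2).trans (Nat.dvd_lcm_right _ _)).trans
    (Nat.dvd_lcm_right _ _)
  have hM1 : u1 * v1 ∣ M := k1.mul_dvd_of_dvd_of_dvd hu1M hv1M
  have hM2 : u2 * v2 ∣ M := k2.mul_dvd_of_dvd_of_dvd hu2M hv2M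
  have hM3 : u1 * w1 ∣ M := k3.mul_dvd_of_dvd_of_dvd hu1M hw1M
  have hM4 : u2 * w2 ∣ M := k4.mul_dvd_of_dvd_of_dvd hu2M hw2M
  have hMsq : Squarefree M :=
    squarefree_lcm (squarefree_lcm su1 su2)
      (squarefree_lcm (squarefree_lcm sv1 sv2) (squarefree_lcm sw1 sw2))
  have hrM : Nat.Coprime r M := by
    apply Nat.Coprime.symm
    apply Nat.coprime_of_dvd
    intro p hp hpM hpr
    have hnot : ∀ x : ℕ, Nat.Coprime r x → ¬ p ∣ x := by
      intro x hx hpx
      have := Nat.dvd_gcd hpr hpx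
      rw [hx] at this
      exact hp.one_lt.ne' (Nat.dvd_one.mp this)
    rcases prime_dvd_lcm hp hpM with h | h
    · rcases prime_dvd_lcm hp h with h | h
      · exact hnot _ c1 (h.mul_right _)
      · exact hnot _ c2 (h.mul_right _)
    · rcases prime_dvd_lcm hp h with h | h
      · rcases prime_dvd_lcm hp h with h | h
        · exact hnot _ c1 (h.mul_left _)
        · exact hnot _ c2 (h.mul_left _)
      · rcases prime_dvd_lcm hp h with h | h
        · exact hnot _ c3 (h.mul_left _)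
        · exact hnot _ c4 (h.mul_left _)
  have hgM : g ∣ M := by
    rw [← hg]
    exact (Nat.gcd_dvd_left _ _).trans hM1
  have hvM : Nat.lcm (Nat.lcm v1 v2) (Nat.lcm w1 w2) ∣ M := Nat.dvd_lcm_right _ _
  refine ⟨?_, ?_, ?_, ?_, ?_⟩
  · exact (Nat.squarefree_mul_iff).mpr ⟨hrM, hr, hMsq⟩
  · exact mul_dvd_mul hr1 (Nat.lcm_dvd hgM hvM)
  · exact mul_dvd_mul dvd_rfl (Nat.lcm_dvd hM1 hM2)
  · exact mul_dvd_mul dvd_rfl (Nat.lcm_dvd hM3 hM4)
  · have e1 := Nat.gcd_mul_lcm (u1 * v1) (u2 * v2)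
    have e2 := Nat.gcd_mul_lcm (u1 * w1) (u2 * w2)
    rw [hg] at e1
    rw [hg'] at e2
    have hg0 : 0 < g := by
      rw [← hg]
      exact Nat.gcd_pos_of_pos_left _ (Nat.pos_of_ne_zero s1'.ne_zero)
    apply Nat.eq_of_mul_eq_mul_left hg0
    unfold Pm
    calc g * (r * Nat.lcm (u1 * v1) (u2 * v2) * (w1 * w2))
        = r * (g * Nat.lcm (u1 * v1) (u2 * v2)) * (w1 * w2) := by ring
      _ = r * (g * Nat.lcm (u1 * w1) (u2 * w2)) * (v1 * v2) := by
          rw [e1, e2]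
          ring
      _ = g * (r * Nat.lcm (u1 * w1) (u2 * w2) * (v1 * v2)) := by ring

/-- Classification of the primes of `L`. -/
theorem lok_of {r u1 u2 v1 v2 w1 w2 g r1 L : ℕ}
    (s1 : Squarefree (r * (u1 * v1))) (s2 : Squarefree (r * (u2 * v2)))
    (hg : Nat.gcd (u1 * v1) (u2 * v2) = g)
    (hkL : Nat.Coprime (r1 * kap g v1 v2 w1 w2) L)
    (hLP : L ∣ Pi6 r u1 u2 v1 v2 w1 w2) :
    ∀ p : ℕ, p.Prime → p ∣ L →
      (¬ p ∣ g ∧ ¬ p ∣ v1 ∧ ¬ p ∣ v2 ∧ ¬ p ∣ w1 ∧ ¬ p ∣ w2) ∧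
      ((p ∣ r ∧ ¬ p ∣ u1 ∧ ¬ p ∣ u2) ∨ (¬ p ∣ r ∧ p ∣ u1 ∧ ¬ p ∣ u2) ∨
        (¬ p ∣ r ∧ ¬ p ∣ u1 ∧ p ∣ u2)) := by
  intro p hp hpL
  have hk : ¬ p ∣ kap g v1 v2 w1 w2 := by
    intro h
    have h1 : p ∣ r1 * kap g v1 v2 w1 w2 := h.mul_left _
    have := Nat.dvd_gcd h1 hpL
    rw [hkL] at this
    exact hp.one_lt.ne' (Nat.dvd_one.mp this)
  have hpg : ¬ p ∣ g := fun h => hk (h.trans (Nat.dvd_lcm_left _ _))
  have hpv1 : ¬ p ∣ v1 := fun h => hk (((h.trans (Nat.dvd_lcm_left v1 v2)).trans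
    (Nat.dvd_lcm_left _ _)).trans (Nat.dvd_lcm_right _ _))
  have hpv2 : ¬ p ∣ v2 := fun h => hk (((h.trans (Nat.dvd_lcm_right v1 v2)).trans
    (Nat.dvd_lcm_left _ _)).trans (Nat.dvd_lcm_right _ _))
  have hpw1 : ¬ p ∣ w1 := fun h => hk (((h.trans (Nat.dvd_lcm_left w1 w2)).trans
    (Nat.dvd_lcm_right _ _)).trans (Nat.dvd_lcm_right _ _))
  have hpw2 : ¬ p ∣ w2 := fun h => hk (((h.trans (Nat.dvd_lcm_right w1 w2)).trans
    (Nat.dvd_lcm_right _ _)).trans (Nat.dvd_lcm_right _ _))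
  refine ⟨⟨hpg, hpv1, hpv2, hpw1, hpw2⟩, ?_⟩
  obtain ⟨c1, -, -⟩ := (Nat.squarefree_mul_iff).mp s1
  obtain ⟨c2, -, -⟩ := (Nat.squarefree_mul_iff).mp s2
  have hnot : ∀ x y : ℕ, Nat.Coprime x y → p ∣ x → ¬ p ∣ y := by
    intro x y hxy hpx hpy
    have := Nat.dvd_gcd hpx hpy
    rw [hxy] at this
    exact hp.one_lt.ne' (Nat.dvd_one.mp this)
  have hu12 : p ∣ u1 → ¬ p ∣ u2 := by
    intro h1 h2
    apply hpg
    rw [← hg]
    exact Nat.dvd_gcd (h1.mul_right _) (h2.mul_right _)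
  have h1 := hpL.trans hLP
  unfold Pi6 at h1
  rcases (hp.dvd_mul).mp h1 with h | h
  · left
    exact ⟨h, fun h' => hnot _ _ c1 h (h'.mul_right _), fun h' => hnot _ _ c2 h (h'.mul_right _)⟩
  · rcases prime_dvd_lcm hp h with h | h
    · rcases prime_dvd_lcm hp h with h | h
      · right
        left
        exact ⟨fun h' => hnot _ _ c1 h' (h.mul_right _), h, hu12 h⟩
      · right
        right
        exact ⟨fun h' => hnot _ _ c2 h' (h.mul_right _), fun h' => hu12 h' h, h⟩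
    · exfalso
      rcases prime_dvd_lcm hp h with h | h
      · rcases prime_dvd_lcm hp h with h | h
        · exact hpv1 h
        · exact hpv2 h
      · rcases prime_dvd_lcm hp h with h | h
        · exact hpw1 h
        · exact hpw2 h

theorem lok_pair {L r u1 u2 v1 v2 : ℕ}
    (h : ∀ p : ℕ, p.Prime → p ∣ L → (¬ p ∣ v1 ∧ ¬ p ∣ v2) ∧
      ((p ∣ r ∧ ¬ p ∣ u1 ∧ ¬ p ∣ u2) ∨ (¬ p ∣ r ∧ p ∣ u1 ∧ ¬ p ∣ u2) ∨
        (¬ p ∣ r ∧ ¬ p ∣ u1 ∧ p ∣ u2))) : Lok L r (u1 * v1) (u2 * v2) := by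
  intro p hp hpL
  obtain ⟨⟨n1, n2⟩, h3⟩ := h p hp hpL
  have e1 : p ∣ u1 * v1 ↔ p ∣ u1 := by
    rw [hp.dvd_mul]
    exact ⟨fun h => h.resolve_right n1, Or.inl⟩
  have e2 : p ∣ u2 * v2 ↔ p ∣ u2 := by
    rw [hp.dvd_mul]
    exact ⟨fun h => h.resolve_right n2, Or.inl⟩
  rw [e1, e2]
  exact h3

theorem spec_pair {a b1 b2 : ℤ} {L r u1 u2 v1 v2 : ℕ} {l l0 s : ℤ}
    (h : ∀ p : ℕ, p.Prime → p ∣ L → (¬ p ∣ v1 ∧ ¬ p ∣ v2))
    (hS : Spec a b1 b2 L r l u1 u2 l0 s) : Spec a b1 b2 L r l (u1 * v1) (u2 * v2) l0 s := by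
  intro p hp hpL
  obtain ⟨n1, n2⟩ := h p hp hpL
  have e1 : p ∣ u1 * v1 ↔ p ∣ u1 := by
    rw [hp.dvd_mul]
    exact ⟨fun h => h.resolve_right n1, Or.inl⟩
  have e2 : p ∣ u2 * v2 ↔ p ∣ u2 := by
    rw [hp.dvd_mul]
    exact ⟨fun h => h.resolve_right n2, Or.inl⟩
  rw [e1, e2]
  exact hS p hp hpL

theorem exists_spec (a b1 b2 : ℤ) {L r u1 u2 : ℕ} (l : ℤ) (hL0 : L ≠ 0)
    (h : ∀ p : ℕ, p.Prime → p ∣ L →
      ((p ∣ r ∧ ¬ p ∣ u1 ∧ ¬ p ∣ u2) ∨ (¬ p ∣ r ∧ p ∣ u1 ∧ ¬ p ∣ u2) ∨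
        (¬ p ∣ r ∧ ¬ p ∣ u1 ∧ p ∣ u2))) : ∃ l0 s : ℤ, Spec a b1 b2 L r l u1 u2 l0 s := by
  classical
  obtain ⟨l0, hl0⟩ := crt_primes L.primeFactors (fun p hp => Nat.prime_of_mem_primeFactors hp)
    (fun p => if p ∣ u2 then l * r else 0)
  obtain ⟨s, hs⟩ := crt_primes L.primeFactors (fun p hp => Nat.prime_of_mem_primeFactors hp)
    (fun p => if p ∣ r then a else if p ∣ u1 then b1 else b2)
  refine ⟨l0, s, ?_⟩
  intro p hp hpL
  have hmem : p ∈ L.primeFactors := Nat.mem_primeFactors.mpr ⟨hp, hpL, hL0⟩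
  have e1 := hl0 p hmem
  have e2 := hs p hmem
  rcases h p hp hpL with ⟨k1, k2, k3⟩ | ⟨k1, k2, k3⟩ | ⟨k1, k2, k3⟩
  · simp only [k1, k3, if_true, if_false, sub_zero] at e1 e2
    exact ⟨fun h => absurd h k3, fun _ => e1, fun _ => e2, fun h => absurd h k2,
      fun h => absurd h k3⟩
  · simp only [k1, k2, k3, if_true, if_false, sub_zero] at e1 e2
    exact ⟨fun h => absurd h k3, fun _ => e1, fun h => absurd h k1, fun _ => e2,
      fun h => absurd h k3⟩
  · simp only [k1, k2, k3, if_true, if_false, sub_zero] at e1 e2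
    exact ⟨fun _ => e1, fun h => absurd k3 h, fun h => absurd h k1, fun h => absurd h k2,
      fun _ => e2⟩

theorem W_periodic {a b1 b2 : ℤ} {r d1 d2 M : ℕ} (l h : ℤ) (hP : Pm r d1 d2 ∣ M) (n t : ℤ) :
    W a b1 b2 r l d1 d2 h (n + (M : ℤ) * t) = W a b1 b2 r l d1 d2 h n := by
  classical
  unfold W
  apply Finset.sum_congr rfl
  intro c _
  have hr : (r : ℤ) ∣ (M : ℤ) := by
    exact_mod_cast (Dvd.intro _ rfl : r ∣ Pm r d1 d2).trans hP
  have h1 : (d1 : ℤ) ∣ (M : ℤ) := by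
    exact_mod_cast ((Nat.dvd_lcm_left d1 d2).trans (Dvd.intro_left r rfl)).trans hP
  have h2 : (d2 : ℤ) ∣ (M : ℤ) := by
    exact_mod_cast ((Nat.dvd_lcm_right d1 d2).trans (Dvd.intro_left r rfl)).trans hP
  have key : ∀ (m z s : ℤ), m ∣ (M : ℤ) →
      (m ∣ (c : ℤ) * (z + (M : ℤ) * t) - s ↔ m ∣ (c : ℤ) * z - s) := by
    intro m z s hm
    have e : (c : ℤ) * (z + (M : ℤ) * t) - s = ((c : ℤ) * z - s) + (M : ℤ) * (c * t) := by ring
    rw [e]
    exact (dvd_add_left (hm.mul_right _))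
  have hiff : Cls a b1 b2 r l d1 d2 (n + (M : ℤ) * t) c ↔ Cls a b1 b2 r l d1 d2 n c := by
    unfold Cls
    have e3 : n + (M : ℤ) * t + l * r = (n + l * r) + (M : ℤ) * t := by ring
    rw [e3, key _ n a hr, key _ n b1 h1, key _ (n + l * r) b2 h2]
  simp only [hiff]

theorem phase {a b1 b2 : ℤ} {r u1 u2 v1 v2 w1 w2 g r1 : ℕ} {l : ℤ}
    (hG : Good a b1 b2 r u1 v1 u2 v2) (hG' : Good a b1 b2 r u1 w1 u2 w2)
    (hg : Nat.gcd (u1 * v1) (u2 * v2) = g) (hg' : Nat.gcd (u1 * w1) (u2 * w2) = g)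
    (hr1 : r1 ∣ r) (h h' : ℤ) :
    ∃ (L : ℕ) (G : ℤ → ℂ) (c l0 : ℤ),
      r1 * kap g v1 v2 w1 w2 * L = Pi6 r u1 u2 v1 v2 w1 w2 ∧
      Nat.Coprime (r1 * kap g v1 v2 w1 w2) L ∧ Squarefree L ∧
      (∀ n, G (n + ((r1 * kap g v1 v2 w1 w2 : ℕ) : ℤ)) = G n) ∧ (∀ n, ‖G n‖ ≤ 1) ∧
      Int.gcd c (L : ℤ) = Int.gcd (h * (w1 * w2) - h' * (v1 * v2)) (L : ℤ) ∧
      ∀ n, W a b1 b2 r l (u1 * v1) (u2 * v2) h n *
        (starRingEnd ℂ) (W a b1 b2 r l (u1 * w1) (u2 * w2) h' n) = G n * KL L c (n + l0) := by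
  obtain ⟨s1, s2, ca, cb1, cb1', cb2', cb2⟩ := hG
  obtain ⟨s3, s4, -, cc1, -, -, cc2⟩ := hG'
  obtain ⟨hPsq, hkP, hP1, hP2, hPP⟩ := moduli s1 s2 s3 s4 hg hg' hr1
  set k := r1 * kap g v1 v2 w1 w2 with hk
  set Q := Pi6 r u1 u2 v1 v2 w1 w2 with hQ
  set P1 := Pm r (u1 * v1) (u2 * v2) with hP1d
  set P2 := Pm r (u1 * w1) (u2 * w2) with hP2d
  obtain ⟨L, hkL⟩ := hkP
  obtain ⟨m1, hm1⟩ := hP1
  obtain ⟨m2, hm2⟩ := hP2
  have hkLsq : Squarefree (k * L) := by
    rw [← hkL]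
    exact hPsq
  obtain ⟨hcop, hksq, hLsq⟩ := (Nat.squarefree_mul_iff).mp hkLsq
  have hLQ : L ∣ Q := Dvd.intro_left k hkL.symm
  have hcl := lok_of (w1 := w1) (w2 := w2) s1 s2 hg (hk ▸ hcop) hLQ
  have hlok1 : Lok L r (u1 * v1) (u2 * v2) :=
    lok_pair (fun p hp hpL => ⟨⟨(hcl p hp hpL).1.2.1, (hcl p hp hpL).1.2.2.1⟩, (hcl p hp hpL).2⟩)
  have hlok2 : Lok L r (u1 * w1) (u2 * w2) :=
    lok_pair (fun p hp hpL => ⟨⟨(hcl p hp hpL).1.2.2.2.1, (hcl p hp hpL).1.2.2.2.2⟩,
      (hcl p hp hpL).2⟩)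
  obtain ⟨l0, s, hspec⟩ := exists_spec a b1 b2 l hLsq.ne_zero (fun p hp hpL => (hcl p hp hpL).2)
  have hspec1 : Spec a b1 b2 L r l (u1 * v1) (u2 * v2) l0 s :=
    spec_pair (fun p hp hpL => ⟨(hcl p hp hpL).1.2.1, (hcl p hp hpL).1.2.2.1⟩) hspec
  have hspec2 : Spec a b1 b2 L r l (u1 * w1) (u2 * w2) l0 s :=
    spec_pair (fun p hp hpL => ⟨(hcl p hp hpL).1.2.2.2.1, (hcl p hp hpL).1.2.2.2.2⟩) hspec
  have hQ0 : 0 < Q := Nat.pos_of_ne_zero hPsq.ne_zero
  have hk0 : 0 < k := Nat.pos_of_ne_zero hksq.ne_zero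
  have hL0 : 0 < L := Nat.pos_of_ne_zero hLsq.ne_zero
  have hP1sq : Squarefree P1 := hPsq.squarefree_of_dvd (Dvd.intro m1 hm1.symm)
  have hP2sq : Squarefree P2 := hPsq.squarefree_of_dvd (Dvd.intro m2 hm2.symm)
  -- inverse of k modulo L
  obtain ⟨kb, y0, hkb⟩ : ∃ x y : ℤ, x * k + y * L = 1 :=
    Nat.isCoprime_iff_coprime.mpr hcop
  set Yc : ℤ := h * m1 - h' * m2 with hYc
  set c : ℤ := Yc * s * kb with hcd
  -- the base point
  set n0 : ℤ → ℤ := fun n => n + k * kb * (1 - l0 - n) with hn0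
  have hn0k : ∀ n, (k : ℤ) ∣ n0 n - n := by
    intro n
    refine ⟨kb * (1 - l0 - n), ?_⟩
    simp only [hn0]
    ring
  have hn0L : ∀ n, (L : ℤ) ∣ 1 * (n0 n + l0) - 1 := by
    intro n
    refine ⟨-(y0 * (1 - l0 - n)), ?_⟩
    have e : (k : ℤ) * kb = 1 - y0 * L := by linarith
    simp only [hn0]
    rw [e]
    ring
  set F : ℤ → ℂ := fun n => W a b1 b2 r l (u1 * v1) (u2 * v2) h n *
    (starRingEnd ℂ) (W a b1 b2 r l (u1 * w1) (u2 * w2) h' n) with hF
  have hFper : ∀ n t : ℤ, F (n + (Q : ℤ) * t) = F n := by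
    intro n t
    simp only [hF]
    rw [W_periodic l h (Dvd.intro m1 hm1.symm : P1 ∣ Q) n t,
      W_periodic l h' (Dvd.intro m2 hm2.symm : P2 ∣ Q) n t]
  have hFnorm : ∀ n, ‖F n‖ ≤ 1 := by
    intro n
    simp only [hF]
    rw [norm_mul, RCLike.norm_conj]
    exact mul_le_one₀ (W_norm_le hP1sq ca cb1 cb2 h) (norm_nonneg _)
      (W_norm_le hP2sq ca cc1 cc2 h')
  refine ⟨L, fun n => F (n0 n) * (starRingEnd ℂ) (eN L c), c, l0, hkL.symm, hcop, hLsq,
    ?_, ?_, ?_, ?_⟩
  · -- periodicity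
    intro n
    have e : n0 (n + (k : ℤ)) = n0 n + (Q : ℤ) * y0 := by
      have e1 : (Q : ℤ) = k * L := by exact_mod_cast hkL
      have e2 : (1 : ℤ) - k * kb = y0 * L := by linarith
      have e3 : n0 (n + (k : ℤ)) = n0 n + k * (1 - k * kb) := by
        simp only [hn0]
        ring
      rw [e3, e2, e1]
      ring
    show F (n0 (n + (k : ℤ))) * _ = F (n0 n) * _
    rw [e, hFper]
  · intro n
    rw [norm_mul, RCLike.norm_conj, eN_norm, mul_one]
    exact hFnorm _
  · -- the gcd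
    apply gcd_eq_of_primes hLsq
    intro p hp hpL
    have hpp : Prime (p : ℤ) := Nat.prime_iff_prime_int.mp hp
    have hps : ¬ (p : ℤ) ∣ s := s_unit hlok1 hspec1 ca cb1 cb2 hp hpL
    have hpL' : (p : ℤ) ∣ (L : ℤ) := by exact_mod_cast hpL
    have hpkb : ¬ (p : ℤ) ∣ kb := by
      intro hd
      apply hpp.not_dvd_one
      rw [← hkb]
      exact dvd_add (hd.mul_right _) (hpL'.mul_left _)
    have hpP1 : p ∣ P1 := by
      rcases (hcl p hp hpL).2 with ⟨k1, k2, k3⟩ | ⟨k1, k2, k3⟩ | ⟨k1, k2, k3⟩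
      · exact k1.mul_right _
      · exact ((k2.mul_right _).trans (Nat.dvd_lcm_left _ _)).mul_left _
      · exact ((k3.mul_right _).trans (Nat.dvd_lcm_right _ _)).mul_left _
    have hpm1 : ¬ (p : ℤ) ∣ (m1 : ℤ) := by
      intro hd
      have hd' : p ∣ m1 := by exact_mod_cast hd
      have h2 : p * p ∣ Q := by
        rw [hm1]
        exact mul_dvd_mul hpP1 hd'
      exact hp.one_lt.ne' (Nat.isUnit_iff.mp (hPsq p h2))
    have hpw : ¬ (p : ℤ) ∣ ((w1 : ℤ) * w2) := by
      intro hd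
      rcases hpp.dvd_or_dvd hd with hd | hd
      · exact (hcl p hp hpL).1.2.2.2.1 (by exact_mod_cast hd)
      · exact (hcl p hp hpL).1.2.2.2.2 (by exact_mod_cast hd)
    have hident : Yc * ((w1 : ℤ) * w2) = m1 * (h * (w1 * w2) - h' * (v1 * v2)) := by
      have hP10 : (P1 : ℤ) ≠ 0 := by exact_mod_cast hP1sq.ne_zero
      apply mul_left_cancel₀ hP10
      have e1 : (P1 : ℤ) * m1 = P2 * m2 := by
        exact_mod_cast hm1.symm.trans hm2
      have e2 : (P1 : ℤ) * (w1 * w2) = P2 * (v1 * v2) := by exact_mod_cast hPP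
      calc (P1 : ℤ) * (Yc * ((w1 : ℤ) * w2))
          = h * (P1 * m1) * (w1 * w2) - h' * m2 * (P1 * (w1 * w2)) := by
            rw [hYc]
            ring
        _ = h * (P1 * m1) * (w1 * w2) - h' * (P2 * m2) * (v1 * v2) := by
            rw [e2]
            ring
        _ = (P1 : ℤ) * (m1 * (h * (w1 * w2) - h' * (v1 * v2))) := by
            rw [← e1]
            ring
    constructor
    · intro hd
      have hd' : (p : ℤ) ∣ Yc * s * kb := hd
      have hY : (p : ℤ) ∣ Yc := by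
        rcases hpp.dvd_or_dvd hd' with hd | hd
        · rcases hpp.dvd_or_dvd hd with hd | hd
          · exact hd
          · exact absurd hd hps
        · exact absurd hd hpkb
      have h3 : (p : ℤ) ∣ m1 * (h * (w1 * w2) - h' * (v1 * v2)) := by
        rw [← hident]
        exact hY.mul_right _
      rcases hpp.dvd_or_dvd h3 with hd | hd
      · exact absurd hd hpm1
      · exact hd
    · intro hd
      have h3 : (p : ℤ) ∣ Yc * ((w1 : ℤ) * w2) := by
        rw [hident]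
        exact hd.mul_left _
      rcases hpp.dvd_or_dvd h3 with hd | hd
      · exact (hd.mul_right s).mul_right kb
      · exact absurd hd hpw
  · -- the identity
    intro n
    show F n = F (n0 n) * (starRingEnd ℂ) (eN L c) * KL L c (n + l0)
    by_cases hunit : ∃ m : ℤ, (L : ℤ) ∣ m * (n + l0) - 1
    · obtain ⟨m, hm⟩ := hunit
      rw [KL_eq hL0 hm]
      have hback : (k : ℤ) ∣ n - n0 n := by
        have := (hn0k n).neg_right
        have e : -(n0 n - n) = n - n0 n := by ring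
        rwa [e] at this
      by_cases hA : ∃ c1, Cls a b1 b2 r l (u1 * v1) (u2 * v2) n c1
      · by_cases hB : ∃ c2, Cls a b1 b2 r l (u1 * w1) (u2 * w2) n c2
        · obtain ⟨c1, hc1⟩ := hA
          obtain ⟨c2, hc2⟩ := hB
          obtain ⟨e1, he1⟩ := cls_transfer hP1sq (by rw [← hkL]; exact Dvd.intro m1 hm1.symm)
            hcop hlok1 hspec1 hc1 (hn0k n) (hn0L n)
          obtain ⟨e2, he2⟩ := cls_transfer hP2sq (by rw [← hkL]; exact Dvd.intro m2 hm2.symm)
            hcop hlok2 hspec2 hc2 (hn0k n) (hn0L n)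
          have hFn : F n = eN Q (h * m1 * c1 - h' * m2 * c2) := by
            simp only [hF]
            rw [W_eq hP1sq ca cb1 cb2 hc1, W_eq hP2sq ca cc1 cc2 hc2, ← eN_neg]
            have x1 : eN (Pm r (u1 * v1) (u2 * v2)) (h * c1) = eN Q (h * m1 * c1) := by
              have hm10 : m1 ≠ 0 := by
                rintro rfl
                rw [mul_zero] at hm1
                exact hPsq.ne_zero hm1
              have e : Q = m1 * P1 := by rw [hm1, mul_comm]
              rw [e, ← eN_mul_left (P := P1) hm10 (h * c1)]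
              congr 1
              ring
            have x2 : eN (Pm r (u1 * w1) (u2 * w2)) (-(h' * c2)) = eN Q (-(h' * m2 * c2)) := by
              have hm20 : m2 ≠ 0 := by
                rintro rfl
                rw [mul_zero] at hm2
                exact hPsq.ne_zero hm2
              have e : Q = m2 * P2 := by rw [hm2, mul_comm]
              rw [e, ← eN_mul_left (P := P2) hm20 (-(h' * c2))]
              congr 1
              ring
            rw [x1, x2, ← eN_add]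
            congr 1
          have hFn0 : F (n0 n) = eN Q (h * m1 * e1 - h' * m2 * e2) := by
            simp only [hF]
            rw [W_eq hP1sq ca cb1 cb2 he1, W_eq hP2sq ca cc1 cc2 he2, ← eN_neg]
            have x1 : eN (Pm r (u1 * v1) (u2 * v2)) (h * e1) = eN Q (h * m1 * e1) := by
              have hm10 : m1 ≠ 0 := by
                rintro rfl
                rw [mul_zero] at hm1
                exact hPsq.ne_zero hm1
              have e : Q = m1 * P1 := by rw [hm1, mul_comm]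
              rw [e, ← eN_mul_left (P := P1) hm10 (h * e1)]
              congr 1
              ring
            have x2 : eN (Pm r (u1 * w1) (u2 * w2)) (-(h' * e2)) = eN Q (-(h' * m2 * e2)) := by
              have hm20 : m2 ≠ 0 := by
                rintro rfl
                rw [mul_zero] at hm2
                exact hPsq.ne_zero hm2
              have e : Q = m2 * P2 := by rw [hm2, mul_comm]
              rw [e, ← eN_mul_left (P := P2) hm20 (-(h' * e2))]
              congr 1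
              ring
            rw [x1, x2, ← eN_add]
            congr 1
          set X : ℤ := (h * m1 * c1 - h' * m2 * c2) - (h * m1 * e1 - h' * m2 * e2) with hX
          have hXk : (k : ℤ) ∣ X := by
            apply dvd_of_primes hksq
            intro p hp hpk
            have hpn : (p : ℤ) ∣ n - n0 n := dvd_trans (by exact_mod_cast hpk) hback
            have hpQ : p ∣ Q := by
              rw [hkL]
              exact hpk.mul_right _
            have t1 : (p : ℤ) ∣ (m1 : ℤ) * (c1 - e1) := by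
              by_cases hpP : p ∣ P1
              · exact (cls_K ca cb1 cb2 hc1 he1 hp hpP hpn).mul_left _
              · have : p ∣ m1 := by
                  have h2 : p ∣ P1 * m1 := by rw [← hm1]; exact hpQ
                  exact ((hp.dvd_mul).mp h2).resolve_left hpP
                exact Dvd.dvd.mul_right (by exact_mod_cast this) _
            have t2 : (p : ℤ) ∣ (m2 : ℤ) * (c2 - e2) := by
              by_cases hpP : p ∣ P2
              · exact (cls_K ca cc1 cc2 hc2 he2 hp hpP hpn).mul_left _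
              · have : p ∣ m2 := by
                  have h2 : p ∣ P2 * m2 := by rw [← hm2]; exact hpQ
                  exact ((hp.dvd_mul).mp h2).resolve_left hpP
                exact Dvd.dvd.mul_right (by exact_mod_cast this) _
            have := dvd_sub (t1.mul_left h) (t2.mul_left h')
            have e : h * ((m1 : ℤ) * (c1 - e1)) - h' * ((m2 : ℤ) * (c2 - e2)) = X := by
              rw [hX]
              ring
            rwa [e] at this
          have hXL : (L : ℤ) ∣ X - Yc * s * (m - 1) := by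
            apply dvd_of_primes hLsq
            intro p hp hpL
            have hpp : Prime (p : ℤ) := Nat.prime_iff_prime_int.mp hp
            have hpL' : (p : ℤ) ∣ (L : ℤ) := by exact_mod_cast hpL
            have key : ∀ (d1 d2 : ℕ) (c1 e1 : ℤ), Lok L r d1 d2 →
                Spec a b1 b2 L r l d1 d2 l0 s → Cls a b1 b2 r l d1 d2 n c1 →
                Cls a b1 b2 r l d1 d2 (n0 n) e1 → (p : ℤ) ∣ (c1 - e1) - s * (m - 1) := by
              intro d1 d2 c1 e1 hl hs hc he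
              have i1 := cls_L hl hs hc hp hpL
              have i2 := cls_L hl hs he hp hpL
              have i3 : (p : ℤ) ∣ m * (n + l0) - 1 := hpL'.trans hm
              have i4 : (p : ℤ) ∣ 1 * (n0 n + l0) - 1 := hpL'.trans (hn0L n)
              have j1 : (p : ℤ) ∣ c1 - s * m := by
                have := dvd_sub (i1.mul_left m) (i3.mul_left c1)
                have e : m * (c1 * (n + l0) - s) - c1 * (m * (n + l0) - 1) = c1 - s * m := by ring
                rwa [e] at this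
              have j2 : (p : ℤ) ∣ e1 - s := by
                have := dvd_sub i2 (i4.mul_left e1)
                have e : e1 * (n0 n + l0) - s - e1 * (1 * (n0 n + l0) - 1) = e1 - s := by ring
                rwa [e] at this
              have := dvd_sub j1 j2
              have e : c1 - s * m - (e1 - s) = (c1 - e1) - s * (m - 1) := by ring
              rwa [e] at this
            have t1 := key _ _ c1 e1 hlok1 hspec1 hc1 he1
            have t2 := key _ _ c2 e2 hlok2 hspec2 hc2 he2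
            have := dvd_sub (t1.mul_left (h * m1)) (t2.mul_left (h' * m2))
            have e : h * m1 * ((c1 - e1) - s * (m - 1)) - h' * m2 * ((c2 - e2) - s * (m - 1))
                = X - Yc * s * (m - 1) := by
              rw [hX, hYc]
              ring
            rwa [e] at this
          -- eN Q X = eN L (c m - c)
          obtain ⟨X', hX'⟩ := hXk
          have hQX : eN Q X = eN L X' := by
            have : eN (k * L) ((k : ℤ) * X') = eN L X' := eN_mul_left hk0.ne' X'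
            rw [hX', hkL]
            exact this
          have hX'L : (L : ℤ) ∣ X' - (c * m - c) := by
            -- X' = kb k X' + y0 L X' = kb X + ...
            have e : X' - (c * m - c) = kb * (X - Yc * s * (m - 1)) + (y0 * X') * L := by
              have e1 : X' = (kb * k + y0 * L) * X' := by rw [hkb, one_mul]
              calc X' - (c * m - c) = (kb * k + y0 * L) * X' - (c * m - c) := by rw [← e1]
                _ = kb * (X - Yc * s * (m - 1)) + (y0 * X') * L := by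
                    rw [hX', hcd]
                    ring
            rw [e]
            exact dvd_add (hXL.mul_left kb) (Dvd.intro_left _ rfl)
          have hfin : eN Q X = eN L (c * m) * (starRingEnd ℂ) (eN L c) := by
            rw [hQX, eN_congr hX'L, ← eN_neg, ← eN_add]
            congr 1
          calc F n = eN Q ((h * m1 * e1 - h' * m2 * e2) + X) := by
                rw [hFn]
                congr 1
                rw [hX]
                ring
            _ = F (n0 n) * eN Q X := by rw [eN_add, hFn0]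
            _ = F (n0 n) * (starRingEnd ℂ) (eN L c) * eN L (c * m) := by
                rw [hfin]
                ring
        · -- no second class
          have hB0 : ¬ ∃ c2, Cls a b1 b2 r l (u1 * w1) (u2 * w2) (n0 n) c2 := by
            rintro ⟨c2, hc2⟩
            exact hB (cls_transfer hP2sq (by rw [← hkL]; exact Dvd.intro m2 hm2.symm)
              hcop hlok2 hspec2 hc2 hback hm)
          have z1 : F n = 0 := by
            simp only [hF]
            rw [W_eq_zero hB, map_zero, mul_zero]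
          have z2 : F (n0 n) = 0 := by
            simp only [hF]
            rw [W_eq_zero hB0, map_zero, mul_zero]
          rw [z1, z2]
          ring
      · have hA0 : ¬ ∃ c2, Cls a b1 b2 r l (u1 * v1) (u2 * v2) (n0 n) c2 := by
          rintro ⟨c2, hc2⟩
          exact hA (cls_transfer hP1sq (by rw [← hkL]; exact Dvd.intro m1 hm1.symm)
            hcop hlok1 hspec1 hc2 hback hm)
        have z1 : F n = 0 := by
          simp only [hF]
          rw [W_eq_zero hA, zero_mul]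
        have z2 : F (n0 n) = 0 := by
          simp only [hF]
          rw [W_eq_zero hA0, zero_mul]
        rw [z1, z2]
        ring
    · rw [KL_eq_zero hunit, mul_zero]
      simp only [hF]
      have : ¬ ∃ c, Cls a b1 b2 r l (u1 * v1) (u2 * v2) n c := by
        rintro ⟨c1, hc1⟩
        exact hunit (unit_of_cls hLsq hlok1 hspec1 ca cb1 cb2 hc1)
      rw [W_eq_zero this, zero_mul]

end Pool.Agent.BCore
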