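import Pool.Agent.BCore.Basic

/-!
B-CORE: auxiliary lemmas for PHASE (prime by prime).
-/

namespace Pool.Agent.BCore

/-- Chinese remainders for finitely many primes. -/
theorem crt_primes (S : Finset ℕ) (hS : ∀ p ∈ S, p.Prime) (f : ℕ → ℤ) :
    ∃ s : ℤ, ∀ p ∈ S, (p : ℤ) ∣ s - f p := by
  classical
  induction S using Finset.induction_on with
  | empty => exact ⟨0, by simp⟩
  | insert q S hq ih =>
    obtain ⟨s, hs⟩ := ih (fun p hp => hS p (Finset.mem_insert_of_mem hp))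
    have hqp : q.Prime := hS q (Finset.mem_insert_self q S)
    have hcop : IsCoprime ((∏ p ∈ S, (p : ℤ))) (q : ℤ) := by
      apply IsCoprime.prod_left
      intro p hp
      have hpp : p.Prime := hS p (Finset.mem_insert_of_mem hp)
      have hne : p ≠ q := by
        rintro rfl
        exact hq hp
      exact Nat.isCoprime_iff_coprime.mpr ((Nat.coprime_primes hpp hqp).mpr hne)
    obtain ⟨x, y, hxy⟩ := hcop
    refine ⟨s + (∏ p ∈ S, (p : ℤ)) * (x * (f q - s)), ?_⟩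
    intro p hp
    rcases Finset.mem_insert.mp hp with rfl | hp
    · refine ⟨-(y * (f p - s)), ?_⟩
      have : x * (∏ p ∈ S, (p : ℤ)) = 1 - y * p := by linarith
      calc s + (∏ p ∈ S, (p : ℤ)) * (x * (f p - s)) - f p
          = (x * (∏ p ∈ S, (p : ℤ))) * (f p - s) - (f p - s) := by ring
        _ = (p : ℤ) * -(y * (f p - s)) := by
            rw [this]
            ring
    · have h1 : (p : ℤ) ∣ ∏ p ∈ S, (p : ℤ) := Finset.dvd_prod_of_mem _ hp
      have h2 := dvd_add (hs p hp) (h1.mul_right (x * (f q - s)))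
      have e : s - f p + (∏ p ∈ S, (p : ℤ)) * (x * (f q - s))
          = s + (∏ p ∈ S, (p : ℤ)) * (x * (f q - s)) - f p := by ring
      rwa [e] at h2

/-- gcds with a squarefree number are determined by the primes. -/
theorem gcd_eq_of_primes {L : ℕ} (hL : Squarefree L) {x y : ℤ}
    (h : ∀ p : ℕ, p.Prime → p ∣ L → ((p : ℤ) ∣ x ↔ (p : ℤ) ∣ y)) :
    Int.gcd x (L : ℤ) = Int.gcd y (L : ℤ) := by
  have key : ∀ x y : ℤ, (∀ p : ℕ, p.Prime → p ∣ L → ((p : ℤ) ∣ x → (p : ℤ) ∣ y)) →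
      Int.gcd x (L : ℤ) ∣ Int.gcd y (L : ℤ) := by
    intro x y hxy
    have hdL : Int.gcd x (L : ℤ) ∣ L := by
      have := Int.gcd_dvd_right x (L : ℤ)
      exact_mod_cast this
    have hsq : Squarefree (Int.gcd x (L : ℤ)) := hL.squarefree_of_dvd hdL
    have h1 : ((Int.gcd x (L : ℤ) : ℕ) : ℤ) ∣ y := by
      apply dvd_of_primes hsq
      intro p hp hpd
      apply hxy p hp (hpd.trans hdL)
      have : ((Int.gcd x (L : ℤ) : ℕ) : ℤ) ∣ x := Int.gcd_dvd_left x (L : ℤ)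
      exact dvd_trans (by exact_mod_cast hpd) this
    have h2 : ((Int.gcd x (L : ℤ) : ℕ) : ℤ) ∣ (L : ℤ) := by exact_mod_cast hdL
    exact Int.natCast_dvd_natCast.mp (Int.dvd_coe_gcd h1 h2)
  exact Nat.dvd_antisymm (key x y (fun p hp hpL => (h p hp hpL).mp))
    (key y x (fun p hp hpL => (h p hp hpL).mpr))

/-- Every prime of `L` divides exactly one of `r, d1, d2`. -/
def Lok (L r d1 d2 : ℕ) : Prop :=
  ∀ p : ℕ, p.Prime → p ∣ L →
    (p ∣ r ∧ ¬ p ∣ d1 ∧ ¬ p ∣ d2) ∨ (¬ p ∣ r ∧ p ∣ d1 ∧ ¬ p ∣ d2) ∨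
      (¬ p ∣ r ∧ ¬ p ∣ d1 ∧ p ∣ d2)

/-- `l0` and `s` are the shift and the class modulo `L`. -/
def Spec (a b1 b2 : ℤ) (L r : ℕ) (l : ℤ) (d1 d2 : ℕ) (l0 s : ℤ) : Prop :=
  ∀ p : ℕ, p.Prime → p ∣ L →
    (p ∣ d2 → (p : ℤ) ∣ l0 - l * r) ∧ (¬ p ∣ d2 → (p : ℤ) ∣ l0) ∧
    (p ∣ r → (p : ℤ) ∣ s - a) ∧ (p ∣ d1 → (p : ℤ) ∣ s - b1) ∧ (p ∣ d2 → (p : ℤ) ∣ s - b2)

theorem cls_L {a b1 b2 : ℤ} {L r d1 d2 : ℕ} {l l0 s n c : ℤ} (hL : Lok L r d1 d2)
    (hS : Spec a b1 b2 L r l d1 d2 l0 s) (hc : Cls a b1 b2 r l d1 d2 n c)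
    {p : ℕ} (hp : p.Prime) (hpL : p ∣ L) : (p : ℤ) ∣ c * (n + l0) - s := by
  obtain ⟨s1, s2, s3, s4, s5⟩ := hS p hp hpL
  rcases hL p hp hpL with ⟨h1, h2, h3⟩ | ⟨h1, h2, h3⟩ | ⟨h1, h2, h3⟩
  · have e1 : (p : ℤ) ∣ c * n - a := dvd_trans (by exact_mod_cast h1) hc.1
    have := dvd_sub (dvd_add e1 ((s2 h3).mul_left c)) (s3 h1)
    have e : c * n - a + c * l0 - (s - a) = c * (n + l0) - s := by ring
    rwa [e] at this
  · have e1 : (p : ℤ) ∣ c * n - b1 := dvd_trans (by exact_mod_cast h2) hc.2.1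
    have := dvd_sub (dvd_add e1 ((s2 h3).mul_left c)) (s4 h2)
    have e : c * n - b1 + c * l0 - (s - b1) = c * (n + l0) - s := by ring
    rwa [e] at this
  · have e1 : (p : ℤ) ∣ c * (n + l * r) - b2 := dvd_trans (by exact_mod_cast h3) hc.2.2
    have := dvd_sub (dvd_add e1 ((s1 h3).mul_left c)) (s5 h3)
    have e : c * (n + l * r) - b2 + c * (l0 - l * r) - (s - b2) = c * (n + l0) - s := by ring
    rwa [e] at this

/-- `s` is a unit modulo the primes of `L`. -/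
theorem s_unit {a b1 b2 : ℤ} {L r d1 d2 : ℕ} {l l0 s : ℤ} (hL : Lok L r d1 d2)
    (hS : Spec a b1 b2 L r l d1 d2 l0 s)
    (ha : IsCoprime (r : ℤ) a) (h1 : IsCoprime (d1 : ℤ) b1) (h2 : IsCoprime (d2 : ℤ) b2)
    {p : ℕ} (hp : p.Prime) (hpL : p ∣ L) : ¬ (p : ℤ) ∣ s := by
  intro hs
  have hpp : Prime (p : ℤ) := Nat.prime_iff_prime_int.mp hp
  obtain ⟨s1, s2, s3, s4, s5⟩ := hS p hp hpL
  have key : ∀ (m : ℕ) (z : ℤ), p ∣ m → IsCoprime (m : ℤ) z → (p : ℤ) ∣ s - z → False := by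
    intro m z hm hmz hz
    have e : (p : ℤ) ∣ z := by
      have := dvd_sub hs hz
      have e : s - (s - z) = z := by ring
      rwa [e] at this
    exact hpp.not_isUnit (hmz.isUnit_of_dvd' (by exact_mod_cast hm) e)
  rcases hL p hp hpL with ⟨k1, k2, k3⟩ | ⟨k1, k2, k3⟩ | ⟨k1, k2, k3⟩
  · exact key r a k1 ha (s3 k1)
  · exact key d1 b1 k2 h1 (s4 k2)
  · exact key d2 b2 k3 h2 (s5 k3)

theorem cls_K {a b1 b2 : ℤ} {r d1 d2 : ℕ} {l n n' c c' : ℤ}
    (ha : IsCoprime (r : ℤ) a) (h1 : IsCoprime (d1 : ℤ) b1) (h2 : IsCoprime (d2 : ℤ) b2)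
    (hc : Cls a b1 b2 r l d1 d2 n c) (hc' : Cls a b1 b2 r l d1 d2 n' c')
    {p : ℕ} (hp : p.Prime) (hpP : p ∣ Pm r d1 d2) (hn : (p : ℤ) ∣ n - n') :
    (p : ℤ) ∣ c - c' := by
  have hpp : Prime (p : ℤ) := Nat.prime_iff_prime_int.mp hp
  have key : ∀ (m : ℕ) (s z z' : ℤ), p ∣ m → IsCoprime (m : ℤ) s → (m : ℤ) ∣ c * z - s →
      (m : ℤ) ∣ c' * z' - s → (p : ℤ) ∣ z - z' → (p : ℤ) ∣ c - c' := by
    intro m s z z' hpm hms e1 e2 e0
    have hpm' : (p : ℤ) ∣ (m : ℤ) := by exact_mod_cast hpm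
    have e3 : (p : ℤ) ∣ (c - c') * z := by
      have := dvd_sub (dvd_sub (hpm'.trans e1) (hpm'.trans e2)) (e0.mul_left c')
      have e : c * z - s - (c' * z' - s) - c' * (z - z') = (c - c') * z := by ring
      rwa [e] at this
    rcases hpp.dvd_or_dvd e3 with h | h
    · exact h
    · exfalso
      have e4 : (p : ℤ) ∣ s := by
        have := dvd_sub (h.mul_left c) (hpm'.trans e1)
        have e : c * z - (c * z - s) = s := by ring
        rwa [e] at this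
      exact hpp.not_isUnit (hms.isUnit_of_dvd' hpm' e4)
  unfold Pm at hpP
  rcases (hp.dvd_mul).mp hpP with h | h
  · exact key r a n n' h ha hc.1 hc'.1 hn
  · have h' : p ∣ d1 * d2 := h.trans (Nat.lcm_dvd_mul d1 d2)
    rcases (hp.dvd_mul).mp h' with h3 | h3
    · exact key d1 b1 n n' h3 h1 hc.2.1 hc'.2.1 hn
    · refine key d2 b2 (n + l * r) (n' + l * r) h3 h2 hc.2.2 hc'.2.2 ?_
      have e : n + l * r - (n' + l * r) = n - n' := by ring
      rw [e]
      exact hn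

/-- Transfer of a class from `n` to `n'` when `n = n' (k)` and `n' + l0` is a unit modulo `L`. -/
theorem cls_transfer {a b1 b2 : ℤ} {L k r d1 d2 : ℕ} {l l0 s n n' c m : ℤ}
    (hsq : Squarefree (Pm r d1 d2)) (hPk : Pm r d1 d2 ∣ k * L) (hkL : Nat.Coprime k L)
    (hL : Lok L r d1 d2) (hS : Spec a b1 b2 L r l d1 d2 l0 s)
    (hc : Cls a b1 b2 r l d1 d2 n c) (hn : (k : ℤ) ∣ n' - n) (hm : (L : ℤ) ∣ m * (n' + l0) - 1) :
    ∃ c', Cls a b1 b2 r l d1 d2 n' c' := by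
  classical
  obtain ⟨c', hc'⟩ := crt_primes (Pm r d1 d2).primeFactors
    (fun p hp => Nat.prime_of_mem_primeFactors hp) (fun p => if p ∣ L then s * m else c)
  have hcase : ∀ p : ℕ, p.Prime → p ∣ Pm r d1 d2 → (p ∣ L ∧ (p : ℤ) ∣ c' * (n' + l0) - s) ∨
      (¬ p ∣ L ∧ (p : ℤ) ∣ c' - c ∧ (p : ℤ) ∣ n' - n) := by
    intro p hp hpP
    have hmem : p ∈ (Pm r d1 d2).primeFactors := by
      rw [Nat.mem_primeFactors]
      exact ⟨hp, hpP, hsq.ne_zero⟩
    have h0 := hc' p hmem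
    by_cases hpL : p ∣ L
    · left
      refine ⟨hpL, ?_⟩
      rw [if_pos hpL] at h0
      have hpm : (p : ℤ) ∣ m * (n' + l0) - 1 := dvd_trans (by exact_mod_cast hpL) hm
      have := dvd_add (h0.mul_right (n' + l0)) (hpm.mul_left s)
      have e : (c' - s * m) * (n' + l0) + s * (m * (n' + l0) - 1) = c' * (n' + l0) - s := by ring
      rwa [e] at this
    · right
      rw [if_neg hpL] at h0
      refine ⟨hpL, h0, ?_⟩
      have hpk : p ∣ k := by
        rcases (hp.dvd_mul).mp (hpP.trans hPk) with h | h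
        · exact h
        · exact absurd h hpL
      exact dvd_trans (by exact_mod_cast hpk) hn
  have hsr : Squarefree r := hsq.squarefree_of_dvd (Dvd.intro _ rfl)
  have hsd1 : Squarefree d1 := hsq.squarefree_of_dvd
    ((Nat.dvd_lcm_left d1 d2).trans (Dvd.intro_left r rfl))
  have hsd2 : Squarefree d2 := hsq.squarefree_of_dvd
    ((Nat.dvd_lcm_right d1 d2).trans (Dvd.intro_left r rfl))
  refine ⟨c', ?_, ?_, ?_⟩
  · apply dvd_of_primes hsr
    intro p hp hpr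
    have hpP : p ∣ Pm r d1 d2 := hpr.trans (Dvd.intro _ rfl)
    rcases hcase p hp hpP with ⟨hpL, h⟩ | ⟨hpL, h, hnn⟩
    · obtain ⟨s1, s2, s3, s4, s5⟩ := hS p hp hpL
      have hd2 : ¬ p ∣ d2 := by
        rcases hL p hp hpL with ⟨k1, k2, k3⟩ | ⟨k1, k2, k3⟩ | ⟨k1, k2, k3⟩
        · exact k3
        · exact absurd hpr k1
        · exact absurd hpr k1
      have := dvd_add (dvd_sub h ((s2 hd2).mul_left c')) (s3 hpr)
      have e : c' * (n' + l0) - s - c' * l0 + (s - a) = c' * n' - a := by ring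
      rwa [e] at this
    · have e1 : (p : ℤ) ∣ c * n - a := dvd_trans (by exact_mod_cast hpr) hc.1
      have := dvd_add (dvd_add e1 (h.mul_right n')) (hnn.mul_left c)
      have e : c * n - a + (c' - c) * n' + c * (n' - n) = c' * n' - a := by ring
      rwa [e] at this
  · apply dvd_of_primes hsd1
    intro p hp hpr
    have hpP : p ∣ Pm r d1 d2 := hpr.trans ((Nat.dvd_lcm_left d1 d2).trans (Dvd.intro_left r rfl))
    rcases hcase p hp hpP with ⟨hpL, h⟩ | ⟨hpL, h, hnn⟩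
    · obtain ⟨s1, s2, s3, s4, s5⟩ := hS p hp hpL
      have hd2 : ¬ p ∣ d2 := by
        rcases hL p hp hpL with ⟨k1, k2, k3⟩ | ⟨k1, k2, k3⟩ | ⟨k1, k2, k3⟩
        · exact k3
        · exact k3
        · exact absurd hpr k2
      have := dvd_add (dvd_sub h ((s2 hd2).mul_left c')) (s4 hpr)
      have e : c' * (n' + l0) - s - c' * l0 + (s - b1) = c' * n' - b1 := by ring
      rwa [e] at this
    · have e1 : (p : ℤ) ∣ c * n - b1 := dvd_trans (by exact_mod_cast hpr) hc.2.1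
      have := dvd_add (dvd_add e1 (h.mul_right n')) (hnn.mul_left c)
      have e : c * n - b1 + (c' - c) * n' + c * (n' - n) = c' * n' - b1 := by ring
      rwa [e] at this
  · apply dvd_of_primes hsd2
    intro p hp hpr
    have hpP : p ∣ Pm r d1 d2 := hpr.trans ((Nat.dvd_lcm_right d1 d2).trans (Dvd.intro_left r rfl))
    rcases hcase p hp hpP with ⟨hpL, h⟩ | ⟨hpL, h, hnn⟩
    · obtain ⟨s1, s2, s3, s4, s5⟩ := hS p hp hpL
      have := dvd_add (dvd_sub h ((s1 hpr).mul_left c')) (s5 hpr)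
      have e : c' * (n' + l0) - s - c' * (l0 - l * r) + (s - b2) = c' * (n' + l * r) - b2 := by
        ring
      rwa [e] at this
    · have e1 : (p : ℤ) ∣ c * (n + l * r) - b2 := dvd_trans (by exact_mod_cast hpr) hc.2.2
      have := dvd_add (dvd_add e1 (h.mul_right (n' + l * r))) (hnn.mul_left c)
      have e : c * (n + l * r) - b2 + (c' - c) * (n' + l * r) + c * (n' - n)
          = c' * (n' + l * r) - b2 := by ring
      rwa [e] at this

/-- If a class exists for `n` then `n + l0` is a unit modulo `L`. -/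
theorem unit_of_cls {a b1 b2 : ℤ} {L r d1 d2 : ℕ} {l l0 s n c : ℤ} (hLsq : Squarefree L)
    (hL : Lok L r d1 d2) (hS : Spec a b1 b2 L r l d1 d2 l0 s)
    (ha : IsCoprime (r : ℤ) a) (h1 : IsCoprime (d1 : ℤ) b1) (h2 : IsCoprime (d2 : ℤ) b2)
    (hc : Cls a b1 b2 r l d1 d2 n c) : ∃ m : ℤ, (L : ℤ) ∣ m * (n + l0) - 1 := by
  have hcop : IsCoprime (n + l0) (L : ℤ) := by
    rw [Int.isCoprime_iff_gcd_eq_one]
    by_contra hne
    obtain ⟨p, hp, hpd⟩ := Nat.exists_prime_and_dvd hne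
    have hpn : (p : ℤ) ∣ n + l0 :=
      dvd_trans (by exact_mod_cast hpd) (Int.gcd_dvd_left (n + l0) (L : ℤ))
    have hpL : p ∣ L := by
      have : (p : ℤ) ∣ (L : ℤ) :=
        dvd_trans (by exact_mod_cast hpd) (Int.gcd_dvd_right (n + l0) (L : ℤ))
      exact_mod_cast this
    have h3 := cls_L hL hS hc hp hpL
    apply s_unit hL hS ha h1 h2 hp hpL
    have := dvd_sub (hpn.mul_left c) h3
    have e : c * (n + l0) - (c * (n + l0) - s) = s := by ring
    rwa [e] at this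
  obtain ⟨x, y, hxy⟩ := hcop
  refine ⟨x, ⟨-y, ?_⟩⟩
  linarith

end Pool.Agent.BCore
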