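import Pool.Agent.BCore.Basic
import Pool.Agent.Inc.Vdc

/-!
B-CORE module VDC (helper2, helper68: Weil bound + completion + one q-van der Corput step).
-/

namespace Pool.Agent.BCore

theorem VDC_eN (L : ℕ) [NeZero L] (X : ℤ) : eN L X = ZMod.stdAddChar (X : ZMod L) := by
  unfold eN
  rw [ZMod.stdAddChar_coe]
  congr 1
  ring

theorem VDC_KL (L : ℕ) [NeZero L] (c n : ℤ) : KL L c n = Pool.Agent.Inc.KL L c n := by
  classical
  unfold KL Pool.Agent.Inc.KL Pool.Agent.Inc.kl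
  have hiff : ∀ m : ℕ, ((L : ℤ) ∣ (m : ℤ) * n - 1) ↔ (m : ZMod L) * (n : ZMod L) = 1 := by
    intro m
    rw [← ZMod.intCast_zmod_eq_zero_iff_dvd]
    push_cast
    exact sub_eq_zero
  split_ifs with hu
  · have hinv : (n : ZMod L)⁻¹ * (n : ZMod L) = 1 := ZMod.inv_mul_of_unit _ hu
    rw [Finset.sum_eq_single_of_mem ((n : ZMod L)⁻¹).val
      (Finset.mem_range.2 (ZMod.val_lt _))]
    · rw [if_pos ((hiff _).2 (by rw [ZMod.natCast_zmod_val]; exact hinv)), VDC_eN]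
      congr 1
      push_cast
      rw [ZMod.natCast_zmod_val]
    · intro m hm hne
      rw [if_neg]
      intro h
      apply hne
      have h1 : (m : ZMod L) = (n : ZMod L)⁻¹ := by
        have h2 := (hiff m).1 h
        calc (m : ZMod L) = (m : ZMod L) * ((n : ZMod L)⁻¹ * (n : ZMod L)) := by
              rw [hinv, mul_one]
          _ = ((m : ZMod L) * (n : ZMod L)) * (n : ZMod L)⁻¹ := by ring
          _ = (n : ZMod L)⁻¹ := by rw [h2, one_mul]
      rw [← h1, ZMod.val_cast_of_lt (Finset.mem_range.1 hm)]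
  · refine Finset.sum_eq_zero fun m _ => ?_
    rw [if_neg]
    intro h
    exact hu (IsUnit.of_mul_eq_one_right (m : ZMod L) ((hiff m).1 h))

/-- For `k`, `L` coprime, `L` squarefree, `G` any `k`-periodic function bounded by 1, an interval
of `X >= k` integers and every shift `l0`. -/
theorem vdc : ∃ C : ℝ, 0 < C ∧ ∀ (k L X : ℕ) (G : ℤ → ℂ) (c l0 y : ℤ),
    Squarefree L → Nat.Coprime k L → 1 ≤ k → k ≤ X →
    (∀ n, G (n + (k : ℤ)) = G n) → (∀ n, ‖G n‖ ≤ 1) →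
    ‖∑ n ∈ Finset.Ioc y (y + X), G n * KL L c (n + l0)‖ ^ 2 ≤
      C * (tau L : ℝ) ^ 4 * (1 + Real.log L) *
        ((X : ℝ) * k + ((X : ℝ) * Real.sqrt L + (X : ℝ) ^ 2 / Real.sqrt L) *
          Real.sqrt (Int.gcd c (L : ℤ))) := by
  refine ⟨4, by norm_num, ?_⟩
  intro k L X G c l0 y hL hkL hk hkX hG hG1
  have : NeZero L := ⟨hL.ne_zero⟩
  have h1 := Pool.Agent.Inc.vdc hL k X hkL hk hkX c l0 y (y + X) (by simp) G hG hG1
  have h2 : ∑ n ∈ Finset.Ioc y (y + X), G n * KL L c (n + l0) =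
      ∑ n ∈ Finset.Ioc y (y + X), G n * Pool.Agent.Inc.KL L c (n + l0) :=
    Finset.sum_congr rfl fun n _ => by rw [VDC_KL]
  rw [h2]
  refine h1.trans ?_
  have hL1 : 1 ≤ L := Nat.pos_of_ne_zero hL.ne_zero
  have hLr : (0 : ℝ) < L := by exact_mod_cast hL1
  have hlog : 0 ≤ Real.log L := Real.log_natCast_nonneg L
  have hsL : 0 < Real.sqrt L := Real.sqrt_pos.2 hLr
  have hτ1 : (1 : ℝ) ≤ L.divisors.card := by
    have : 0 < L.divisors.card := Finset.card_pos.2 ⟨1, Nat.one_mem_divisors.2 hL.ne_zero⟩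
    exact_mod_cast this
  have hgcd : L.gcd c.natAbs = Int.gcd c (L : ℤ) := by
    rw [Nat.gcd_comm]; rfl
  rw [hgcd]
  have hg1 : (1 : ℝ) ≤ Real.sqrt (Int.gcd c (L : ℤ)) := by
    rw [Real.one_le_sqrt]
    have : 0 < Int.gcd c (L : ℤ) := by
      rw [← hgcd]; exact Nat.gcd_pos_of_pos_left _ hL1
    exact_mod_cast this
  set gc := Real.sqrt (Int.gcd c (L : ℤ)) with hgc
  show 4 * (L.divisors.card : ℝ) ^ 3 * (1 + Real.log L) *
      (X * k + (X : ℝ) ^ 2 * gc / Real.sqrt L + X * Real.sqrt L) ≤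
    4 * (L.divisors.card : ℝ) ^ 4 * (1 + Real.log L) *
      (X * k + (X * Real.sqrt L + (X : ℝ) ^ 2 / Real.sqrt L) * gc)
  have h3 : (X : ℝ) * Real.sqrt L ≤ X * Real.sqrt L * gc := by
    have : 0 ≤ (X : ℝ) * Real.sqrt L := by positivity
    nlinarith
  have h4 : (X : ℝ) * k + (X : ℝ) ^ 2 * gc / Real.sqrt L + X * Real.sqrt L ≤
      X * k + (X * Real.sqrt L + (X : ℝ) ^ 2 / Real.sqrt L) * gc := by
    have e : (X * Real.sqrt L + (X : ℝ) ^ 2 / Real.sqrt L) * gc =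
        X * Real.sqrt L * gc + (X : ℝ) ^ 2 * gc / Real.sqrt L := by ring
    rw [e]; linarith
  have h5 : (L.divisors.card : ℝ) ^ 3 ≤ (L.divisors.card : ℝ) ^ 4 :=
    pow_le_pow_right₀ hτ1 (by norm_num)
  have h6 : 0 ≤ (X : ℝ) * k + (X : ℝ) ^ 2 * gc / Real.sqrt L + X * Real.sqrt L := by positivity
  have h7 : 4 * (L.divisors.card : ℝ) ^ 3 * (1 + Real.log L) ≤
      4 * (L.divisors.card : ℝ) ^ 4 * (1 + Real.log L) := by nlinarith
  have h8 : 0 ≤ 4 * (L.divisors.card : ℝ) ^ 4 * (1 + Real.log L) := by positivity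
  exact mul_le_mul h7 h4 h6 h8

end Pool.Agent.BCore
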