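import Pool.Agent.BCore.Phase
import Pool.Agent.BCore.Vdc

/-!
B-CORE module SS: the off-diagonal bound for one tuple, from PHASE and VDC.
Proof. With `t = K / kap` (`kap <= g (2V)^4 <= 16 H V^4`) there is `r1 | r`, `r1 <= t <= B^2 r1`.
Put `k = r1 kap`, so `k <= K <= N` and `K <= B^2 k`. PHASE gives `L`, `k L = Pi6 <= 2R (2U)^2
(2V)^4 = 128 K^3`, hence `L <= 128 K^2 B^2`, and `Pi6 >= r u1 v1 >= R U V`, hence `L >= RUV / K`.
VDC (interval Icc 1 N = Ioc 0 (0 + N)) gives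
`C tau^4 (1 + log L) (N K + (N sqrt L + N^2 / sqrt L) sqrt gg)`, `gg = gcd (Delta, L)`;
`N K <= N^2 Y^2`, `N sqrt L <= 12 N K B <= 12 N^2 Y^2`, `N^2/sqrt L <= N^2 sqrt(K/(RUV)) <= N^2 Y^2`.
`gg <= gcd(Delta, r) gcd(Delta, u1/e1) gcd(Delta, u2/e2)`: every prime of `L` divides `Pi6`, not
`g` and not a `v` or `w`, so `L | r (u1/e1) (u2/e2)`.
-/

namespace Pool.Agent.BCore

theorem SS_lcm_le (a b : ℕ) : Nat.lcm a b ≤ a * b := by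
  rcases Nat.eq_zero_or_pos a with h | h
  · subst h; simp
  rcases Nat.eq_zero_or_pos b with h' | h'
  · subst h'; simp
  exact Nat.le_of_dvd (Nat.mul_pos h h') (Nat.lcm_dvd_mul a b)

theorem SS_kap_le {V H g v1 v2 w1 w2 : ℕ} (hv1 : v1 ≤ 2 * V) (hv2 : v2 ≤ 2 * V)
    (hw1 : w1 ≤ 2 * V) (hw2 : w2 ≤ 2 * V) (hg : g ≤ H) :
    kap g v1 v2 w1 w2 ≤ 16 * H * V ^ 4 := by
  unfold kap
  calc Nat.lcm g (Nat.lcm (Nat.lcm v1 v2) (Nat.lcm w1 w2))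
      ≤ g * Nat.lcm (Nat.lcm v1 v2) (Nat.lcm w1 w2) := SS_lcm_le _ _
    _ ≤ g * (Nat.lcm v1 v2 * Nat.lcm w1 w2) := Nat.mul_le_mul_left _ (SS_lcm_le _ _)
    _ ≤ g * ((v1 * v2) * (w1 * w2)) :=
        Nat.mul_le_mul_left _ (Nat.mul_le_mul (SS_lcm_le _ _) (SS_lcm_le _ _))
    _ ≤ H * ((2 * V * (2 * V)) * (2 * V * (2 * V))) :=
        Nat.mul_le_mul hg (Nat.mul_le_mul (Nat.mul_le_mul hv1 hv2) (Nat.mul_le_mul hw1 hw2))
    _ = 16 * H * V ^ 4 := by ring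

theorem SS_pi_le {R U V r u1 u2 v1 v2 w1 w2 : ℕ} (hr : r ≤ 2 * R) (hu1 : u1 ≤ 2 * U)
    (hu2 : u2 ≤ 2 * U) (hv1 : v1 ≤ 2 * V) (hv2 : v2 ≤ 2 * V)
    (hw1 : w1 ≤ 2 * V) (hw2 : w2 ≤ 2 * V) :
    Pi6 r u1 u2 v1 v2 w1 w2 ≤ 128 * (R * U ^ 2 * V ^ 4) := by
  unfold Pi6
  calc r * Nat.lcm (Nat.lcm u1 u2) (Nat.lcm (Nat.lcm v1 v2) (Nat.lcm w1 w2))
      ≤ r * (Nat.lcm u1 u2 * Nat.lcm (Nat.lcm v1 v2) (Nat.lcm w1 w2)) :=
        Nat.mul_le_mul_left _ (SS_lcm_le _ _)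
    _ ≤ r * ((u1 * u2) * ((v1 * v2) * (w1 * w2))) :=
        Nat.mul_le_mul_left _ (Nat.mul_le_mul (SS_lcm_le _ _)
          ((SS_lcm_le _ _).trans (Nat.mul_le_mul (SS_lcm_le _ _) (SS_lcm_le _ _))))
    _ ≤ (2 * R) * ((2 * U * (2 * U)) * ((2 * V * (2 * V)) * (2 * V * (2 * V)))) :=
        Nat.mul_le_mul hr (Nat.mul_le_mul (Nat.mul_le_mul hu1 hu2)
          (Nat.mul_le_mul (Nat.mul_le_mul hv1 hv2) (Nat.mul_le_mul hw1 hw2)))
    _ = 128 * (R * U ^ 2 * V ^ 4) := by ring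

theorem SS_pi_ge {R U V r u1 u2 v1 v2 w1 w2 : ℕ} (hr : R < r) (hu1 : U ≤ u1)
    (hv1 : V < v1) (hsq : Squarefree (r * (u1 * v1)))
    (hpos : 0 < Pi6 r u1 u2 v1 v2 w1 w2) : R * U * V ≤ Pi6 r u1 u2 v1 v2 w1 w2 := by
  have hsq' : Squarefree (u1 * v1) := hsq.squarefree_of_dvd (Dvd.intro_left r rfl)
  have hco : Nat.Coprime u1 v1 := Nat.coprime_of_squarefree_mul hsq'
  have h1 : u1 * v1 ∣ Nat.lcm (Nat.lcm u1 u2) (Nat.lcm (Nat.lcm v1 v2) (Nat.lcm w1 w2)) := by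
    apply hco.mul_dvd_of_dvd_of_dvd
    · exact (Nat.dvd_lcm_left u1 u2).trans (Nat.dvd_lcm_left _ _)
    · exact ((Nat.dvd_lcm_left v1 v2).trans (Nat.dvd_lcm_left _ _)).trans (Nat.dvd_lcm_right _ _)
  have h2 : r * (u1 * v1) ∣ Pi6 r u1 u2 v1 v2 w1 w2 := Nat.mul_dvd_mul_left r h1
  calc R * U * V = R * (U * V) := by ring
    _ ≤ r * (u1 * v1) := Nat.mul_le_mul hr.le (Nat.mul_le_mul hu1 hv1.le)
    _ ≤ _ := Nat.le_of_dvd hpos h2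

theorem SS_gcd {r u1 u2 v1 v2 w1 w2 g e1 e2 r1 L : ℕ} {D : ℤ} (hD : D ≠ 0)
    (hL : r1 * kap g v1 v2 w1 w2 * L = Pi6 r u1 u2 v1 v2 w1 w2)
    (hco : Nat.Coprime (r1 * kap g v1 v2 w1 w2) L) (hsq : Squarefree L)
    (he1 : e1 = Nat.gcd g u1) (he2 : e2 = Nat.gcd g u2) (hg : 0 < g) :
    Int.gcd D (L : ℤ) ≤ Int.gcd D (r : ℤ) * Int.gcd D ((u1 / e1 : ℕ) : ℤ) *
      Int.gcd D ((u2 / e2 : ℕ) : ℤ) := by
  have hdv : L ∣ r * (u1 / e1) * (u2 / e2) := by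
    have : (L : ℤ) ∣ ((r * (u1 / e1) * (u2 / e2) : ℕ) : ℤ) := by
      apply dvd_of_primes hsq
      intro p hp hpL
      have hnk : ¬ p ∣ kap g v1 v2 w1 w2 := by
        intro h
        have h1 : p ∣ Nat.gcd (r1 * kap g v1 v2 w1 w2) L := Nat.dvd_gcd (h.mul_left r1) hpL
        rw [hco] at h1
        exact hp.one_lt.ne' (Nat.dvd_one.1 h1)
      have hng : ¬ p ∣ g := fun h => hnk (h.trans (Nat.dvd_lcm_left _ _))
      have hkr : Nat.lcm (Nat.lcm v1 v2) (Nat.lcm w1 w2) ∣ kap g v1 v2 w1 w2 :=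
        Nat.dvd_lcm_right _ _
      have hpP : p ∣ Pi6 r u1 u2 v1 v2 w1 w2 := by
        rw [← hL]; exact hpL.mul_left _
      unfold Pi6 at hpP
      have hu : ∀ u e : ℕ, e = Nat.gcd g u → p ∣ u → p ∣ u / e := by
        intro u e he hpu
        have h1 : e ∣ u := by rw [he]; exact Nat.gcd_dvd_right g u
        have h2 : u = e * (u / e) := (Nat.mul_div_cancel' h1).symm
        rw [h2] at hpu
        rcases hp.dvd_mul.1 hpu with h3 | h3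
        · exact absurd (h3.trans (by rw [he]; exact Nat.gcd_dvd_left g u)) hng
        · exact h3
      have hfin : p ∣ r * (u1 / e1) * (u2 / e2) := by
        rcases hp.dvd_mul.1 hpP with h | h
        · exact (h.mul_right _).mul_right _
        · have h' := h.trans (Nat.lcm_dvd_mul _ _)
          rcases hp.dvd_mul.1 h' with h3 | h3
          · have h4 := h3.trans (Nat.lcm_dvd_mul _ _)
            rcases hp.dvd_mul.1 h4 with h5 | h5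
            · exact ((hu u1 e1 he1 h5).mul_left _).mul_right _
            · exact (hu u2 e2 he2 h5).mul_left _
          · exact absurd (h3.trans hkr) hnk
      exact_mod_cast hfin
    exact_mod_cast this
  have hN : D.natAbs ≠ 0 := Int.natAbs_ne_zero.2 hD
  have e0 : ∀ m : ℕ, Int.gcd D (m : ℤ) = Nat.gcd D.natAbs m := fun m => rfl
  rw [e0, e0, e0, e0]
  have h1 : Nat.gcd D.natAbs L ∣ Nat.gcd D.natAbs r * Nat.gcd D.natAbs (u1 / e1) *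
      Nat.gcd D.natAbs (u2 / e2) := by
    have h2 : Nat.gcd D.natAbs L ∣ Nat.gcd D.natAbs (r * (u1 / e1) * (u2 / e2)) :=
      Nat.gcd_dvd_gcd_of_dvd_right _ hdv
    have h3 : Nat.gcd D.natAbs (r * (u1 / e1) * (u2 / e2)) ∣
        Nat.gcd D.natAbs (r * (u1 / e1)) * Nat.gcd D.natAbs (u2 / e2) :=
      Nat.gcd_mul_right_dvd_mul_gcd _ _ _
    have h4 : Nat.gcd D.natAbs (r * (u1 / e1)) ∣
        Nat.gcd D.natAbs r * Nat.gcd D.natAbs (u1 / e1) := Nat.gcd_mul_right_dvd_mul_gcd _ _ _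
    exact (h2.trans h3).trans (Nat.mul_dvd_mul_right h4 _)
  apply Nat.le_of_dvd _ h1
  have p1 : ∀ m : ℕ, 0 < Nat.gcd D.natAbs m := fun m =>
    Nat.gcd_pos_of_pos_left _ (Nat.pos_of_ne_zero hN)
  exact Nat.mul_pos (Nat.mul_pos (p1 _) (p1 _)) (p1 _)

/-- the analytic part -/
theorem SS_ana {C N K B Y T RUV Lr kr tl gg S2 : ℝ} (hC : 0 < C) (hN : 0 ≤ N) (hK : 0 < K)
    (hB : 1 ≤ B) (hY : 0 ≤ Y) (h1 : K * B ≤ Y ^ 2 * N) (h2 : K ≤ Y ^ 4 * RUV)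
    (hT : 1 ≤ T) (hL1 : 1 ≤ Lr) (hk1 : 0 ≤ kr) (hkK : kr ≤ K) (hKk : K ≤ B ^ 2 * kr)
    (hkL : kr * Lr ≤ 128 * K ^ 3) (hkL2 : RUV ≤ kr * Lr)
    (htl0 : 0 ≤ tl) (htl : tl ≤ T) (hlog : 1 + Real.log Lr ≤ T) (hgg : 1 ≤ gg)
    (hS : S2 ≤ C * tl ^ 4 * (1 + Real.log Lr) *
        (N * kr + (N * Real.sqrt Lr + N ^ 2 / Real.sqrt Lr) * Real.sqrt gg)) :
    S2 ≤ 14 * C * (T ^ 3 * N * Y * gg) ^ 2 := by
  have hL0 : 0 < Lr := by linarith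
  have hkpos : 0 < kr := by
    rcases hk1.lt_or_eq with h | h
    · exact h
    · rw [← h] at hKk; simp at hKk; linarith
  have hB0 : 0 < B := by linarith
  have hs : 0 < Real.sqrt Lr := Real.sqrt_pos.2 hL0
  have hsg : 1 ≤ Real.sqrt gg := by
    rw [show (1 : ℝ) = Real.sqrt 1 by simp]; exact Real.sqrt_le_sqrt hgg
  have hKY : K ≤ Y ^ 2 * N := by nlinarith
  have hY2N : 0 ≤ N * Y ^ 2 := by positivity
  -- sqrt L <= 12 K B
  have hLle : Lr ≤ (12 * (K * B)) ^ 2 := by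
    have h3 : kr * Lr ≤ kr * (128 * (K ^ 2 * B ^ 2)) := by
      calc kr * Lr ≤ 128 * K ^ 3 := hkL
        _ = 128 * K ^ 2 * K := by ring
        _ ≤ 128 * K ^ 2 * (B ^ 2 * kr) := mul_le_mul_of_nonneg_left hKk (by positivity)
        _ = kr * (128 * (K ^ 2 * B ^ 2)) := by ring
    have h4 := le_of_mul_le_mul_left h3 hkpos
    nlinarith [sq_nonneg (K * B)]
  have hsq1 : Real.sqrt Lr ≤ 12 * (K * B) := by
    rw [show 12 * (K * B) = Real.sqrt ((12 * (K * B)) ^ 2) by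
      rw [Real.sqrt_sq (by positivity)]]
    exact Real.sqrt_le_sqrt hLle
  have hA1 : N * kr ≤ N ^ 2 * Y ^ 2 := by
    calc N * kr ≤ N * (Y ^ 2 * N) := mul_le_mul_of_nonneg_left (hkK.trans hKY) hN
      _ = N ^ 2 * Y ^ 2 := by ring
  have hA2 : N * Real.sqrt Lr ≤ 12 * (N ^ 2 * Y ^ 2) := by
    calc N * Real.sqrt Lr ≤ N * (12 * (Y ^ 2 * N)) :=
          mul_le_mul_of_nonneg_left (hsq1.trans (by linarith)) hN
      _ = 12 * (N ^ 2 * Y ^ 2) := by ring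
  have hA3 : N ^ 2 / Real.sqrt Lr ≤ N ^ 2 * Y ^ 2 := by
    rw [div_le_iff₀ hs]
    have h5 : 1 ≤ Y ^ 4 * Lr := by
      have h6 : K ≤ Y ^ 4 * (K * Lr) := by
        calc K ≤ Y ^ 4 * RUV := h2
          _ ≤ Y ^ 4 * (kr * Lr) := mul_le_mul_of_nonneg_left hkL2 (by positivity)
          _ ≤ Y ^ 4 * (K * Lr) := by
              apply mul_le_mul_of_nonneg_left _ (by positivity)
              exact mul_le_mul_of_nonneg_right hkK hL0.le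
      have h7 : K * 1 ≤ K * (Y ^ 4 * Lr) := by linarith [h6, mul_comm K (Y ^ 4 * Lr)]
      exact le_of_mul_le_mul_left h7 hK
    have h6 : 1 ≤ Y ^ 2 * Real.sqrt Lr := by
      have h7 : (1 : ℝ) ^ 2 ≤ (Y ^ 2 * Real.sqrt Lr) ^ 2 := by
        rw [mul_pow, Real.sq_sqrt hL0.le]; linarith
      exact (pow_le_pow_iff_left₀ zero_le_one (by positivity) two_ne_zero).1 h7
    calc N ^ 2 = N ^ 2 * 1 := by ring
      _ ≤ N ^ 2 * (Y ^ 2 * Real.sqrt Lr) := mul_le_mul_of_nonneg_left h6 (sq_nonneg N)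
      _ = N ^ 2 * Y ^ 2 * Real.sqrt Lr := by ring
  have hsg2 : Real.sqrt gg ≤ gg := by
    rw [Real.sqrt_le_left (by linarith)]
    nlinarith
  have hX : N * kr + (N * Real.sqrt Lr + N ^ 2 / Real.sqrt Lr) * Real.sqrt gg ≤
      14 * (N ^ 2 * Y ^ 2) * gg := by
    have h8 : 0 ≤ N ^ 2 * Y ^ 2 := by positivity
    have h9 : (N * Real.sqrt Lr + N ^ 2 / Real.sqrt Lr) * Real.sqrt gg ≤
        (13 * (N ^ 2 * Y ^ 2)) * gg := by
      apply mul_le_mul _ hsg2 (by positivity) (by positivity)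
      linarith
    nlinarith
  have hX0 : 0 ≤ N * kr + (N * Real.sqrt Lr + N ^ 2 / Real.sqrt Lr) * Real.sqrt gg := by
    positivity
  have hlog0 : 0 ≤ 1 + Real.log Lr := by
    have := Real.log_nonneg hL1; linarith
  have hT4 : tl ^ 4 ≤ T ^ 4 := pow_le_pow_left₀ htl0 htl 4
  have hCT : C * tl ^ 4 * (1 + Real.log Lr) ≤ C * T ^ 4 * T := by
    apply mul_le_mul _ hlog hlog0 (by positivity)
    exact mul_le_mul_of_nonneg_left hT4 hC.le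
  calc S2 ≤ C * tl ^ 4 * (1 + Real.log Lr) *
        (N * kr + (N * Real.sqrt Lr + N ^ 2 / Real.sqrt Lr) * Real.sqrt gg) := hS
    _ ≤ (C * T ^ 4 * T) * (14 * (N ^ 2 * Y ^ 2) * gg) :=
        mul_le_mul hCT hX hX0 (by positivity)
    _ = 14 * C * (N ^ 2 * Y ^ 2) * (T ^ 5 * gg) := by ring
    _ ≤ 14 * C * (N ^ 2 * Y ^ 2) * (T ^ 6 * gg ^ 2) := by
        apply mul_le_mul_of_nonneg_left _ (by positivity)
        apply mul_le_mul _ _ (by positivity) (by positivity)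
        · exact pow_le_pow_right₀ hT (by norm_num)
        · nlinarith
    _ = 14 * C * (T ^ 3 * N * Y * gg) ^ 2 := by ring

theorem ss_bound : ∃ C : ℝ, 0 < C ∧ ∀ (N R U V H Z : ℕ) (K B Y T : ℝ) (a b1 b2 : ℤ)
    (r u1 u2 v1 v2 w1 w2 g e1 e2 : ℕ) (l h h' : ℤ),
    1 ≤ R → 1 ≤ U → 1 ≤ V → 1 ≤ H → H ≤ N → 0 < K → K ≤ N → K ^ 3 = R * U ^ 2 * V ^ 4 →
    1 ≤ B → 0 ≤ Y → K * B ≤ Y ^ 2 * N → K ≤ Y ^ 4 * (R * U * V) →
    2 ^ 10 * R * U ^ 2 * V ^ 4 * H * N ≤ Z → (∀ m : ℕ, 1 ≤ m → m ≤ Z → (tau m : ℝ) ≤ T) →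
    1 + Real.log Z ≤ T →
    r ∈ Finset.Ioc R (2 * R) → u1 ∈ Finset.Icc U (2 * U) → u2 ∈ Finset.Icc U (2 * U) →
    v1 ∈ Finset.Ioc V (2 * V) → v2 ∈ Finset.Ioc V (2 * V) →
    w1 ∈ Finset.Ioc V (2 * V) → w2 ∈ Finset.Ioc V (2 * V) →
    Good a b1 b2 r u1 v1 u2 v2 → Good a b1 b2 r u1 w1 u2 w2 →
    Nat.gcd (u1 * v1) (u2 * v2) = g → Nat.gcd (u1 * w1) (u2 * w2) = g → g ≤ H →
    e1 = Nat.gcd g u1 → e2 = Nat.gcd g u2 →
    (∀ t : ℝ, K ≤ 16 * H * V ^ 4 * t → t ≤ K → ∃ r1 : ℕ, r1 ∣ r ∧ (r1 : ℝ) ≤ t ∧ t ≤ B ^ 2 * r1) →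
    h * (w1 * w2) - h' * (v1 * v2) ≠ 0 →
    ‖∑ n ∈ Finset.Icc (1 : ℤ) N, W a b1 b2 r l (u1 * v1) (u2 * v2) h n *
        (starRingEnd ℂ) (W a b1 b2 r l (u1 * w1) (u2 * w2) h' n)‖ ≤
      C * T ^ 3 * N * Y *
        ((Int.gcd (h * (w1 * w2) - h' * (v1 * v2)) (r : ℤ) : ℝ) *
          (Int.gcd (h * (w1 * w2) - h' * (v1 * v2)) ((u1 / e1 : ℕ) : ℤ) : ℝ) *
          (Int.gcd (h * (w1 * w2) - h' * (v1 * v2)) ((u2 / e2 : ℕ) : ℤ) : ℝ)) := by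
  obtain ⟨C, hC, hvdc⟩ := vdc
  refine ⟨14 * C + 1, by linarith, ?_⟩
  intro N R U V H Z K B Y T a b1 b2 r u1 u2 v1 v2 w1 w2 g e1 e2 l h h' hR hU hV hH hHN hK hKN hK3
    hB hY hKB hKY hZ htau hlogZ hr hu1 hu2 hv1 hv2 hw1 hw2 hG hG' hg hg' hgH he1 he2 hwin hD
  rw [Finset.mem_Ioc] at hr hv1 hv2 hw1 hw2
  rw [Finset.mem_Icc] at hu1 hu2
  have hv1' : 0 < v1 := lt_of_le_of_lt (Nat.zero_le _) hv1.1
  have hv2' : 0 < v2 := lt_of_le_of_lt (Nat.zero_le _) hv2.1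
  have hw1' : 0 < w1 := lt_of_le_of_lt (Nat.zero_le _) hw1.1
  have hw2' : 0 < w2 := lt_of_le_of_lt (Nat.zero_le _) hw2.1
  have hu1' : 0 < u1 := lt_of_lt_of_le hU hu1.1
  have hu2' : 0 < u2 := lt_of_lt_of_le hU hu2.1
  have hr' : 0 < r := lt_of_le_of_lt (Nat.zero_le _) hr.1
  have hgpos : 0 < g := by
    rw [← hg]; exact Nat.gcd_pos_of_pos_left _ (Nat.mul_pos hu1' hv1')
  have hkap_pos : 0 < kap g v1 v2 w1 w2 := by
    unfold kap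
    exact Nat.lcm_pos hgpos (Nat.lcm_pos (Nat.lcm_pos hv1' hv2') (Nat.lcm_pos hw1' hw2'))
  have hkap_le := SS_kap_le (V := V) (H := H) hv1.2 hv2.2 hw1.2 hw2.2 hgH
  set kp := kap g v1 v2 w1 w2 with hkp
  have hkpR : (0 : ℝ) < kp := by exact_mod_cast hkap_pos
  have hkp1 : (1 : ℝ) ≤ kp := by exact_mod_cast hkap_pos
  obtain ⟨r1, hr1d, hr1t, htr1⟩ := hwin (K / kp) (by
      have h1 : (kp : ℝ) ≤ 16 * H * V ^ 4 := by exact_mod_cast hkap_le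
      have h2 : K = kp * (K / kp) := by field_simp
      calc K = kp * (K / kp) := h2
        _ ≤ 16 * H * V ^ 4 * (K / kp) :=
            mul_le_mul_of_nonneg_right h1 (by positivity)) (div_le_self hK.le hkp1)
  have hr1pos : 0 < r1 := Nat.pos_of_dvd_of_pos hr1d hr'
  obtain ⟨L, G, c, l0, hkL, hco, hLsq, hGper, hG1, hgcd, hW⟩ :=
    phase (l := l) hG hG' hg hg' hr1d h h'
  rw [← hkp] at hkL hco hGper
  set k := r1 * kp with hk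
  have hkpos : 0 < k := Nat.mul_pos hr1pos hkap_pos
  have hLpos : 0 < L := Nat.pos_of_ne_zero hLsq.ne_zero
  have hkR : (k : ℝ) = r1 * kp := by rw [hk]; push_cast; ring
  have hkK : (k : ℝ) ≤ K := by
    rw [hkR]
    rw [le_div_iff₀ hkpR] at hr1t
    exact hr1t
  have hKk : K ≤ B ^ 2 * k := by
    rw [hkR]
    rw [div_le_iff₀ hkpR] at htr1
    linarith [htr1]
  have hPpos : 0 < Pi6 r u1 u2 v1 v2 w1 w2 := by rw [← hkL]; exact Nat.mul_pos hkpos hLpos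
  have hPle : Pi6 r u1 u2 v1 v2 w1 w2 ≤ 128 * (R * U ^ 2 * V ^ 4) :=
    SS_pi_le hr.2 hu1.2 hu2.2 hv1.2 hv2.2 hw1.2 hw2.2
  have hPge : R * U * V ≤ Pi6 r u1 u2 v1 v2 w1 w2 := SS_pi_ge hr.1 hu1.1 hv1.1 hG.1 hPpos
  have hkL_le : (k : ℝ) * L ≤ 128 * K ^ 3 := by
    rw [hK3]
    have : k * L ≤ 128 * (R * U ^ 2 * V ^ 4) := by rw [hkL]; exact hPle
    exact_mod_cast this
  have hkL_ge : (R : ℝ) * U * V ≤ (k : ℝ) * L := by
    have : R * U * V ≤ k * L := by rw [hkL]; exact hPge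
    exact_mod_cast this
  have hLZ : L ≤ Z := by
    have h1 : L ≤ Pi6 r u1 u2 v1 v2 w1 w2 := by
      rw [← hkL]; exact Nat.le_mul_of_pos_left L hkpos
    have h2 : 128 * (R * U ^ 2 * V ^ 4) ≤ 2 ^ 10 * R * U ^ 2 * V ^ 4 * H * N := by
      have hN1 : 1 ≤ H * N := Nat.mul_pos hH (lt_of_lt_of_le hH hHN)
      calc 128 * (R * U ^ 2 * V ^ 4) ≤ 2 ^ 10 * (R * U ^ 2 * V ^ 4) :=
            Nat.mul_le_mul_right _ (by norm_num)
        _ = 2 ^ 10 * (R * U ^ 2 * V ^ 4) * 1 := by ring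
        _ ≤ 2 ^ 10 * (R * U ^ 2 * V ^ 4) * (H * N) := Nat.mul_le_mul_left _ hN1
        _ = 2 ^ 10 * R * U ^ 2 * V ^ 4 * H * N := by ring
    exact (h1.trans hPle).trans (h2.trans hZ)
  have hL1R : (1 : ℝ) ≤ L := by exact_mod_cast hLpos
  have hlogL : 1 + Real.log L ≤ T := by
    have : Real.log L ≤ Real.log Z :=
      Real.log_le_log (by linarith) (by exact_mod_cast hLZ)
    linarith
  have hT1 : 1 ≤ T := by
    have := Real.log_nonneg hL1R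
    linarith
  set D : ℤ := h * (w1 * w2) - h' * (v1 * v2) with hDdef
  have hgg := SS_gcd hD (by rw [← hkp]; exact hkL) (by rw [← hkp]; exact hco) hLsq he1 he2 hgpos
  have hgg1 : (1 : ℝ) ≤ (Int.gcd c (L : ℤ) : ℕ) := by
    rw [hgcd]
    have : 0 < Int.gcd D (L : ℤ) := Int.gcd_pos_of_ne_zero_left _ hD
    exact_mod_cast this
  have hkN : k ≤ N := by
    have : (k : ℝ) ≤ N := hkK.trans hKN
    exact_mod_cast this
  have hv := hvdc k L N G c l0 0 hLsq hco hkpos hkN hGper hG1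
  have hset : Finset.Ioc (0 : ℤ) (0 + (N : ℤ)) = Finset.Icc (1 : ℤ) N := by
    ext x
    rw [Finset.mem_Ioc, Finset.mem_Icc]
    omega
  rw [hset] at hv
  have hsum : ∑ n ∈ Finset.Icc (1 : ℤ) N, W a b1 b2 r l (u1 * v1) (u2 * v2) h n *
        (starRingEnd ℂ) (W a b1 b2 r l (u1 * w1) (u2 * w2) h' n) =
      ∑ n ∈ Finset.Icc (1 : ℤ) N, G n * KL L c (n + l0) :=
    Finset.sum_congr rfl (fun n _ => hW n)
  rw [hsum]
  have hfin := SS_ana (RUV := (R : ℝ) * U * V) hC (Nat.cast_nonneg N) hK hB hY hKB hKY hT1 hL1R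
    (Nat.cast_nonneg k) hkK hKk hkL_le hkL_ge (Nat.cast_nonneg (tau L))
    (htau L hLpos hLZ) hlogL hgg1 hv
  set S := ‖∑ n ∈ Finset.Icc (1 : ℤ) N, G n * KL L c (n + l0)‖ with hS
  set gg : ℝ := ((Int.gcd c (L : ℤ) : ℕ) : ℝ) with hggdef
  have hbase : 0 ≤ T ^ 3 * N * Y * gg := by positivity
  have h1 : S ^ 2 ≤ ((14 * C + 1) * (T ^ 3 * N * Y * gg)) ^ 2 := by
    rw [mul_pow]
    refine hfin.trans (mul_le_mul_of_nonneg_right ?_ (sq_nonneg _))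
    nlinarith
  have h2 : S ≤ (14 * C + 1) * (T ^ 3 * N * Y * gg) :=
    (pow_le_pow_iff_left₀ (norm_nonneg _) (by positivity) two_ne_zero).1 h1
  refine h2.trans ?_
  have h3 : gg ≤ (Int.gcd D (r : ℤ) : ℝ) * (Int.gcd D ((u1 / e1 : ℕ) : ℤ) : ℝ) *
      (Int.gcd D ((u2 / e2 : ℕ) : ℤ) : ℝ) := by
    rw [hggdef, hgcd]
    exact_mod_cast hgg
  calc (14 * C + 1) * (T ^ 3 * N * Y * gg) = (14 * C + 1) * T ^ 3 * N * Y * gg := by ring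
    _ ≤ _ := mul_le_mul_of_nonneg_left h3 (by positivity)

end Pool.Agent.BCore
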